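import Mathlib

/-!
Assigning permutations to modes with capacities, through Hall's theorem.
-/

namespace Pool.Agent.H63.SubV

open Finset Equiv

theorem card_perm_fix {n : ℕ} (hn : 1 ≤ n) (i l : Fin n) :
    (univ.filter (fun π : Perm (Fin n) => π i = l)).card = (n - 1).factorial := by
  classical
  have h1 : ∀ l' : Fin n, (univ.filter (fun π : Perm (Fin n) => π i = l')).card =
      (univ.filter (fun π : Perm (Fin n) => π i = l)).card := by
    intro l'
    refine Finset.card_bij (fun π _ => swap l' l * π) ?_ ?_ ?_
    · intro π hπ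
      simp only [mem_filter, mem_univ, true_and] at hπ ⊢
      rw [Perm.mul_apply, hπ, swap_apply_left]
    · intro π _ π' _ h
      exact mul_left_cancel h
    · intro π hπ
      simp only [mem_filter, mem_univ, true_and] at hπ
      refine ⟨swap l' l * π, ?_, ?_⟩
      · simp only [mem_filter, mem_univ, true_and]
        rw [Perm.mul_apply, hπ, swap_apply_right]
      · rw [← mul_assoc, swap_mul_self, one_mul]
  have h2 : ∑ l' : Fin n, (univ.filter (fun π : Perm (Fin n) => π i = l')).card =
      (univ : Finset (Perm (Fin n))).card := by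
    rw [← Finset.card_eq_sum_card_fiberwise (f := fun π : Perm (Fin n) => π i)
      (t := (univ : Finset (Fin n)))]
    intro π _; exact Finset.mem_coe.mpr (Finset.mem_univ _)
  rw [Finset.sum_congr rfl fun l' _ => h1 l', Finset.sum_const, Finset.card_univ,
    Finset.card_univ, Fintype.card_fin, Fintype.card_perm, Fintype.card_fin, smul_eq_mul] at h2
  obtain ⟨k, rfl⟩ : ∃ k, n = k + 1 := ⟨n - 1, by omega⟩
  rw [Nat.factorial_succ] at h2
  have h3 := Nat.eq_of_mul_eq_mul_left (Nat.succ_pos k) h2
  rw [h3]
  rfl

theorem two_mul_card_sign {n : ℕ} (hn : 3 ≤ n) (i l : Fin n) (e : ℤˣ) :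
    2 * (univ.filter (fun π : Perm (Fin n) => π i = l ∧ Perm.sign π = e)).card =
      (n - 1).factorial := by
  classical
  obtain ⟨k, k', hk, hk', hkk⟩ : ∃ k k' : Fin n, k ≠ i ∧ k' ≠ i ∧ k ≠ k' := by
    have h1 : 2 ≤ (univ.erase i).card := by
      rw [Finset.card_erase_of_mem (Finset.mem_univ i), Finset.card_univ, Fintype.card_fin]
      omega
    obtain ⟨k, hk, k', hk', hne⟩ := Finset.one_lt_card.mp (show 1 < (univ.erase i).card by omega)
    exact ⟨k, k', Finset.ne_of_mem_erase hk, Finset.ne_of_mem_erase hk', hne⟩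
  have h1 : (univ.filter (fun π : Perm (Fin n) => π i = l ∧ Perm.sign π = e)).card =
      (univ.filter (fun π : Perm (Fin n) => π i = l ∧ Perm.sign π = -e)).card := by
    refine Finset.card_bij (fun π _ => π * swap k k') ?_ ?_ ?_
    · intro π hπ
      simp only [mem_filter, mem_univ, true_and] at hπ ⊢
      constructor
      · rw [Perm.mul_apply, swap_apply_of_ne_of_ne (Ne.symm hk) (Ne.symm hk'), hπ.1]
      · rw [Perm.sign_mul, hπ.2, Perm.sign_swap hkk, mul_neg, mul_one]
    · intro π _ π' _ h
      exact mul_right_cancel h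
    · intro π hπ
      simp only [mem_filter, mem_univ, true_and] at hπ
      refine ⟨π * swap k k', ?_, ?_⟩
      · simp only [mem_filter, mem_univ, true_and]
        constructor
        · rw [Perm.mul_apply, swap_apply_of_ne_of_ne (Ne.symm hk) (Ne.symm hk'), hπ.1]
        · rw [Perm.sign_mul, hπ.2, Perm.sign_swap hkk, mul_neg, mul_one, neg_neg]
      · rw [mul_assoc, swap_mul_self, mul_one]
  have h2 : (univ.filter (fun π : Perm (Fin n) => π i = l ∧ Perm.sign π = e)).card +
      (univ.filter (fun π : Perm (Fin n) => π i = l ∧ Perm.sign π = -e)).card =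
      (univ.filter (fun π : Perm (Fin n) => π i = l)).card := by
    rw [← Finset.card_union_of_disjoint]
    · congr 1
      ext π
      simp only [mem_union, mem_filter, mem_univ, true_and]
      constructor
      · rintro (h | h) <;> exact h.1
      · intro h
        rcases Int.units_eq_one_or (Perm.sign π) with h3 | h3 <;>
          rcases Int.units_eq_one_or e with h4 | h4 <;> simp [h, h3, h4]
    · rw [Finset.disjoint_left]
      intro π h3 h4
      simp only [mem_filter, mem_univ, true_and] at h3 h4
      have h5 : e = -e := h3.2.symm.trans h4.2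
      rcases Int.units_eq_one_or e with h6 | h6 <;> rw [h6] at h5 <;> exact absurd h5 (by decide)
  rw [card_perm_fix (by omega)] at h2
  omega

theorem exists_assign {n : ℕ} (hn : 3 ≤ n) (Q q : Fin n → ℕ) (hqQ : ∀ i, q i ≤ Q i)
    (hQ : (n - 1).factorial ≤ ∑ i, Q i) (hq : (n - 1).factorial ≤ 2 * ∑ i, q i) :
    ∃ f : Perm (Fin n) → (Σ _ : Fin n, Fin n × ℕ), Function.Injective f ∧
      ∀ π, (f π).2.1 = π (f π).1 ∧ (f π).2.2 < Q (f π).1 ∧
        (Perm.sign π = -1 → (f π).2.2 < q (f π).1) := by
  classical
  let t : Perm (Fin n) → Finset (Σ _ : Fin n, Fin n × ℕ) := fun π =>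
    univ.sigma fun i => {π i} ×ˢ range (if Perm.sign π = -1 then q i else Q i)
  suffices H : ∃ f : Perm (Fin n) → (Σ _ : Fin n, Fin n × ℕ), Function.Injective f ∧
      ∀ π, f π ∈ t π by
    obtain ⟨f, hf, hft⟩ := H
    refine ⟨f, hf, fun π => ?_⟩
    have h1 := hft π
    simp only [t, mem_sigma, mem_univ, true_and, mem_product, mem_singleton, mem_range] at h1
    refine ⟨h1.1, ?_, ?_⟩
    · have := h1.2
      split_ifs at this
      · exact lt_of_lt_of_le this (hqQ _)
      · exact this
    · intro h2
      have := h1.2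
      rwa [if_pos h2] at this
  rw [← Finset.all_card_le_biUnion_card_iff_exists_injective]
  intro S
  set Se := S.filter (fun π => Perm.sign π = 1) with hSe
  set So := S.filter (fun π => Perm.sign π = -1) with hSo
  have hScard : S.card = Se.card + So.card := by
    rw [hSe, hSo, ← Finset.card_union_of_disjoint]
    · congr 1
      ext π
      simp only [mem_union, mem_filter]
      constructor
      · intro h
        rcases Int.units_eq_one_or (Perm.sign π) with h3 | h3
        · exact Or.inl ⟨h, h3⟩
        · exact Or.inr ⟨h, h3⟩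
      · rintro (h | h) <;> exact h.1
    · rw [Finset.disjoint_left]
      intro π h3 h4
      simp only [mem_filter] at h3 h4
      have h5 : (1 : ℤˣ) = -1 := h3.2.symm.trans h4.2
      exact absurd h5 (by decide)
  set h := (n - 1).factorial / 2 with hh
  have hdvd : 2 * h = (n - 1).factorial := by
    have : 2 ∣ (n - 1).factorial := Nat.dvd_factorial (by norm_num) (by omega)
    omega
  have hpos : 1 ≤ h := by
    have : 0 < (n - 1).factorial := Nat.factorial_pos _
    omega
  let Am : Fin n → Finset (Fin n) := fun i => Se.image (fun π => π i)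
  let Bm : Fin n → Finset (Fin n) := fun i => So.image (fun π => π i)
  have hA : ∀ i, Se.card ≤ h * (Am i).card := by
    intro i
    refine Finset.card_le_mul_card_image _ _ fun l _ => ?_
    have h1 := two_mul_card_sign hn i l 1
    have h2 : (Se.filter (fun π => π i = l)).card ≤
        (univ.filter (fun π : Perm (Fin n) => π i = l ∧ Perm.sign π = 1)).card := by
      refine Finset.card_le_card fun π hπ => ?_
      simp only [hSe, mem_filter, mem_univ, true_and] at hπ ⊢
      exact ⟨hπ.2, hπ.1.2⟩
    omega
  have hB : ∀ i, So.card ≤ h * (Bm i).card := by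
    intro i
    refine Finset.card_le_mul_card_image _ _ fun l _ => ?_
    have h1 := two_mul_card_sign hn i l (-1)
    have h2 : (So.filter (fun π => π i = l)).card ≤
        (univ.filter (fun π : Perm (Fin n) => π i = l ∧ Perm.sign π = -1)).card := by
      refine Finset.card_le_card fun π hπ => ?_
      simp only [hSo, mem_filter, mem_univ, true_and] at hπ ⊢
      exact ⟨hπ.2, hπ.1.2⟩
    omega
  let U : Finset (Σ _ : Fin n, Fin n × ℕ) := univ.sigma fun i =>
    (Am i ×ˢ range (Q i)) ∪ ((Bm i \ Am i) ×ˢ range (q i))
  have hU : U ⊆ S.biUnion t := by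
    rintro ⟨i, l, g⟩ hx
    simp only [U, mem_sigma, mem_univ, true_and, mem_union, mem_product, mem_range,
      mem_sdiff, Am, Bm, mem_image] at hx
    simp only [mem_biUnion, t, mem_sigma, mem_univ, true_and, mem_product, mem_singleton,
      mem_range]
    rcases hx with ⟨⟨π, hπ, rfl⟩, hg⟩ | ⟨⟨⟨π, hπ, rfl⟩, _⟩, hg⟩
    · rw [hSe, mem_filter] at hπ
      refine ⟨π, hπ.1, rfl, ?_⟩
      rw [hπ.2, if_neg (by decide)]
      exact hg
    · rw [hSo, mem_filter] at hπ
      refine ⟨π, hπ.1, rfl, ?_⟩
      rw [hπ.2, if_pos rfl]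
      exact hg
  refine le_trans ?_ (Finset.card_le_card hU)
  have hUcard : U.card = ∑ i, ((Am i).card * (Q i - q i) + (Am i ∪ Bm i).card * q i) := by
    rw [Finset.card_sigma]
    refine Finset.sum_congr rfl fun i _ => ?_
    rw [Finset.card_union_of_disjoint, Finset.card_product, Finset.card_product,
      Finset.card_range, Finset.card_range]
    · have h1 : (Am i ∪ Bm i).card = (Am i).card + (Bm i \ Am i).card := by
        rw [← Finset.union_sdiff_self_eq_union, Finset.card_union_of_disjoint]
        exact Finset.disjoint_sdiff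
      rw [h1]
      have h2 : Q i = (Q i - q i) + q i := by have := hqQ i; omega
      conv_lhs => rw [h2]
      ring
    · rw [Finset.disjoint_left]
      rintro ⟨l, g⟩ h1 h2
      simp only [mem_product, mem_sdiff] at h1 h2
      exact h2.1.2 h1.1
  have hmul : h * S.card ≤ h * U.card := by
    rw [hUcard, Finset.mul_sum, hScard]
    have hsumQ : ∑ i, Q i = ∑ i, (Q i - q i) + ∑ i, q i := by
      rw [← Finset.sum_add_distrib]
      refine Finset.sum_congr rfl fun i _ => ?_
      have := hqQ i; omega
    rcases le_total So.card Se.card with hle | hle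
    · calc h * (Se.card + So.card) ≤ Se.card * (2 * h) := by nlinarith
        _ ≤ Se.card * ∑ i, Q i := by
          refine Nat.mul_le_mul_left _ ?_
          rw [hdvd]; exact hQ
        _ = ∑ i, (Se.card * (Q i - q i) + Se.card * q i) := by
          rw [hsumQ, Finset.sum_add_distrib, mul_add, Finset.mul_sum, Finset.mul_sum]
        _ ≤ ∑ i, h * ((Am i).card * (Q i - q i) + (Am i ∪ Bm i).card * q i) := by
          refine Finset.sum_le_sum fun i _ => ?_
          rw [mul_add, ← mul_assoc, ← mul_assoc]
          refine Nat.add_le_add (Nat.mul_le_mul_right _ (hA i)) (Nat.mul_le_mul_right _ ?_)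
          refine (hA i).trans (Nat.mul_le_mul_left _ (Finset.card_le_card ?_))
          exact Finset.subset_union_left
    · calc h * (Se.card + So.card) = Se.card * (2 * h) + (So.card - Se.card) * h := by
            obtain ⟨d, hd⟩ := Nat.exists_eq_add_of_le hle
            rw [hd, Nat.add_sub_cancel_left]; ring
        _ ≤ Se.card * ∑ i, Q i + (So.card - Se.card) * ∑ i, q i := by
          refine Nat.add_le_add (Nat.mul_le_mul_left _ ?_) (Nat.mul_le_mul_left _ ?_)
          · rw [hdvd]; exact hQ
          · omega
        _ = ∑ i, (Se.card * (Q i - q i) + So.card * q i) := by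
          rw [hsumQ, Finset.sum_add_distrib, mul_add, ← Finset.mul_sum, ← Finset.mul_sum]
          obtain ⟨d, hd⟩ := Nat.exists_eq_add_of_le hle
          rw [hd, Nat.add_sub_cancel_left]; ring
        _ ≤ ∑ i, h * ((Am i).card * (Q i - q i) + (Am i ∪ Bm i).card * q i) := by
          refine Finset.sum_le_sum fun i _ => ?_
          rw [mul_add, ← mul_assoc, ← mul_assoc]
          refine Nat.add_le_add (Nat.mul_le_mul_right _ (hA i)) (Nat.mul_le_mul_right _ ?_)
          refine (hB i).trans (Nat.mul_le_mul_left _ (Finset.card_le_card ?_))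
          exact Finset.subset_union_right
  exact Nat.le_of_mul_le_mul_left hmul (by omega)

theorem exists_assign_one {n : ℕ} (hn : 1 ≤ n) (Q : Fin n → ℕ)
    (hQ : (n - 1).factorial ≤ ∑ i, Q i) :
    ∃ f : Perm (Fin n) → (Σ _ : Fin n, Fin n × ℕ), Function.Injective f ∧
      ∀ π, (f π).2.1 = π (f π).1 ∧ (f π).2.2 < Q (f π).1 := by
  classical
  let t : Perm (Fin n) → Finset (Σ _ : Fin n, Fin n × ℕ) := fun π =>
    univ.sigma fun i => {π i} ×ˢ range (Q i)
  suffices H : ∃ f : Perm (Fin n) → (Σ _ : Fin n, Fin n × ℕ), Function.Injective f ∧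
      ∀ π, f π ∈ t π by
    obtain ⟨f, hf, hft⟩ := H
    refine ⟨f, hf, fun π => ?_⟩
    have h1 := hft π
    simp only [t, mem_sigma, mem_univ, true_and, mem_product, mem_singleton, mem_range] at h1
    exact h1
  rw [← Finset.all_card_le_biUnion_card_iff_exists_injective]
  intro S
  set h := (n - 1).factorial with hh
  have hpos : 0 < h := Nat.factorial_pos _
  let Am : Fin n → Finset (Fin n) := fun i => S.image (fun π => π i)
  have hA : ∀ i, S.card ≤ h * (Am i).card := by
    intro i
    refine Finset.card_le_mul_card_image _ _ fun l _ => ?_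
    rw [hh, ← card_perm_fix hn i l]
    refine Finset.card_le_card fun π hπ => ?_
    simp only [mem_filter, mem_univ, true_and] at hπ ⊢
    exact hπ.2
  let U : Finset (Σ _ : Fin n, Fin n × ℕ) := univ.sigma fun i => Am i ×ˢ range (Q i)
  have hU : U ⊆ S.biUnion t := by
    rintro ⟨i, l, g⟩ hx
    simp only [U, mem_sigma, mem_univ, true_and, mem_product, mem_range, Am, mem_image] at hx
    simp only [mem_biUnion, t, mem_sigma, mem_univ, true_and, mem_product, mem_singleton,
      mem_range]
    obtain ⟨⟨π, hπ, rfl⟩, hg⟩ := hx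
    exact ⟨π, hπ, rfl, hg⟩
  refine le_trans ?_ (Finset.card_le_card hU)
  have hUcard : U.card = ∑ i, (Am i).card * Q i := by
    rw [Finset.card_sigma]
    refine Finset.sum_congr rfl fun i _ => ?_
    rw [Finset.card_product, Finset.card_range]
  have hmul : h * S.card ≤ h * U.card := by
    rw [hUcard, Finset.mul_sum]
    calc h * S.card ≤ S.card * ∑ i, Q i := by
          rw [mul_comm]; exact Nat.mul_le_mul_left _ hQ
      _ = ∑ i, S.card * Q i := by rw [Finset.mul_sum]
      _ ≤ ∑ i, h * ((Am i).card * Q i) := by
          refine Finset.sum_le_sum fun i _ => ?_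
          rw [← mul_assoc]
          exact Nat.mul_le_mul_right _ (hA i)
  exact Nat.le_of_mul_le_mul_left hmul hpos

end Pool.Agent.H63.SubV
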