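import Pool.Agent.H63.SubV.Upper
import Pool.Agent.H63.SubV.Hall

/-!
The sum of `n` subspace varieties fills the space: the slot assignment.
-/

namespace Pool.Agent.H63.SubV

open Finset Equiv

variable {n : ℕ} {m : Fin n → ℕ}

theorem exists_perm_of_cov {c : Fin n → ℕ} {x : ∀ i, Fin (m i)} (hx : Cov c n x) :
    ∃ σ : Perm (Fin n), ∀ i, (x i : ℕ) / c i = σ i := by
  choose g hg using fun j : Fin n => hx j j.isLt
  have hinj : Function.Injective g := by
    intro j k h
    have h1 := hg j
    rw [h, hg k] at h1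
    exact (Fin.ext h1).symm
  have hbij : Function.Bijective g := Finite.injective_iff_bijective.mp hinj
  refine ⟨(Equiv.ofBijective g hbij).symm, fun i => ?_⟩
  have h1 := hg ((Equiv.ofBijective g hbij).symm i)
  have h2 : g ((Equiv.ofBijective g hbij).symm i) = i :=
    (Equiv.ofBijective g hbij).apply_symm_apply i
  rw [h2] at h1
  exact h1

theorem cov_of_perm {c : Fin n → ℕ} {x : ∀ i, Fin (m i)} {σ : Perm (Fin n)}
    (h : ∀ i, (x i : ℕ) / c i = σ i) : Cov c n x := by
  intro j hj
  refine ⟨σ.symm ⟨j, hj⟩, ?_⟩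
  rw [h, Equiv.apply_symm_apply]

open Classical in
/-- The label permutation. -/
noncomputable def sg (c : Fin n → ℕ) (x : ∀ i, Fin (m i)) : Perm (Fin n) :=
  if h : Cov c n x then (exists_perm_of_cov h).choose else 1

theorem sg_spec {c : Fin n → ℕ} {x : ∀ i, Fin (m i)} (hx : Cov c n x) (i : Fin n) :
    (x i : ℕ) / c i = sg c x i := by
  rw [sg, dif_pos hx]
  exact (exists_perm_of_cov hx).choose_spec i

theorem perm_eq_of_off {σ τ : Perm (Fin n)} {i : Fin n} (h : ∀ k, k ≠ i → σ k = τ k) :
    σ = τ := by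
  ext k : 1
  by_cases hk : k = i
  · subst hk
    by_contra hne
    obtain ⟨l, hl⟩ := τ.surjective (σ k)
    have hlk : l ≠ k := by
      rintro rfl
      exact hne hl.symm
    have h1 := h l hlk
    rw [hl] at h1
    exact hlk (σ.injective h1)
  · exact h k hk

theorem sign_of_off_two {σ τ : Perm (Fin n)} {i j : Fin n} (hij : i ≠ j)
    (h : ∀ k, k ≠ i → k ≠ j → σ k = τ k) (hne : σ ≠ τ) :
    Perm.sign σ = - Perm.sign τ := by
  have h1 : σ = τ * swap i j := by
    refine perm_eq_of_off (i := i) fun k hk => ?_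
    by_cases hkj : k = j
    · subst hkj
      rw [Perm.mul_apply, swap_apply_right]
      obtain ⟨l, hl⟩ := τ.surjective (σ k)
      have hl1 : l = i ∨ l = k := by
        by_contra hno
        push Not at hno
        have h2 := h l hno.1 hno.2
        rw [hl] at h2
        exact hno.2 (σ.injective h2)
      rcases hl1 with rfl | rfl
      · exact hl.symm
      · exfalso
        apply hne
        refine perm_eq_of_off (i := i) fun p hp => ?_
        by_cases hpl : p = l
        · subst hpl; exact hl.symm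
        · exact h p hp hpl
    · rw [Perm.mul_apply, swap_apply_of_ne_of_ne hk hkj]
      exact h k hk hkj
  rw [h1, Perm.sign_mul, Perm.sign_swap hij, mul_neg, mul_one]

/-- Enumeration of the coordinates off block `l`, unlabelled ones first. -/
def slot (M c n l t : ℕ) : ℕ :=
  if t < M - n * c then n * c + t
  else if t - (M - n * c) < l * c then t - (M - n * c) else t - (M - n * c) + c

theorem slot_lt {M c n l t : ℕ} (hc : 1 ≤ c) (hM : n * c ≤ M) (hn : 1 ≤ n) (ht : t < M - c) :
    slot M c n l t < M := by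
  have h1 : c ≤ n * c := Nat.le_mul_of_pos_left c hn
  rw [slot]
  split_ifs <;> omega

theorem slot_div_ne {M c n l t : ℕ} (hc : 1 ≤ c) (hl : l < n) :
    slot M c n l t / c ≠ l := by
  rw [slot]
  intro h
  have h1 : l * c + c ≤ n * c := by
    have := Nat.mul_le_mul_right c (show l + 1 ≤ n by omega)
    rw [add_mul, one_mul] at this; exact this
  have h2 := Nat.div_add_mod (if t < M - n * c then n * c + t
    else if t - (M - n * c) < l * c then t - (M - n * c) else t - (M - n * c) + c) c
  have h3 := Nat.mod_lt (if t < M - n * c then n * c + t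
    else if t - (M - n * c) < l * c then t - (M - n * c) else t - (M - n * c) + c)
      (show c > 0 by omega)
  rw [h] at h2
  have h4 : c * l = l * c := mul_comm _ _
  split_ifs at h2 h3 <;> omega

theorem slot_free {M c n l t : ℕ} (hc : 1 ≤ c) (ht : t < M - n * c) :
    n ≤ slot M c n l t / c := by
  rw [slot, if_pos ht, Nat.le_div_iff_mul_le (by omega)]
  omega

theorem slot_inj {M c n l t t' : ℕ} (hc : 1 ≤ c) (hM : n * c ≤ M) (hn : 1 ≤ n)
    (ht : t < M - c) (ht' : t' < M - c) (h : slot M c n l t = slot M c n l t') : t = t' := by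
  have h1 : c ≤ n * c := Nat.le_mul_of_pos_left c hn
  rw [slot, slot] at h
  split_ifs at h <;> omega

theorem exists_code {c : Fin n → ℕ} (hc : ∀ i, 1 ≤ c i) (i : Fin n) :
    ∃ code : (∀ k, Fin (m k)) → ℕ, (∀ x, code x < ∏ k ∈ univ.erase i, c k) ∧
      ∀ x y, code x = code y → ∀ k, k ≠ i → (x k : ℕ) % c k = (y k : ℕ) % c k := by
  classical
  have hcard : Fintype.card (∀ k : {k // k ≠ i}, Fin (c k)) = ∏ k ∈ univ.erase i, c k := by
    rw [Fintype.card_pi]
    simp only [Fintype.card_fin]
    exact (Finset.prod_subtype (univ.erase i) (by simp) c).symm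
  let e := Fintype.equivFinOfCardEq hcard
  refine ⟨fun x => e fun k => ⟨(x k : ℕ) % c k, Nat.mod_lt _ (hc k)⟩, fun x => (e _).isLt, ?_⟩
  intro x y h k hk
  have h1 := e.injective (Fin.ext h)
  have h2 := congrFun h1 ⟨k, hk⟩
  exact congrArg Fin.val h2

theorem fills_of_f (hn : 1 ≤ n) {c : Fin n → ℕ} (hc : ∀ i, 1 ≤ c i) (hm : ∀ i, n * c i ≤ m i)
    (f : Perm (Fin n) → (Σ _ : Fin n, Fin n × ℕ)) (hf : Function.Injective f)
    (hf1 : ∀ π, (f π).2.1 = π (f π).1)
    (hf2 : ∀ π, (f π).2.2 < (m (f π).1 - c (f π).1) / ∏ k ∈ univ.erase (f π).1, c k)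
    (L : Perm (Fin n) → Prop)
    (hf3 : ∀ π, ¬ L π →
      (f π).2.2 < (m (f π).1 - n * c (f π).1) / ∏ k ∈ univ.erase (f π).1, c k)
    (hL : (∀ π, L π → Perm.sign π = 1) ∨ ∃ k, ∀ π, L π → (f π).1 = k) :
    Fills m (fun i => m i - c i) n := by
  classical
  choose code hcode hcodeinj using exists_code (m := m) hc
  let D : Fin n → ℕ := fun i => ∏ k ∈ univ.erase i, c k
  let I : (∀ i, Fin (m i)) → Fin n := fun x => (f (sg c x)).1
  let tt : (∀ i, Fin (m i)) → ℕ := fun x => (f (sg c x)).2.2 * D (I x) + code (I x) x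
  let A : (∀ i, Fin (m i)) → ℕ := fun x =>
    slot (m (I x)) (c (I x)) n (sg c x (I x)) (tt x)
  let ρ : (∀ i, Fin (m i)) → ℕ := fun x => if Perm.sign (sg c x) = -1 then 1 else 0
  have htt : ∀ x, tt x < m (I x) - c (I x) := by
    intro x
    have h1 := hf2 (sg c x)
    have h2 := hcode (I x) x
    calc tt x < (f (sg c x)).2.2 * D (I x) + D (I x) := Nat.add_lt_add_left h2 _
      _ = ((f (sg c x)).2.2 + 1) * D (I x) := by ring
      _ ≤ (m (I x) - c (I x)) / D (I x) * D (I x) := Nat.mul_le_mul_right _ h1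
      _ ≤ m (I x) - c (I x) := Nat.div_mul_le_self _ _
  have htt' : ∀ x, ¬ L (sg c x) → tt x < m (I x) - n * c (I x) := by
    intro x hx
    have h1 := hf3 (sg c x) hx
    have h2 := hcode (I x) x
    calc tt x < (f (sg c x)).2.2 * D (I x) + D (I x) := Nat.add_lt_add_left h2 _
      _ = ((f (sg c x)).2.2 + 1) * D (I x) := by ring
      _ ≤ (m (I x) - n * c (I x)) / D (I x) * D (I x) := Nat.mul_le_mul_right _ h1
      _ ≤ m (I x) - n * c (I x) := Nat.div_mul_le_self _ _
  have hAne : ∀ x, A x / c (I x) ≠ sg c x (I x) := fun x =>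
    slot_div_ne (hc _) (sg c x (I x)).isLt
  have hAlab : ∀ x, A x / c (I x) < n → L (sg c x) := by
    intro x hx
    by_contra h1
    have := slot_free (l := (sg c x (I x) : ℕ)) (hc (I x)) (htt' x h1)
    exact absurd hx (not_lt.mpr this)
  refine fills_of_assignment hc hm I A ρ 2 ?_ ?_ ?_ ?_
  · intro x _
    show (if Perm.sign (sg c x) = -1 then 1 else 0) < 2
    split_ifs <;> norm_num
  · intro x _
    exact slot_lt (hc _) (hm _) (by omega) (htt x)
  · intro z w hw hzk hz hcov
    have h1 : sg c z = sg c w := by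
      refine perm_eq_of_off (i := I w) fun k hk => ?_
      have h2 := sg_spec hcov k
      rw [hzk k hk, sg_spec hw k] at h2
      exact (Fin.ext h2).symm
    apply hAne w
    rw [← hz, sg_spec hcov, h1]
  · intro x y w z hx hy hw hyx hzk hz hwk hwz
    by_cases hI : I w = I x
    · left
      -- same mode
      have h1 : sg c y = sg c w := by
        refine perm_eq_of_off (i := I x) fun k hk => ?_
        have h2 := sg_spec hy k
        rw [← hzk k hk, hwk k (by rw [hI]; exact hk), sg_spec hw k] at h2
        exact (Fin.ext h2).symm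
      have h2 : sg c x (I x) = sg c w (I x) := by
        rw [← h1]
        have h3 := sg_spec hx (I x)
        rw [← hyx, sg_spec hy] at h3
        exact (Fin.ext h3).symm
      have hA : A x = A w := by
        rw [← hz, ← hwz, hI]
      have h3 : tt x = tt w := by
        have h4 : A w = slot (m (I x)) (c (I x)) n (sg c x (I x)) (tt w) := by
          show slot (m (I w)) (c (I w)) n (sg c w (I w)) (tt w) = _
          rw [hI, h2]
        have h5 := htt w
        rw [hI] at h5
        rw [h4] at hA
        exact slot_inj (hc _) (hm _) (by omega) (htt x) h5 hA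
      have hDpos : 0 < D (I x) := Finset.prod_pos fun k _ => hc k
      have h3' : (f (sg c x)).2.2 * D (I x) + code (I x) x =
          (f (sg c w)).2.2 * D (I x) + code (I x) w := by
        have : tt w = (f (sg c w)).2.2 * D (I x) + code (I x) w := by
          show (f (sg c w)).2.2 * D (I w) + code (I w) w = _
          rw [hI]
        rw [← this]; exact h3
      have hcx := hcode (I x) x
      have hcw := hcode (I x) w
      have h4 : (f (sg c x)).2.2 = (f (sg c w)).2.2 := by
        have e1 : ((f (sg c x)).2.2 * D (I x) + code (I x) x) / D (I x) = (f (sg c x)).2.2 := by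
          rw [mul_comm, Nat.mul_add_div hDpos, Nat.div_eq_of_lt hcx, add_zero]
        have e2 : ((f (sg c w)).2.2 * D (I x) + code (I x) w) / D (I x) = (f (sg c w)).2.2 := by
          rw [mul_comm, Nat.mul_add_div hDpos, Nat.div_eq_of_lt hcw, add_zero]
        rw [← e1, ← e2, h3']
      have h5 : code (I x) x = code (I x) w := by
        rw [h4] at h3'
        exact Nat.add_left_cancel h3'
      have h6 : f (sg c x) = f (sg c w) := by
        refine Sigma.ext hI.symm (heq_of_eq (Prod.ext ?_ h4))
        rw [hf1 (sg c x), hf1 (sg c w)]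
        show sg c x (I x) = sg c w (I w)
        rw [hI, h2]
      have h7 : sg c x = sg c w := hf h6
      ext k
      by_cases hk : k = I x
      · subst hk; rw [hyx]
      · have h8 : (w k : ℕ) = x k := by
          have e1 := hcodeinj (I x) x w h5 k hk
          have e2 := sg_spec hx k
          have e3 := sg_spec hw k
          rw [← h7, ← e2] at e3
          rw [← Nat.div_add_mod (w k : ℕ) (c k), ← Nat.div_add_mod (x k : ℕ) (c k), e1, e3]
        have h9 : z k = w k := hwk k (by rw [hI]; exact hk)
        rw [← hzk k hk, h9, h8]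
    · right
      have hzi : z (I x) = w (I x) := hwk _ (Ne.symm hI)
      have hzi' : z (I w) = y (I w) := hzk _ hI
      have hAx : A x / c (I x) = sg c w (I x) := by
        rw [← hz, hzi, sg_spec hw]
      have hxL : L (sg c x) := hAlab x (by rw [hAx]; exact (sg c w (I x)).isLt)
      have hAw : A w / c (I w) = sg c y (I w) := by
        rw [← hwz, hzi', sg_spec hy]
      have hwL : L (sg c w) := hAlab w (by rw [hAw]; exact (sg c y (I w)).isLt)
      rcases hL with hL | ⟨k₀, hL⟩
      swap
      · exact absurd ((hL _ hwL).trans (hL _ hxL).symm) hI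
      have hoff : ∀ k, k ≠ I x → k ≠ I w → sg c y k = sg c w k := by
        intro k hk hk'
        have h2 := sg_spec hy k
        rw [← hzk k hk, hwk k hk', sg_spec hw k] at h2
        exact (Fin.ext h2).symm
      have hne : sg c y ≠ sg c w := by
        intro h
        apply hAne x
        rw [hAx, ← h, ← sg_spec hy, hyx, sg_spec hx]
      have hs := sign_of_off_two (Ne.symm hI) hoff hne
      have hw1 : Perm.sign (sg c w) = 1 := hL _ hwL
      have hy1 : Perm.sign (sg c y) = -1 := by rw [hs, hw1]
      show (if Perm.sign (sg c x) = -1 then 1 else 0) < (if Perm.sign (sg c y) = -1 then 1 else 0)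
      rw [if_neg (by rw [hL _ hxL]; decide), if_pos hy1]
      norm_num

theorem fills_n (hn : 3 ≤ n) {c : Fin n → ℕ} (hc : ∀ i, 1 ≤ c i) (hm : ∀ i, n * c i ≤ m i)
    (hQ : (n - 1).factorial ≤ ∑ i, (m i - c i) / ∏ k ∈ univ.erase i, c k)
    (hq : (n - 1).factorial ≤ 2 * ∑ i, (m i - n * c i) / ∏ k ∈ univ.erase i, c k) :
    Fills m (fun i => m i - c i) n := by
  have hcn : ∀ i, c i ≤ n * c i := fun i => Nat.le_mul_of_pos_left _ (by omega)
  obtain ⟨f, hf, hfspec⟩ := exists_assign hn
    (fun i => (m i - c i) / ∏ k ∈ univ.erase i, c k)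
    (fun i => (m i - n * c i) / ∏ k ∈ univ.erase i, c k)
    (fun i => Nat.div_le_div_right (by have := hcn i; omega)) hQ hq
  refine fills_of_f (by omega) hc hm f hf (fun π => (hfspec π).1) (fun π => (hfspec π).2.1)
    (fun π => Perm.sign π = 1) (fun π hπ => (hfspec π).2.2 ?_) (Or.inl fun π h => h)
  rcases Int.units_eq_one_or (Perm.sign π) with h | h
  · exact absurd h hπ
  · exact h

theorem fills_n' (hn : 1 ≤ n) {c : Fin n → ℕ} (hc : ∀ i, 1 ≤ c i) (hm : ∀ i, n * c i ≤ m i)
    (k₀ : Fin n)
    (hQ : (n - 1).factorial ≤ (m k₀ - c k₀) / (∏ k ∈ univ.erase k₀, c k) +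
      ∑ i ∈ univ.erase k₀, (m i - n * c i) / ∏ k ∈ univ.erase i, c k) :
    Fills m (fun i => m i - c i) n := by
  classical
  have hcn : ∀ i, c i ≤ n * c i := fun i => Nat.le_mul_of_pos_left _ (by omega)
  have hqQ : ∀ i, (m i - n * c i) / ∏ k ∈ univ.erase i, c k ≤
      (m i - c i) / ∏ k ∈ univ.erase i, c k := fun i =>
    Nat.div_le_div_right (by have := hcn i; omega)
  obtain ⟨f, hf, hfspec⟩ := exists_assign_one hn
    (fun i => if i = k₀ then (m i - c i) / (∏ k ∈ univ.erase i, c k) else
      (m i - n * c i) / ∏ k ∈ univ.erase i, c k) (by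
        rw [← Finset.add_sum_erase univ _ (Finset.mem_univ k₀), if_pos rfl]
        refine hQ.trans (le_of_eq ?_)
        congr 1
        refine Finset.sum_congr rfl fun i hi => ?_
        rw [if_neg (Finset.ne_of_mem_erase hi)])
  refine fills_of_f hn hc hm f hf (fun π => (hfspec π).1) (fun π => ?_)
    (fun π => (f π).1 = k₀) (fun π hπ => ?_) (Or.inr ⟨k₀, fun π h => h⟩)
  · have h1 := (hfspec π).2
    split_ifs at h1
    · exact h1
    · exact lt_of_lt_of_le h1 (hqQ _)
  · have h1 := (hfspec π).2
    rwa [if_neg hπ] at h1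

end Pool.Agent.H63.SubV
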