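import Mathlib

/-!
Arrays, rank-one arrays, subspace varieties, mode-wise matrix action.
-/

namespace Pool.Agent.H63.SubV

open Finset Module

variable {n : ℕ} {m : Fin n → ℕ}

/-- The rank-one array. -/
def rankOne {R : Type*} [CommRing R] (v : ∀ i, Fin (m i) → R) : (∀ i, Fin (m i)) → R :=
  fun x => ∏ i, v i (x i)

/-- The cone over the subspace variety. -/
def SubVar (m r : Fin n → ℕ) : Set ((∀ i, Fin (m i)) → ℂ) :=
  {T | ∃ A : ∀ i, Submodule ℂ (Fin (m i) → ℂ), (∀ i, finrank ℂ (A i) = r i) ∧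
    T ∈ Submodule.span ℂ {S | ∃ v : ∀ i, Fin (m i) → ℂ, (∀ i, v i ∈ A i) ∧ S = rankOne v}}

/-- Sums of `s` elements of the cone. -/
def Sums (m r : Fin n → ℕ) (s : ℕ) : Set ((∀ i, Fin (m i)) → ℂ) :=
  {T | ∃ S : Fin s → ((∀ i, Fin (m i)) → ℂ), (∀ j, S j ∈ SubVar m r) ∧ T = ∑ j, S j}

/-- The `s`-th secant variety is the whole space. -/
def Fills (m r : Fin n → ℕ) (s : ℕ) : Prop :=
  ∀ F : MvPolynomial (∀ i, Fin (m i)) ℂ, (∀ T ∈ Sums m r s, MvPolynomial.eval T F = 0) → F = 0

/-- The Kronecker product of square matrices. -/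
def kron {R : Type*} [CommRing R] (g : ∀ i, Matrix (Fin (m i)) (Fin (m i)) R) :
    Matrix (∀ i, Fin (m i)) (∀ i, Fin (m i)) R :=
  fun x y => ∏ i, g i (x i) (y i)

section ring

variable {R : Type*} [CommRing R]

theorem kron_mul (g h : ∀ i, Matrix (Fin (m i)) (Fin (m i)) R) :
    kron g * kron h = kron (fun i => g i * h i) := by
  ext x z
  simp only [kron, Matrix.mul_apply]
  rw [Finset.prod_univ_sum, Fintype.piFinset_univ]
  refine Finset.sum_congr rfl fun y _ => ?_
  rw [Finset.prod_mul_distrib]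

theorem kron_smul_one (d : Fin n → R) :
    kron (m := m) (fun i => d i • (1 : Matrix (Fin (m i)) (Fin (m i)) R)) = (∏ i, d i) • 1 := by
  ext x y
  simp only [kron, Matrix.smul_apply, Matrix.one_apply, smul_eq_mul]
  by_cases h : x = y
  · subst h; simp
  · rw [if_neg h, mul_zero]
    obtain ⟨i, hi⟩ : ∃ i, x i ≠ y i := Function.ne_iff.mp h
    exact Finset.prod_eq_zero (Finset.mem_univ i) (by rw [if_neg hi, mul_zero])

/-- The mode-wise action of a family of matrices. -/
def act (g : ∀ i, Matrix (Fin (m i)) (Fin (m i)) R) (T : (∀ i, Fin (m i)) → R) :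
    (∀ i, Fin (m i)) → R := (kron g).mulVec T

theorem act_apply (g : ∀ i, Matrix (Fin (m i)) (Fin (m i)) R) (T : (∀ i, Fin (m i)) → R)
    (x : ∀ i, Fin (m i)) : act g T x = ∑ y, (∏ i, g i (x i) (y i)) * T y := rfl

theorem act_act (g h : ∀ i, Matrix (Fin (m i)) (Fin (m i)) R) (T : (∀ i, Fin (m i)) → R) :
    act g (act h T) = act (fun i => g i * h i) T := by
  rw [act, act, act, Matrix.mulVec_mulVec, kron_mul]

theorem act_sum (g : ∀ i, Matrix (Fin (m i)) (Fin (m i)) R) {ι : Type*} (s : Finset ι)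
    (T : ι → (∀ i, Fin (m i)) → R) : act g (∑ j ∈ s, T j) = ∑ j ∈ s, act g (T j) := by
  rw [act, Matrix.mulVec_sum]; rfl

theorem act_smul (g : ∀ i, Matrix (Fin (m i)) (Fin (m i)) R) (a : R)
    (T : (∀ i, Fin (m i)) → R) : act g (a • T) = a • act g T := by
  rw [act, Matrix.mulVec_smul]; rfl

theorem act_smul_one (d : Fin n → R) (T : (∀ i, Fin (m i)) → R) :
    act (fun i => d i • (1 : Matrix (Fin (m i)) (Fin (m i)) R)) T = (∏ i, d i) • T := by
  rw [act, kron_smul_one, Matrix.smul_mulVec, Matrix.one_mulVec]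

theorem act_one (T : (∀ i, Fin (m i)) → R) :
    act (fun i => (1 : Matrix (Fin (m i)) (Fin (m i)) R)) T = T := by
  have := act_smul_one (m := m) (fun _ => (1 : R)) T
  simpa using this

theorem act_rankOne (g : ∀ i, Matrix (Fin (m i)) (Fin (m i)) R) (v : ∀ i, Fin (m i) → R) :
    act g (rankOne v) = rankOne (fun i => (g i).mulVec (v i)) := by
  ext x
  simp only [act_apply, rankOne, Matrix.mulVec, dotProduct]
  rw [Finset.prod_univ_sum, Fintype.piFinset_univ]
  refine Finset.sum_congr rfl fun y _ => ?_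
  rw [Finset.prod_mul_distrib]

end ring

/-- `x` covers the labels `0, …, s - 1`. -/
def Cov (c : Fin n → ℕ) (s : ℕ) (x : ∀ i, Fin (m i)) : Prop :=
  ∀ j < s, ∃ i, (x i : ℕ) / c i = j

theorem card_block {m c j : ℕ} (hc : 1 ≤ c) (hj : (j + 1) * c ≤ m) :
    (univ.filter (fun a : Fin m => (a : ℕ) / c = j)).card = c := by
  have : (univ.filter (fun a : Fin m => (a : ℕ) / c = j)).map Fin.valEmbedding =
      Finset.Ico (j * c) ((j + 1) * c) := by
    ext a
    simp only [mem_map, mem_filter, mem_univ, true_and, Fin.valEmbedding_apply, mem_Ico]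
    constructor
    · rintro ⟨b, hb, rfl⟩
      rw [Nat.div_eq_iff (by omega)] at hb
      constructor
      · rw [mul_comm]; rw [mul_comm] at hb; omega
      · have h1 : (j + 1) * c = j * c + c := by ring
        have h2 : c * j = j * c := mul_comm _ _
        omega
    · rintro ⟨h1, h2⟩
      refine ⟨⟨a, by omega⟩, ?_, rfl⟩
      show a / c = j
      exact Nat.div_eq_of_lt_le h1 h2
  rw [← Finset.card_map Fin.valEmbedding, this, Nat.card_Ico]
  have : (j + 1) * c = j * c + c := by ring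
  omega

/-- The coordinate subspace of vectors vanishing on block `j`. -/
def coordSub (m c j : ℕ) : Submodule ℂ (Fin m → ℂ) where
  carrier := {v | ∀ a : Fin m, (a : ℕ) / c = j → v a = 0}
  add_mem' := by
    intro u v hu hv a ha
    simp [hu a ha, hv a ha]
  zero_mem' := by intro a _; rfl
  smul_mem' := by
    intro t v hv a ha
    simp [hv a ha]

theorem mem_coordSub {m c j : ℕ} {v : Fin m → ℂ} :
    v ∈ coordSub m c j ↔ ∀ a : Fin m, (a : ℕ) / c = j → v a = 0 := Iff.rfl

theorem finrank_coordSub {m c j : ℕ} (hc : 1 ≤ c) (hj : (j + 1) * c ≤ m) :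
    finrank ℂ (coordSub m c j) = m - c := by
  set f : (Fin m → ℂ) →ₗ[ℂ] ({a : Fin m // (a : ℕ) / c = j} → ℂ) :=
    LinearMap.funLeft ℂ ℂ Subtype.val
  have hker : LinearMap.ker f = coordSub m c j := by
    ext v
    rw [LinearMap.mem_ker, mem_coordSub]
    constructor
    · intro h a ha
      exact congrFun h ⟨a, ha⟩
    · intro h
      ext ⟨a, ha⟩
      exact h a ha
  have hsurj : Function.Surjective f :=
    LinearMap.funLeft_surjective_of_injective ℂ ℂ _ Subtype.val_injective
  have h1 := LinearMap.finrank_range_add_finrank_ker f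
  rw [LinearMap.range_eq_top.mpr hsurj, finrank_top, hker] at h1
  rw [Module.finrank_pi, Module.finrank_pi, Fintype.card_subtype, card_block hc hj,
    Fintype.card_fin] at h1
  omega

theorem mem_subVar_of_zero {c : Fin n → ℕ} (hc : ∀ i, 1 ≤ c i) {j : ℕ}
    (hj : ∀ i, (j + 1) * c i ≤ m i) {T : (∀ i, Fin (m i)) → ℂ}
    (hT : ∀ x, (∃ i, (x i : ℕ) / c i = j) → T x = 0) :
    T ∈ SubVar m (fun i => m i - c i) := by
  refine ⟨fun i => coordSub (m i) (c i) j, fun i => finrank_coordSub (hc i) (hj i), ?_⟩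
  have hrep : T = ∑ x, T x • rankOne (m := m) (fun i => Pi.single (x i) (1 : ℂ)) := by
    ext y
    rw [Finset.sum_apply, Finset.sum_eq_single y]
    · simp [rankOne]
    · intro x _ hxy
      obtain ⟨i, hi⟩ : ∃ i, y i ≠ x i := Function.ne_iff.mp hxy.symm
      rw [Pi.smul_apply, rankOne, Finset.prod_eq_zero (Finset.mem_univ i), smul_zero]
      rw [Pi.single_apply, if_neg hi]
    · intro h; exact absurd (Finset.mem_univ y) h
  rw [hrep]
  refine Submodule.sum_mem _ fun x _ => ?_
  by_cases hx : T x = 0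
  · rw [hx, zero_smul]; exact Submodule.zero_mem _
  · refine Submodule.smul_mem _ _ (Submodule.subset_span ⟨_, fun i => ?_, rfl⟩)
    rw [mem_coordSub]
    intro a ha
    rw [Pi.single_apply, if_neg]
    rintro rfl
    exact hx (hT x ⟨i, ha⟩)

theorem mem_sums_of_cov {c : Fin n → ℕ} (hc : ∀ i, 1 ≤ c i) {s : ℕ}
    (hs : ∀ i, s * c i ≤ m i) {T : (∀ i, Fin (m i)) → ℂ}
    (hT : ∀ x, Cov c s x → T x = 0) : T ∈ Sums m (fun i => m i - c i) s := by
  classical
  let S : Fin s → (∀ i, Fin (m i)) → ℂ := fun j x =>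
    if h : ∃ k : Fin s, ∀ i, (x i : ℕ) / c i ≠ k then (if h.choose = j then T x else 0) else 0
  refine ⟨S, fun j => ?_, ?_⟩
  · have hj : ∀ i, ((j : ℕ) + 1) * c i ≤ m i := fun i =>
      le_trans (Nat.mul_le_mul_right _ j.isLt) (hs i)
    refine mem_subVar_of_zero hc hj fun x hx => ?_
    show (if h : ∃ k : Fin s, ∀ i, (x i : ℕ) / c i ≠ k then
      (if h.choose = j then T x else 0) else 0) = 0
    split_ifs with h1 h2
    · exfalso
      obtain ⟨i, hi⟩ := hx
      have := h1.choose_spec i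
      rw [h2] at this
      exact this hi
    · rfl
    · rfl
  · ext x
    rw [Finset.sum_apply]
    show T x = ∑ j : Fin s, (if h : ∃ k : Fin s, ∀ i, (x i : ℕ) / c i ≠ k then
      (if h.choose = j then T x else 0) else 0)
    by_cases h : ∃ k : Fin s, ∀ i, (x i : ℕ) / c i ≠ k
    · simp only [dif_pos h]
      rw [Finset.sum_ite_eq]
      simp
    · simp only [dif_neg h, Finset.sum_const_zero]
      apply hT
      intro j hj
      push Not at h
      exact h ⟨j, hj⟩

theorem not_cov_of_lt {c : Fin n → ℕ} {s : ℕ} (hs : n < s) (x : ∀ i, Fin (m i)) :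
    ¬ Cov c s x := by
  classical
  intro h
  have h1 : Finset.range s ⊆ univ.image (fun i => (x i : ℕ) / c i) := by
    intro j hj
    obtain ⟨i, hi⟩ := h j (Finset.mem_range.mp hj)
    exact Finset.mem_image.mpr ⟨i, Finset.mem_univ _, hi⟩
  have h2 := (Finset.card_le_card h1).trans Finset.card_image_le
  rw [Finset.card_range, Finset.card_univ, Fintype.card_fin] at h2
  omega

/-- Every array is a sum of `n + 1` members. -/
theorem mem_sums_succ {c : Fin n → ℕ} (hc : ∀ i, 1 ≤ c i)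
    (hs : ∀ i, (n + 1) * c i ≤ m i) (T : (∀ i, Fin (m i)) → ℂ) :
    T ∈ Sums m (fun i => m i - c i) (n + 1) :=
  mem_sums_of_cov hc hs fun x hx => absurd hx (not_cov_of_lt (Nat.lt_succ_self n) x)

theorem zero_mem_subVar {c : Fin n → ℕ} (hc : ∀ i, 1 ≤ c i) (hm : ∀ i, c i ≤ m i) :
    (0 : (∀ i, Fin (m i)) → ℂ) ∈ SubVar m (fun i => m i - c i) :=
  mem_subVar_of_zero (j := 0) hc (fun i => by simpa using hm i) (fun _ _ => rfl)

theorem sums_mono {c : Fin n → ℕ} (hc : ∀ i, 1 ≤ c i) (hm : ∀ i, c i ≤ m i) {s t : ℕ}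
    (hst : s ≤ t) : Sums m (fun i => m i - c i) s ⊆ Sums m (fun i => m i - c i) t := by
  induction hst with
  | refl => exact subset_rfl
  | step _ ih =>
    intro T hT
    obtain ⟨S, hS, rfl⟩ := ih hT
    refine ⟨Fin.snoc (α := fun _ => (∀ i, Fin (m i)) → ℂ) S 0, fun j => ?_, ?_⟩
    · refine Fin.lastCases ?_ (fun j => ?_) j
      · rw [Fin.snoc_last]; exact zero_mem_subVar hc hm
      · rw [Fin.snoc_castSucc]; exact hS j
    · rw [Fin.sum_univ_castSucc]
      simp

theorem fills_mono {c : Fin n → ℕ} (hc : ∀ i, 1 ≤ c i) (hm : ∀ i, c i ≤ m i) {s t : ℕ}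
    (hst : s ≤ t) (h : Fills m (fun i => m i - c i) s) : Fills m (fun i => m i - c i) t :=
  fun F hF => h F fun T hT => hF T (sums_mono hc hm hst hT)

/-- The action of invertible matrices preserves the subspace variety. -/
theorem act_mem_subVar {r : Fin n → ℕ} {g h : ∀ i, Matrix (Fin (m i)) (Fin (m i)) ℂ}
    (hg : ∀ i, h i * g i = 1) {T : (∀ i, Fin (m i)) → ℂ} (hT : T ∈ SubVar m r) :
    act g T ∈ SubVar m r := by
  obtain ⟨A, hA, hTA⟩ := hT
  refine ⟨fun i => (A i).map (Matrix.mulVecLin (g i)), fun i => ?_, ?_⟩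
  · rw [← hA i]
    have hinj : Function.Injective (Matrix.mulVecLin (g i)) := by
      intro u v huv
      have h1 := congrArg (fun w => (h i).mulVec w) huv
      simpa [Matrix.mulVec_mulVec, hg i] using h1
    exact (LinearEquiv.finrank_eq (Submodule.equivMapOfInjective _ hinj (A i))).symm
  · induction hTA using Submodule.span_induction with
    | mem S hS =>
      obtain ⟨v, hv, rfl⟩ := hS
      rw [act_rankOne]
      exact Submodule.subset_span ⟨_, fun i => Submodule.mem_map_of_mem (hv i), rfl⟩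
    | zero => rw [act, Matrix.mulVec_zero]; exact Submodule.zero_mem _
    | add S T _ _ hS hT =>
      rw [act, Matrix.mulVec_add]; exact Submodule.add_mem _ hS hT
    | smul a S _ hS =>
      rw [act_smul]; exact Submodule.smul_mem _ _ hS

theorem act_mem_sums {r : Fin n → ℕ} {g h : ∀ i, Matrix (Fin (m i)) (Fin (m i)) ℂ}
    (hg : ∀ i, h i * g i = 1) {s : ℕ} {T : (∀ i, Fin (m i)) → ℂ} (hT : T ∈ Sums m r s) :
    act g T ∈ Sums m r s := by
  obtain ⟨S, hS, rfl⟩ := hT
  exact ⟨fun j => act g (S j), fun j => act_mem_subVar hg (hS j), act_sum g _ S⟩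

end Pool.Agent.H63.SubV
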