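import Pool.Agent.H63.SubV.Assign

/-!
Five modes, codimension one: the assignment through affine permutations of `Fin 5`.
-/

namespace Pool.Agent.H63.SubV

open Finset Equiv

/-- Affine permutations of `Fin 5`. -/
def Aff (σ : Perm (Fin 5)) : Prop := ∀ i, σ (i + 1) = σ i + (σ 1 - σ 0)

instance (σ : Perm (Fin 5)) : Decidable (Aff σ) := by unfold Aff; infer_instance

set_option maxRecDepth 100000 in
theorem aff_or : ∀ σ : Perm (Fin 5), Aff σ ∨ ∃ r, Aff (σ * swap r (r - 1)) := by decide

theorem iter_fin5 : ∀ i j : Fin 5, ∃ k : Fin 5, (fun a : Fin 5 => a + 1)^[(k : ℕ)] i = j := by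
  decide

theorem aff_ext {σ τ : Perm (Fin 5)} (hσ : Aff σ) (hτ : Aff τ) {i : Fin 5}
    (h0 : σ i = τ i) (hs : σ 1 - σ 0 = τ 1 - τ 0) : σ = τ := by
  have h : ∀ k : ℕ, σ ((fun a : Fin 5 => a + 1)^[k] i) = τ ((fun a : Fin 5 => a + 1)^[k] i) := by
    intro k
    induction k with
    | zero => simpa using h0
    | succ k ih =>
      rw [Function.iterate_succ_apply']
      show σ ((fun a : Fin 5 => a + 1)^[k] i + 1) = τ ((fun a : Fin 5 => a + 1)^[k] i + 1)
      rw [hσ, hτ, ih, hs]
  ext j : 1
  obtain ⟨k, rfl⟩ := iter_fin5 i j
  exact h _

theorem aff_slope {σ : Perm (Fin 5)} (hσ : Aff σ) (i : Fin 5) :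
    σ 1 - σ 0 = σ i - σ (i - 1) := by
  have h := hσ (i - 1)
  rw [sub_add_cancel] at h
  rw [h, add_sub_cancel_left]

theorem aff_ext' {σ τ : Perm (Fin 5)} (hσ : Aff σ) (hτ : Aff τ) {i : Fin 5}
    (h0 : σ i = τ i) (h1 : σ (i - 1) = τ (i - 1)) : σ = τ :=
  aff_ext hσ hτ h0 (by rw [aff_slope hσ i, aff_slope hτ i, h0, h1])

theorem pred_ne (r : Fin 5) : r - 1 ≠ r := by
  revert r; decide

variable {m : Fin 5 → ℕ}

theorem fills_five (hm : ∀ i, 6 ≤ m i) : Fills m (fun i => m i - 1) 5 := by
  classical
  set c : Fin 5 → ℕ := fun _ => 1 with hc
  let r : Perm (Fin 5) → Fin 5 := fun σ =>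
    if h : ∃ r, Aff (σ * swap r (r - 1)) then h.choose else 0
  have hr : ∀ σ, ¬ Aff σ → Aff (σ * swap (r σ) (r σ - 1)) := by
    intro σ hσ
    have h : ∃ r, Aff (σ * swap r (r - 1)) := (aff_or σ).resolve_left hσ
    show Aff (σ * swap (if h : ∃ r, Aff (σ * swap r (r - 1)) then h.choose else 0)
      ((if h : ∃ r, Aff (σ * swap r (r - 1)) then h.choose else 0) - 1))
    rw [dif_pos h]
    exact h.choose_spec
  let I : (∀ i, Fin (m i)) → Fin 5 := fun x =>
    if Aff (sg c x) then sg c x 1 - sg c x 0 else r (sg c x)
  let A : (∀ i, Fin (m i)) → ℕ := fun x =>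
    if Aff (sg c x) then 5 else (sg c x (r (sg c x) - 1) : ℕ)
  let ρ : (∀ i, Fin (m i)) → ℕ := fun x => if Aff (sg c x) then 1 else 0
  have hlab : ∀ x : ∀ i, Fin (m i), Cov c 5 x → ∀ i, (x i : ℕ) = sg c x i := by
    intro x hx i
    have := sg_spec hx i
    simpa [hc] using this
  have hlt : ∀ x : ∀ i, Fin (m i), Cov c 5 x → ∀ i, (x i : ℕ) < 5 := by
    intro x hx i
    rw [hlab x hx i]; exact (sg c x i).isLt
  have hinj : ∀ x : ∀ i, Fin (m i), Cov c 5 x → ∀ i j, (x i : ℕ) = x j → i = j := by
    intro x hx i j h
    rw [hlab x hx i, hlab x hx j] at h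
    exact (sg c x).injective (Fin.ext h)
  have hIa : ∀ x : ∀ i, Fin (m i), Aff (sg c x) → I x = sg c x 1 - sg c x 0 := fun x h => if_pos h
  have hIn : ∀ x : ∀ i, Fin (m i), ¬ Aff (sg c x) → I x = r (sg c x) := fun x h => if_neg h
  have hAa : ∀ x : ∀ i, Fin (m i), Aff (sg c x) → A x = 5 := fun x h => if_pos h
  have hAn : ∀ x : ∀ i, Fin (m i), ¬ Aff (sg c x) → A x = (sg c x (I x - 1) : ℕ) := by
    intro x h
    rw [hIn x h]
    exact if_neg h
  have hfin : Fills m (fun i => m i - c i) 5 := by
    refine fills_of_assignment (c := c) (fun _ => le_rfl) (fun i => ?_) I A ρ 2 ?_ ?_ ?_ ?_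
    · have := hm i
      simp only [hc]; omega
    · intro x _
      show (if Aff (sg c x) then 1 else 0) < 2
      split_ifs <;> norm_num
    · intro x _
      by_cases h : Aff (sg c x)
      · rw [hAa x h]; have := hm (I x); omega
      · rw [hAn x h]
        have h1 := (sg c x (I x - 1)).isLt
        have := hm (I x)
        omega
    · intro z w hw hzk hz hcov
      by_cases h : Aff (sg c w)
      · rw [hAa w h] at hz
        have := hlt z hcov (I w)
        omega
      · rw [hAn w h, ← hlab w hw] at hz
        have h1 := hzk (I w - 1) (pred_ne _)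
        rw [← h1] at hz
        exact pred_ne _ (hinj z hcov _ _ hz.symm)
    · intro x y w z hx hy hw hyx hzk hz hwk hwz
      by_cases hxa : Aff (sg c x)
      · left
        rw [hAa x hxa] at hz
        have hwa : Aff (sg c w) := by
          by_contra hwn
          by_cases hI : I x = I w
          · rw [hI] at hz
            rw [hAn w hwn] at hwz
            have := (sg c w (I w - 1)).isLt
            omega
          · rw [hwk _ hI] at hz
            have := hlt w hw (I x)
            omega
        rw [hAa w hwa] at hwz
        have hI : I w = I x := by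
          by_contra hI
          rw [hzk _ hI] at hwz
          have := hlt y hy (I w)
          omega
        have h1 : sg c y = sg c w := by
          refine perm_eq_of_off (i := I x) fun k hk => ?_
          apply Fin.ext
          rw [← hlab y hy, ← hlab w hw, ← hzk k hk, hwk k (by rw [hI]; exact hk)]
        have h2 : sg c w = sg c x := by
          refine aff_ext hwa hxa (i := I x) ?_ ?_
          · apply Fin.ext
            rw [← h1, ← hlab y hy, ← hlab x hx, hyx]
          · rw [← hIa w hwa, ← hIa x hxa, hI]
        ext k
        rw [hlab y hy, hlab x hx, h1, h2]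
      · by_cases hya : Aff (sg c y)
        · right
          show (if Aff (sg c x) then 1 else 0) < (if Aff (sg c y) then 1 else 0)
          rw [if_neg hxa, if_pos hya]; norm_num
        · left
          rw [hAn x hxa] at hz
          have hwa : ¬ Aff (sg c w) := by
            intro hwa
            rw [hAa w hwa] at hwz
            by_cases hI : I w = I x
            · rw [hI] at hwz
              have := (sg c x (I x - 1)).isLt
              omega
            · rw [hzk _ hI] at hwz
              have := hlt y hy (I w)
              omega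
          rw [hAn w hwa] at hwz
          have hax := hr (sg c x) hxa
          have haw := hr (sg c w) hwa
          rw [← hIn x hxa] at hax
          rw [← hIn w hwa] at haw
          -- the doubled positions
          have hzt : (z (I w) : ℕ) = z (I w - 1) := by
            rw [hwz, hwk _ (pred_ne _), hlab w hw]
          have hrt : I x = I w ∨ I x = I w - 1 := by
            by_contra hno
            push Not at hno
            rw [hzk _ (Ne.symm hno.1), hzk _ (Ne.symm hno.2)] at hzt
            exact pred_ne _ (hinj y hy _ _ hzt).symm
          rcases hrt with hrt | hrt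
          · -- same mode
            have hr1 : sg c w (I x - 1) = sg c x (I x - 1) := by
              apply Fin.ext
              rw [← hz, hrt, hwz]
            -- off the two positions `y` and `w` agree
            have hoff : ∀ k, k ≠ I x → sg c y k = sg c w k := by
              intro k hk
              apply Fin.ext
              rw [← hlab y hy, ← hlab w hw, ← hzk k hk, hwk k (by rw [← hrt]; exact hk)]
            have h1 : sg c y = sg c w := perm_eq_of_off hoff
            have h2 : sg c w (I x) = sg c x (I x) := by
              apply Fin.ext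
              rw [← h1, ← hlab y hy, ← hlab x hx, hyx]
            have h3 : sg c w * swap (I w) (I w - 1) = sg c x * swap (I x) (I x - 1) := by
              refine aff_ext' haw hax (i := I x) ?_ ?_
              · rw [← hrt, Perm.mul_apply, Perm.mul_apply, swap_apply_left, hr1]
              · rw [← hrt, Perm.mul_apply, Perm.mul_apply, swap_apply_right, h2]
            rw [← hrt] at h3
            have h4 := mul_right_cancel h3
            ext k
            rw [hlab y hy, hlab x hx, h1, h4]
          · -- the other position: `y` is affine
            exfalso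
            apply hya
            have h5 : sg c y = sg c w * swap (I w) (I w - 1) := by
              refine perm_eq_of_off (i := I w - 1) fun k hk => ?_
              rw [Perm.mul_apply]
              apply Fin.ext
              rw [← hlab y hy, ← hzk k (by rw [hrt]; exact hk)]
              by_cases hkw : k = I w
              · subst hkw
                rw [swap_apply_left, hwz]
              · rw [swap_apply_of_ne_of_ne hkw hk, hwk k hkw, hlab w hw]
            rw [h5]; exact haw
  exact hfin

end Pool.Agent.H63.SubV
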