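import Pool.Agent.H63.SubV.Count

/-!
The `(n-1)`-st secant variety never fills the space.
-/

namespace Pool.Agent.H63.SubV

open Finset Equiv

variable {n : ℕ} {m : Fin n → ℕ}

theorem arith4 {f : ℝ} (hf : 2 ≤ f) {a X : Fin n → ℝ} (ha : ∀ k, 0 < a k) (hX : ∀ k, 0 < X k)
    (hXX : ∀ k l, k ≠ l → f ^ 2 * (a k * a l) ≤ X k * X l)
    (hH : ∀ k, X k ≤ ∑ i, a i - a k) (hsum : ∑ k, X k < 2 * ∑ k, a k) : False := by
  classical
  by_cases hA : ∀ k, f * a k ≤ X k
  · have h1 : ∑ k, f * a k ≤ ∑ k, X k := Finset.sum_le_sum fun k _ => hA k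
    rw [← Finset.mul_sum] at h1
    have h2 : 0 ≤ ∑ k, a k := Finset.sum_nonneg fun k _ => (ha k).le
    nlinarith
  · push Not at hA
    obtain ⟨l, hl⟩ := hA
    set y := ∑ i, a i - a l with hy
    have hyl := hH l
    have e1 : ∑ i, a i = a l + ∑ i ∈ univ.erase l, a i :=
      (Finset.add_sum_erase univ a (Finset.mem_univ l)).symm
    have e2 : ∑ i, X i = X l + ∑ i ∈ univ.erase l, X i :=
      (Finset.add_sum_erase univ X (Finset.mem_univ l)).symm
    have e3 : ∑ i ∈ univ.erase l, a i = y := by rw [hy, e1]; ring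
    have h1 : f ^ 2 * (a l * y) ≤ X l * ∑ i ∈ univ.erase l, X i := by
      rw [← e3, Finset.mul_sum, Finset.mul_sum, Finset.mul_sum]
      exact Finset.sum_le_sum fun k hk => hXX l k (Ne.symm (Finset.ne_of_mem_erase hk))
    have hal := ha l
    have hXl := hX l
    have h2 : X l * ∑ k, X k < X l * (2 * (y + a l)) := by
      refine mul_lt_mul_of_pos_left ?_ hXl
      have : ∑ k, a k = y + a l := by rw [hy]; ring
      rw [← this]; exact hsum
    rw [e2] at h2
    have h3 : 0 ≤ f ^ 2 * a l - 2 * X l := by nlinarith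
    have h4 : 0 ≤ (y - X l) * (f ^ 2 * a l - 2 * X l) := mul_nonneg (by linarith) h3
    have h5 : 0 ≤ X l * ((f ^ 2 - 2) * a l - X l) := by
      refine mul_nonneg hXl.le ?_
      nlinarith
    nlinarith

theorem arith3 {c₀ c₁ c₂ m₀ m₁ m₂ : ℝ} (h0 : 1 ≤ c₀) (h1 : 1 ≤ c₁) (h2 : 1 ≤ c₂)
    (hm0 : 3 * c₀ ≤ m₀) (hm1 : 3 * c₁ ≤ m₁)
    (hlt : c₀ * c₁ < c₂)
    (H1 : c₁ * c₂ * m₀ + c₀ * c₂ * m₁ + c₀ * c₁ * m₂ - 3 * (c₀ * c₁ * c₂) ≤
      c₀ * m₀ + c₁ * m₁ + c₂ * m₂ - (c₀ ^ 2 + c₁ ^ 2 + c₂ ^ 2))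
    (H2 : c₀ * c₁ * m₂ ≤ c₀ * m₀ + c₁ * m₁ - (c₀ ^ 2 + c₁ ^ 2)) : False := by
  have e1 : 0 ≤ (c₂ - c₀ * c₁) * (c₀ * m₀ + c₁ * m₁ - (c₀ ^ 2 + c₁ ^ 2) - c₀ * c₁ * m₂) :=
    mul_nonneg (by linarith) (by linarith)
  have e2 : 0 ≤ c₀ * c₁ * (c₀ * m₀ + c₁ * m₁ + c₂ * m₂ - (c₀ ^ 2 + c₁ ^ 2 + c₂ ^ 2) -
      (c₁ * c₂ * m₀ + c₀ * c₂ * m₁ + c₀ * c₁ * m₂ - 3 * (c₀ * c₁ * c₂))) :=
    mul_nonneg (by positivity) (by linarith)
  have e3 : c₂ * (c₀ * (c₁ ^ 2 - 1) * m₀ + c₁ * (c₀ ^ 2 - 1) * m₁ + c₀ ^ 2 + c₁ ^ 2 +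
      c₀ * c₁ * c₂) ≤ c₂ * (3 * (c₀ ^ 2 * c₁ ^ 2)) := by nlinarith
  have e4 := le_of_mul_le_mul_left e3 (by linarith)
  have e5 : 0 ≤ c₀ * (c₁ ^ 2 - 1) * (m₀ - 3 * c₀) :=
    mul_nonneg (mul_nonneg (by linarith) (by nlinarith)) (by linarith)
  have e6 : 0 ≤ c₁ * (c₀ ^ 2 - 1) * (m₁ - 3 * c₁) :=
    mul_nonneg (mul_nonneg (by linarith) (by nlinarith)) (by linarith)
  have e7 : c₀ * c₁ * (c₀ * c₁) < c₀ * c₁ * c₂ :=
    mul_lt_mul_of_pos_left hlt (by positivity)
  have e8 : 0 ≤ c₀ ^ 2 * (c₁ ^ 2 - 1) := mul_nonneg (by positivity) (by nlinarith)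
  have e9 : 0 ≤ c₁ ^ 2 * (c₀ ^ 2 - 1) := mul_nonneg (by positivity) (by nlinarith)
  nlinarith


theorem one_of_sq {x y : ℝ} (hx : 1 ≤ x) (hy : 1 ≤ y) (h : y * (x ^ 2 - 1) = 0) : x = 1 := by
  rcases mul_eq_zero.mp h with h | h
  · linarith
  · have h2 : (x - 1) * (x + 1) = 0 := by linear_combination h
    rcases mul_eq_zero.mp h2 with h | h <;> linarith

theorem eq_of_mul_zero {x y z : ℝ} (hz : 1 ≤ z) (h : (x - y) * z = 0) : x = y := by
  rcases mul_eq_zero.mp h with h | h <;> linarith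

theorem arith3_balanced {c₀ c₁ c₂ m₀ m₁ m₂ : ℝ}
    (e0 : 0 ≤ (c₁ * c₂ - c₀) * (m₀ - 3 * c₀)) (e1 : 0 ≤ (c₀ * c₂ - c₁) * (m₁ - 3 * c₁))
    (e2 : 0 ≤ (c₀ * c₁ - c₂) * (m₂ - 3 * c₂))
    (H1 : c₁ * c₂ * m₀ + c₀ * c₂ * m₁ + c₀ * c₁ * m₂ - 3 * (c₀ * c₁ * c₂) ≤
      c₀ * m₀ + c₁ * m₁ + c₂ * m₂ - (c₀ ^ 2 + c₁ ^ 2 + c₂ ^ 2)) :
    (c₁ * c₂ - c₀) * c₀ + (c₀ * c₂ - c₁) * c₁ + (c₀ * c₁ - c₂) * c₂ ≤ 0 := by
  nlinarith

open Classical in
theorem count_free_mode {c : Fin n → ℕ} (hc : ∀ i, 1 ≤ c i)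
    (hm : ∀ i, (n - 1) * c i ≤ m i) (hcm : ∀ i, c i ≤ m i)
    (hF : Fills m (fun i => m i - c i) (n - 1)) (k : Fin n) :
    (n - 1).factorial * (∏ i ∈ univ.erase k, c i) * m k ≤
      (n - 1) * ∑ i ∈ univ.erase k, c i * (m i - c i) := by
  by_contra hlt
  push Not at hlt
  let lab : ∀ i, Fin (m i) → ℕ := fun i a => if i = k then n - 1 else (a : ℕ) / c i
  let b : Fin n → ℕ := fun i => if i = k then 0 else c i
  have hsum : ∑ i, b i * (m i - b i) = ∑ i ∈ univ.erase k, c i * (m i - c i) := by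
    rw [← Finset.add_sum_erase univ _ (Finset.mem_univ k)]
    have h1 : b k = 0 := if_pos rfl
    rw [h1, zero_mul, zero_add]
    refine Finset.sum_congr rfl fun i hi => ?_
    have h2 : b i = c i := if_neg (Finset.ne_of_mem_erase hi)
    rw [h2]
  refine not_fills_lab hcm lab b (fun i => ?_) (fun i j hj => ?_) ?_ hF
  · show (if i = k then 0 else c i) ≤ c i
    split_ifs <;> omega
  · by_cases hik : i = k
    · have h2 : b i = 0 := if_pos hik
      rw [h2, Finset.card_eq_zero, Finset.filter_eq_empty_iff]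
      intro a _
      show ¬ ((if i = k then n - 1 else (a : ℕ) / c i) = j)
      rw [if_pos hik]
      omega
    · have h2 : b i = c i := if_neg hik
      rw [h2]
      have h3 : (univ.filter (fun a : Fin (m i) => lab i a = j)) =
          univ.filter (fun a : Fin (m i) => (a : ℕ) / c i = j) := by
        refine Finset.filter_congr fun a _ => ?_
        show (if i = k then n - 1 else (a : ℕ) / c i) = j ↔ _
        rw [if_neg hik]
      rw [h3]
      exact card_block (hc i) (le_trans (Nat.mul_le_mul_right _ hj) (hm i))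
  · rw [hsum]
    refine lt_of_lt_of_le hlt ?_
    have h1 := count_OC hm k univ
    rw [Finset.card_univ, Fintype.card_fin] at h1
    refine h1.trans (Finset.card_le_card fun x hx => ?_)
    simp only [mem_filter, mem_univ, and_true, true_and] at hx ⊢
    intro j hj
    obtain ⟨i, hik, hi⟩ := hx j hj
    refine ⟨i, ?_⟩
    show (if i = k then n - 1 else (x i : ℕ) / c i) = j
    rw [if_neg hik]
    exact hi

/-- The `(n-1)`-st secant variety does not fill the space. -/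
theorem not_fills_pred (hn : 3 ≤ n) {c : Fin n → ℕ} (hc : ∀ i, 1 ≤ c i)
    (hm : ∀ i, n * c i ≤ m i) (hne : n = 3 → ∃ i, c i ≠ 1) :
    ¬ Fills m (fun i => m i - c i) (n - 1) := by
  classical
  intro hF
  have hm' : ∀ i, (n - 1) * c i ≤ m i := fun i =>
    le_trans (Nat.mul_le_mul_right _ (by omega)) (hm i)
  have hcm : ∀ i, c i ≤ m i := fun i =>
    le_trans (Nat.le_mul_of_pos_left _ (by omega)) (hm i)
  have hN : (univ.filter (fun x : ∀ i, Fin (m i) => Cov c (n - 1) x)).card ≤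
      (n - 1) * ∑ i, c i * (m i - c i) := by
    by_contra h
    push Not at h
    exact not_fills hc hcm hm' h hF
  have hcp := count_pred hc hm'
  have hk := count_free_mode hc hm' hcm hF
  -- pass to real numbers
  obtain ⟨f, hf⟩ : ∃ f : ℕ, f = (n - 2).factorial := ⟨_, rfl⟩
  have hfac : (n - 1).factorial = (n - 1) * f := by
    rw [hf]
    obtain ⟨k, rfl⟩ : ∃ k, n = k + 2 := ⟨n - 2, by omega⟩
    exact Nat.factorial_succ k
  have hfpos : 1 ≤ f := by rw [hf]; exact Nat.factorial_pos _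
  let D : Fin n → ℕ := fun k => ∏ i ∈ univ.erase k, c i
  have hDpos : ∀ k, 1 ≤ D k := fun k =>
    Nat.succ_le_of_lt (Finset.prod_pos (s := univ.erase k) fun i _ => hc i)
  have R1 : ∑ k, (f : ℝ) * D k * (2 * m k - (n - 1) * c k) ≤
      2 * ∑ i, (c i : ℝ) * (m i - c i) := by
    have h1 : ∑ k, ((n - 1).factorial * D k * m k +
      (n - 1).factorial * D k * (m k - (n - 1) * c k)) ≤
      2 * ((n - 1) * ∑ i, c i * (m i - c i)) := le_trans hcp (Nat.mul_le_mul_left _ hN)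
    have h2 : (∑ k, (((n - 1).factorial : ℝ) * D k * m k +
      ((n - 1).factorial : ℝ) * D k * (m k - (n - 1) * c k))) ≤
      2 * ((n - 1) * ∑ i, (c i : ℝ) * (m i - c i)) := by
      have h3 : ((∑ k, ((n - 1).factorial * D k * m k +
        (n - 1).factorial * D k * (m k - (n - 1) * c k)) : ℕ) : ℝ) ≤
        ((2 * ((n - 1) * ∑ i, c i * (m i - c i)) : ℕ) : ℝ) := Nat.cast_le.mpr h1
      push_cast at h3
      rw [Nat.cast_sub (by omega : 1 ≤ n)] at h3
      have h4 : ∀ k, ((m k - (n - 1) * c k : ℕ) : ℝ) = m k - (n - 1) * c k := by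
        intro k
        rw [Nat.cast_sub (hm' k)]
        push_cast
        rw [Nat.cast_sub (by omega : 1 ≤ n)]
        norm_num
      have h5 : ∀ k, ((m k - c k : ℕ) : ℝ) = m k - c k := fun k => Nat.cast_sub (hcm k)
      simp only [h4, h5] at h3
      simpa using h3
    have hn1 : (0 : ℝ) < n - 1 := by
      have : (3 : ℝ) ≤ n := by exact_mod_cast hn
      linarith
    have h6 : ((n - 1).factorial : ℝ) = (n - 1) * f := by
      rw [hfac]; push_cast
      rw [Nat.cast_sub (by omega : 1 ≤ n)]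
      norm_num
    have h7 : (n - 1 : ℝ) * (∑ k, (f : ℝ) * D k * (2 * m k - (n - 1) * c k)) ≤
        (n - 1 : ℝ) * (2 * ∑ i, (c i : ℝ) * (m i - c i)) := by
      refine le_trans (le_of_eq ?_) (le_trans h2 (le_of_eq (by ring)))
      rw [Finset.mul_sum]
      refine Finset.sum_congr rfl fun k _ => ?_
      rw [h6]; ring
    exact le_of_mul_le_mul_left h7 hn1
  have R2 : ∀ k, (f : ℝ) * D k * m k ≤ ∑ i ∈ univ.erase k, (c i : ℝ) * (m i - c i) := by
    intro k
    have h1 := hk k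
    rw [hfac] at h1
    have h2 : f * D k * m k ≤ ∑ i ∈ univ.erase k, c i * (m i - c i) := by
      have h2 : (n - 1) * (f * D k * m k) ≤
          (n - 1) * ∑ i ∈ univ.erase k, c i * (m i - c i) := by
        calc (n - 1) * (f * D k * m k) = (n - 1) * f * D k * m k := by ring
          _ ≤ _ := h1
      exact Nat.le_of_mul_le_mul_left h2 (by omega)
    have h3 : ((f * D k * m k : ℕ) : ℝ) ≤
        ((∑ i ∈ univ.erase k, c i * (m i - c i) : ℕ) : ℝ) := Nat.cast_le.mpr h2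
    push_cast at h3
    have h5 : ∀ k, ((m k - c k : ℕ) : ℝ) = m k - c k := fun k => Nat.cast_sub (hcm k)
    simp only [h5] at h3
    exact h3
  have hC : ∀ k, (1 : ℝ) ≤ c k := fun k => by exact_mod_cast hc k
  have hM : ∀ k, (n : ℝ) * c k ≤ m k := fun k => by exact_mod_cast hm k
  have hn3 : (3 : ℝ) ≤ n := by exact_mod_cast hn
  rcases Nat.eq_or_lt_of_le hn with h3 | h4
  · -- the case `n = 3`
    subst h3
    have hf1 : f = 1 := by rw [hf]; rfl
    subst hf1
    have hD0 : D 0 = c 1 * c 2 := by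
      show ∏ i ∈ (univ : Finset (Fin 3)).erase 0, c i = _
      have : (univ : Finset (Fin 3)).erase 0 = {1, 2} := by decide
      rw [this, Finset.prod_pair (by decide)]
    have hD1 : D 1 = c 0 * c 2 := by
      show ∏ i ∈ (univ : Finset (Fin 3)).erase 1, c i = _
      have : (univ : Finset (Fin 3)).erase 1 = {0, 2} := by decide
      rw [this, Finset.prod_pair (by decide)]
    have hD2 : D 2 = c 0 * c 1 := by
      show ∏ i ∈ (univ : Finset (Fin 3)).erase 2, c i = _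
      have : (univ : Finset (Fin 3)).erase 2 = {0, 1} := by decide
      rw [this, Finset.prod_pair (by decide)]
    have S0 : (1 : ℝ) * ((c 1 : ℝ) * c 2) * m 0 ≤
        (c 1 : ℝ) * (m 1 - c 1) + (c 2 : ℝ) * (m 2 - c 2) := by
      have := R2 0
      have he : (univ : Finset (Fin 3)).erase 0 = {1, 2} := by decide
      rw [he, Finset.sum_pair (by decide), hD0] at this
      push_cast at this
      exact this
    have S1 : (1 : ℝ) * ((c 0 : ℝ) * c 2) * m 1 ≤
        (c 0 : ℝ) * (m 0 - c 0) + (c 2 : ℝ) * (m 2 - c 2) := by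
      have := R2 1
      have he : (univ : Finset (Fin 3)).erase 1 = {0, 2} := by decide
      rw [he, Finset.sum_pair (by decide), hD1] at this
      push_cast at this
      exact this
    have S2 : (1 : ℝ) * ((c 0 : ℝ) * c 1) * m 2 ≤
        (c 0 : ℝ) * (m 0 - c 0) + (c 1 : ℝ) * (m 1 - c 1) := by
      have := R2 2
      have he : (univ : Finset (Fin 3)).erase 2 = {0, 1} := by decide
      rw [he, Finset.sum_pair (by decide), hD2] at this
      push_cast at this
      exact this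
    rw [Fin.sum_univ_three, Fin.sum_univ_three, hD0, hD1, hD2] at R1
    push_cast at R1
    have hC0 := hC 0
    have hC1 := hC 1
    have hC2 := hC 2
    have hM0 := hM 0
    have hM1 := hM 1
    have hM2 := hM 2
    push_cast at hM0 hM1 hM2
    by_cases hA2 : (c 0 : ℝ) * c 1 < c 2
    · exact arith3 (m₂ := (m 2 : ℝ)) hC0 hC1 hC2 hM0 hM1 hA2 (by linarith) (by linarith)
    by_cases hA1 : (c 0 : ℝ) * c 2 < c 1
    · exact arith3 (m₂ := (m 1 : ℝ)) hC0 hC2 hC1 hM0 hM2 hA1 (by linarith) (by linarith)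
    by_cases hA0 : (c 1 : ℝ) * c 2 < c 0
    · exact arith3 (m₂ := (m 0 : ℝ)) hC1 hC2 hC0 hM1 hM2 hA0 (by linarith) (by linarith)
    push Not at hA0 hA1 hA2
    have e0 : 0 ≤ ((c 1 : ℝ) * c 2 - c 0) * (m 0 - 3 * c 0) :=
      mul_nonneg (by linarith) (by linarith)
    have e1 : 0 ≤ ((c 0 : ℝ) * c 2 - c 1) * (m 1 - 3 * c 1) :=
      mul_nonneg (by linarith) (by linarith)
    have e2 : 0 ≤ ((c 0 : ℝ) * c 1 - c 2) * (m 2 - 3 * c 2) :=
      mul_nonneg (by linarith) (by linarith)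
    have g0 : 0 ≤ ((c 1 : ℝ) * c 2 - c 0) * c 0 := mul_nonneg (by linarith) (by linarith)
    have g1 : 0 ≤ ((c 0 : ℝ) * c 2 - c 1) * c 1 := mul_nonneg (by linarith) (by linarith)
    have g2 : 0 ≤ ((c 0 : ℝ) * c 1 - c 2) * c 2 := mul_nonneg (by linarith) (by linarith)
    have gs := arith3_balanced e0 e1 e2 (by linarith)
    have l0 : (c 1 : ℝ) * c 2 = c 0 := eq_of_mul_zero hC0 (by linarith)
    have l1 : (c 0 : ℝ) * c 2 = c 1 := eq_of_mul_zero hC1 (by linarith)
    have l2 : (c 0 : ℝ) * c 1 = c 2 := eq_of_mul_zero hC2 (by linarith)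
    have p0 : (c 0 : ℝ) = 1 := by
      refine one_of_sq hC0 hC1 ?_
      have h := l1
      rw [← l2] at h
      linear_combination h
    have p1 : (c 1 : ℝ) = 1 := by
      refine one_of_sq hC1 hC0 ?_
      have h := l0
      rw [← l2] at h
      linear_combination h
    have p2 : (c 2 : ℝ) = 1 := by rw [← l2, p0, p1]; norm_num
    obtain ⟨i, hi⟩ := hne rfl
    apply hi
    fin_cases i
    · exact_mod_cast p0
    · exact_mod_cast p1
    · exact_mod_cast p2
  · -- the case `n ≥ 4`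
    have hf2 : (2 : ℝ) ≤ f := by
      have h1 : (2 : ℕ).factorial ≤ (n - 2).factorial := Nat.factorial_le (by omega)
      rw [← hf] at h1
      have h2 : (2 : ℕ) ≤ f := by simpa [Nat.factorial] using h1
      exact_mod_cast h2
    have hDC : ∀ k l, k ≠ l → (c l : ℝ) ≤ D k := by
      intro k l hkl
      have h1 : c l ∣ D k :=
        Finset.dvd_prod_of_mem c (Finset.mem_erase.mpr ⟨Ne.symm hkl, Finset.mem_univ l⟩)
      exact_mod_cast Nat.le_of_dvd (hDpos k) h1
    have hDr : ∀ k, (1 : ℝ) ≤ D k := fun k => by exact_mod_cast hDpos k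
    refine arith4 hf2 (a := fun k => (c k : ℝ) * m k) (X := fun k => (f : ℝ) * D k * m k)
      (fun k => ?_) (fun k => ?_) (fun k l hkl => ?_) (fun k => ?_) ?_
    · have h1 := hC k
      have h2 := hM k
      have : (0 : ℝ) < m k := by nlinarith
      positivity
    · have h1 := hC k
      have h2 := hM k
      have h3 := hDr k
      have : (0 : ℝ) < m k := by nlinarith
      positivity
    · have h1 : (c k : ℝ) * c l ≤ D k * D l := by
        have e1 := hDC k l hkl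
        have e2 := hDC l k (Ne.symm hkl)
        have e3 := hC k
        have e4 := hC l
        nlinarith
      have h2 : (0 : ℝ) ≤ f ^ 2 * (m k * m l) := by positivity
      calc (f : ℝ) ^ 2 * ((c k : ℝ) * (m k : ℝ) * ((c l : ℝ) * (m l : ℝ))) =
          (f : ℝ) ^ 2 * ((m k : ℝ) * (m l : ℝ)) * ((c k : ℝ) * (c l : ℝ)) := by ring
        _ ≤ (f : ℝ) ^ 2 * ((m k : ℝ) * (m l : ℝ)) * ((D k : ℝ) * (D l : ℝ)) :=
          mul_le_mul_of_nonneg_left h1 h2
        _ = (f : ℝ) * (D k : ℝ) * (m k : ℝ) * ((f : ℝ) * (D l : ℝ) * (m l : ℝ)) := by ring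
    · have h1 := R2 k
      have e1 : ∑ i, (c i : ℝ) * m i = (c k : ℝ) * m k + ∑ i ∈ univ.erase k, (c i : ℝ) * m i :=
        (Finset.add_sum_erase univ _ (Finset.mem_univ k)).symm
      show (f : ℝ) * D k * m k ≤ ∑ i, (c i : ℝ) * m i - (c k : ℝ) * m k
      rw [e1]
      refine h1.trans ?_
      rw [add_sub_cancel_left]
      refine Finset.sum_le_sum fun i _ => ?_
      have := hC i
      nlinarith
    · show ∑ k, (f : ℝ) * D k * m k < 2 * ∑ k, (c k : ℝ) * m k
      have h1 : ∑ k, (f : ℝ) * D k * m k ≤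
          ∑ k, (f : ℝ) * D k * (2 * m k - (n - 1) * c k) := by
        refine Finset.sum_le_sum fun k _ => ?_
        refine mul_le_mul_of_nonneg_left ?_ (by positivity)
        have e1 := hC k
        have e2 := hM k
        nlinarith
      have h2 : ∑ i, (c i : ℝ) * (m i - c i) < ∑ k, (c k : ℝ) * m k := by
        refine Finset.sum_lt_sum_of_nonempty ⟨⟨0, by omega⟩, Finset.mem_univ _⟩ fun i _ => ?_
        have := hC i
        nlinarith
      linarith

end Pool.Agent.H63.SubV
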