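import Pool.Agent.H63.SubV.Assign
import Pool.Agent.H63.SubV.Pred

/-!
Three modes, codimension one.
-/

namespace Pool.Agent.H63.SubV

open Finset

section general

variable {n : ℕ} {m : Fin n → ℕ}

open Classical in
/-- Peeling criterion. -/
theorem fills_of_Z {c : Fin n → ℕ} (hc : ∀ i, 1 ≤ c i) {s : ℕ} (hs : ∀ i, s * c i ≤ m i)
    (Z : (∀ i, Fin (m i)) → Prop) (ρ : (∀ i, Fin (m i)) → ℕ) (N : ℕ)
    (hρ : ∀ x, Cov c s x → ρ x < N)
    (h1 : ∀ x, Cov c s x → ¬ Z x)
    (h2 : ∀ x, Cov c s x → ∃ (i : Fin n) (a : Fin (m i)), Z (Function.update x i a) ∧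
      ∀ y, Cov c s y → y i = x i → Z (Function.update y i a) → y = x ∨ ρ x < ρ y) :
    Fills m (fun i => m i - c i) s := by
  let T0 : (∀ i, Fin (m i)) → ℂ := fun z => if Z z then 1 else 0
  have h0 : ∀ x, Cov c s x → T0 x = 0 := fun x hx => if_neg (h1 x hx)
  refine fills_of_span hc hs T0 h0 ?_
  set V := Submodule.span ℂ
      ({R | ∃ (i : Fin n) (b a : Fin (m i)), R = fun y : ∀ i, Fin (m i) =>
          if y i = b then T0 (Function.update y i a) else 0} ∪
        {R : (∀ i, Fin (m i)) → ℂ | ∃ y, ¬ Cov c s y ∧ R = Pi.single y 1}) with hV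
  have hmain : ∀ k : ℕ, ∀ x, Cov c s x → N ≤ ρ x + k →
      (Pi.single x 1 : (∀ i, Fin (m i)) → ℂ) ∈ V := by
    intro k
    induction k with
    | zero =>
      intro x hx hN
      have := hρ x hx
      omega
    | succ k ih =>
      intro x hx hN
      obtain ⟨i, a, hZ, hy⟩ := h2 x hx
      let L : (∀ i, Fin (m i)) → ℂ := fun y => if y i = x i then
        T0 (Function.update y i a) else 0
      have hL : L ∈ V := Submodule.subset_span (Or.inl ⟨i, x i, a, rfl⟩)
      have hLx : L x = 1 := by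
        show (if x i = x i then T0 (Function.update x i a) else 0) = 1
        rw [if_pos rfl]
        exact if_pos hZ
      have hLy : ∀ y, y ≠ x → L y • (Pi.single y 1 : (∀ i, Fin (m i)) → ℂ) ∈ V := by
        intro y hyx
        by_cases hyc : Cov c s y
        · by_cases hLy0 : L y = 0
          · rw [hLy0, zero_smul]; exact Submodule.zero_mem _
          · have h3 : y i = x i := by
              by_contra h4
              exact hLy0 (if_neg h4)
            have h4 : L y = T0 (Function.update y i a) := if_pos h3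
            have h5 : Z (Function.update y i a) := by
              by_contra h6
              exact hLy0 (by rw [h4]; exact if_neg h6)
            rcases hy y hyc h3 h5 with h7 | h7
            · exact absurd h7 hyx
            · exact Submodule.smul_mem _ _ (ih y hyc (by omega))
        · exact Submodule.smul_mem _ _ (Submodule.subset_span (Or.inr ⟨y, hyc, rfl⟩))
      have hdecomp : (Pi.single x 1 : (∀ i, Fin (m i)) → ℂ) =
          L - ∑ y ∈ univ.erase x, L y • (Pi.single y 1 : (∀ i, Fin (m i)) → ℂ) := by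
        have hLsum : L = ∑ y, L y • (Pi.single y 1 : (∀ i, Fin (m i)) → ℂ) := by
          ext y
          rw [Finset.sum_apply, Finset.sum_eq_single y]
          · simp
          · intro x _ hxy
            rw [Pi.smul_apply, Pi.single_apply, if_neg (Ne.symm hxy), smul_zero]
          · intro h; exact absurd (Finset.mem_univ y) h
        rw [← Finset.add_sum_erase univ _ (Finset.mem_univ x), hLx, one_smul] at hLsum
        rw [eq_sub_iff_add_eq]
        exact hLsum.symm
      rw [hdecomp]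
      refine Submodule.sub_mem _ hL (Submodule.sum_mem _ fun y hy => ?_)
      exact hLy y (Finset.ne_of_mem_erase hy)
  intro x hx
  exact hmain N x hx (by omega)

end general

/-- The triple covers the labels `0` and `1`. -/
def C3 (x y z : ℕ) : Prop := (x = 0 ∨ y = 0 ∨ z = 0) ∧ (x = 1 ∨ y = 1 ∨ z = 1)

/-- Peeling data for three modes. -/
def P3 (a b c : ℕ) (Z : ℕ → ℕ → ℕ → Prop) (ρ : ℕ → ℕ → ℕ → ℕ) : Prop :=
  (∀ x y z, x < a → y < b → z < c → C3 x y z → ¬ Z x y z ∧ ρ x y z < 4) ∧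
  ∀ x y z, x < a → y < b → z < c → C3 x y z →
    (∃ t < a, Z t y z ∧ ∀ y' z', y' < b → z' < c → C3 x y' z' → Z t y' z' →
      (y' = y ∧ z' = z) ∨ ρ x y z < ρ x y' z') ∨
    (∃ t < b, Z x t z ∧ ∀ x' z', x' < a → z' < c → C3 x' y z' → Z x' t z' →
      (x' = x ∧ z' = z) ∨ ρ x y z < ρ x' y z') ∨
    (∃ t < c, Z x y t ∧ ∀ x' y', x' < a → y' < b → C3 x' y' z → Z x' y' t →
      (x' = x ∧ y' = y) ∨ ρ x y z < ρ x' y' z)

/-- Existence of peeling data. -/
def G3 (a b c : ℕ) : Prop := ∃ Z ρ, P3 a b c Z ρ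

theorem C3.swap01 {x y z : ℕ} (h : C3 x y z) : C3 y x z := by
  unfold C3 at *; tauto

theorem C3.swap12 {x y z : ℕ} (h : C3 x y z) : C3 x z y := by
  unfold C3 at *; tauto

theorem G3.swap01 {a b c : ℕ} (h : G3 a b c) : G3 b a c := by
  obtain ⟨Z, ρ, h1, h2⟩ := h
  refine ⟨fun x y z => Z y x z, fun x y z => ρ y x z, ?_, ?_⟩
  · intro x y z hx hy hz hC
    exact h1 y x z hy hx hz hC.swap01
  · intro x y z hx hy hz hC
    rcases h2 y x z hy hx hz hC.swap01 with ⟨t, ht, hZ, hh⟩ | ⟨t, ht, hZ, hh⟩ | ⟨t, ht, hZ, hh⟩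
    · refine Or.inr (Or.inl ⟨t, ht, hZ, fun x' z' hx' hz' hC' hZ' => ?_⟩)
      exact hh x' z' hx' hz' hC'.swap01 hZ'
    · refine Or.inl ⟨t, ht, hZ, fun y' z' hy' hz' hC' hZ' => ?_⟩
      exact hh y' z' hy' hz' hC'.swap01 hZ'
    · refine Or.inr (Or.inr ⟨t, ht, hZ, fun x' y' hx' hy' hC' hZ' => ?_⟩)
      have := hh y' x' hy' hx' hC'.swap01 hZ'
      tauto

theorem G3.swap12 {a b c : ℕ} (h : G3 a b c) : G3 a c b := by
  obtain ⟨Z, ρ, h1, h2⟩ := h
  refine ⟨fun x y z => Z x z y, fun x y z => ρ x z y, ?_, ?_⟩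
  · intro x y z hx hy hz hC
    exact h1 x z y hx hz hy hC.swap12
  · intro x y z hx hy hz hC
    rcases h2 x z y hx hz hy hC.swap12 with ⟨t, ht, hZ, hh⟩ | ⟨t, ht, hZ, hh⟩ | ⟨t, ht, hZ, hh⟩
    · refine Or.inl ⟨t, ht, hZ, fun y' z' hy' hz' hC' hZ' => ?_⟩
      have := hh z' y' hz' hy' hC'.swap12 hZ'
      tauto
    · refine Or.inr (Or.inr ⟨t, ht, hZ, fun x' y' hx' hy' hC' hZ' => ?_⟩)
      exact hh x' y' hx' hy' hC'.swap12 hZ'
    · refine Or.inr (Or.inl ⟨t, ht, hZ, fun x' z' hx' hz' hC' hZ' => ?_⟩)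
      exact hh x' z' hx' hz' hC'.swap12 hZ'

theorem fills_of_G3 {m : Fin 3 → ℕ} (hm : ∀ i, 2 ≤ m i) (h : G3 (m 0) (m 1) (m 2)) :
    Fills m (fun i => m i - 1) 2 := by
  obtain ⟨Z, ρ, h1, h2⟩ := h
  set c : Fin 3 → ℕ := fun _ => 1 with hc
  have hcov : ∀ x : ∀ i, Fin (m i), Cov c 2 x ↔ C3 (x 0) (x 1) (x 2) := by
    intro x
    unfold Cov C3
    constructor
    · intro h
      obtain ⟨i, hi⟩ := h 0 (by norm_num)
      obtain ⟨j, hj⟩ := h 1 (by norm_num)
      simp only [hc, Nat.div_one] at hi hj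
      constructor
      · fin_cases i <;> simp_all
      · fin_cases j <;> simp_all
    · rintro ⟨h0, h1⟩ j hj
      simp only [hc, Nat.div_one]
      interval_cases j
      · rcases h0 with h | h | h
        · exact ⟨0, h⟩
        · exact ⟨1, h⟩
        · exact ⟨2, h⟩
      · rcases h1 with h | h | h
        · exact ⟨0, h⟩
        · exact ⟨1, h⟩
        · exact ⟨2, h⟩
  have hext : ∀ x y : ∀ i, Fin (m i), (y 0 : ℕ) = x 0 → (y 1 : ℕ) = x 1 → (y 2 : ℕ) = x 2 →
      y = x := by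
    intro x y e0 e1 e2
    ext i
    fin_cases i
    · exact e0
    · exact e1
    · exact e2
  have hfin : Fills m (fun i => m i - c i) 2 := by
    refine fills_of_Z (c := c) (fun _ => le_rfl) (fun i => by have := hm i; simp only [hc]; omega)
      (fun x => Z (x 0) (x 1) (x 2)) (fun x => ρ (x 0) (x 1) (x 2)) 4 ?_ ?_ ?_
    · intro x hx
      exact (h1 _ _ _ (x 0).isLt (x 1).isLt (x 2).isLt ((hcov x).mp hx)).2
    · intro x hx
      exact (h1 _ _ _ (x 0).isLt (x 1).isLt (x 2).isLt ((hcov x).mp hx)).1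
    · intro x hx
      rcases h2 _ _ _ (x 0).isLt (x 1).isLt (x 2).isLt ((hcov x).mp hx) with
        ⟨t, ht, hZ, hh⟩ | ⟨t, ht, hZ, hh⟩ | ⟨t, ht, hZ, hh⟩
      · refine ⟨0, ⟨t, ht⟩, ?_, fun y hy hyx hZy => ?_⟩
        · simpa using hZ
        · have hZy' : Z t (y 1) (y 2) := by simpa using hZy
          have hy' := (hcov y).mp hy
          rw [hyx] at hy'
          rcases hh _ _ (y 1).isLt (y 2).isLt hy' hZy' with ⟨e1, e2⟩ | h3
          · exact Or.inl (hext x y (by rw [hyx]) e1 e2)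
          · right
            rw [← hyx] at h3
            rw [hyx] at h3 ⊢
            exact h3
      · refine ⟨1, ⟨t, ht⟩, ?_, fun y hy hyx hZy => ?_⟩
        · simpa using hZ
        · have hZy' : Z (y 0) t (y 2) := by simpa using hZy
          have hy' := (hcov y).mp hy
          rw [hyx] at hy'
          rcases hh _ _ (y 0).isLt (y 2).isLt hy' hZy' with ⟨e1, e2⟩ | h3
          · exact Or.inl (hext x y e1 (by rw [hyx]) e2)
          · right
            rw [hyx]
            exact h3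
      · refine ⟨2, ⟨t, ht⟩, ?_, fun y hy hyx hZy => ?_⟩
        · simpa using hZ
        · have hZy' : Z (y 0) (y 1) t := by simpa using hZy
          have hy' := (hcov y).mp hy
          rw [hyx] at hy'
          rcases hh _ _ (y 0).isLt (y 1).isLt hy' hZy' with ⟨e1, e2⟩ | h3
          · exact Or.inl (hext x y e1 e2 (by rw [hyx]))
          · right
            rw [hyx]
            exact h3
  exact hfin

/-- Matched free coordinates, offsets `u`, `v`, `w`. -/
def Mt (u v w α β γ x y z : ℕ) : Prop :=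
  (z < 2 ∧ u ≤ x ∧ x < u + α ∧ y + u = x + v) ∨
  (y < 2 ∧ u + α ≤ x ∧ x < u + α + β ∧ z + u + α = x + w) ∨
  (x < 2 ∧ v + α ≤ y ∧ y < v + α + γ ∧ z + v + α = y + w + β)

theorem G3_even (α β γ : ℕ) : G3 (α + β + 2) (α + γ + 2) (β + γ + 2) := by
  refine ⟨fun x y z => (x = 0 ∧ y = 0 ∧ z = 0) ∨ (x = 1 ∧ y = 1 ∧ z = 1) ∨
    Mt 2 2 2 α β γ x y z, fun _ _ _ => 0, ?_, ?_⟩
  · intro x y z hx hy hz hC
    refine ⟨?_, by norm_num⟩
    unfold C3 at hC
    unfold Mt
    omega
  · intro x y z hx hy hz hC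
    unfold Mt
    simp only [C3] at hC ⊢
    by_cases hx2 : 2 ≤ x
    · by_cases hxa : x < 2 + α
      · refine Or.inr (Or.inl ⟨x, by omega, by omega, fun _ _ _ _ _ _ => by omega⟩)
      · refine Or.inr (Or.inr ⟨x - α, by omega, by omega, fun _ _ _ _ _ _ => by omega⟩)
    by_cases hy2 : 2 ≤ y
    · by_cases hya : y < 2 + α
      · refine Or.inl ⟨y, by omega, by omega, fun _ _ _ _ _ _ => by omega⟩
      · refine Or.inr (Or.inr ⟨y - α + β, by omega, by omega, fun _ _ _ _ _ _ => by omega⟩)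
    by_cases hz2 : 2 ≤ z
    · by_cases hzb : z < 2 + β
      · refine Or.inl ⟨z + α, by omega, by omega, fun _ _ _ _ _ _ => by omega⟩
      · refine Or.inr (Or.inl ⟨z - β + α, by omega, by omega, fun _ _ _ _ _ _ => by omega⟩)
    -- all labelled
    by_cases hxy : x = y
    · refine Or.inr (Or.inr ⟨x, by omega, by omega, fun _ _ _ _ _ _ => by omega⟩)
    by_cases hxz : x = z
    · refine Or.inr (Or.inl ⟨x, by omega, by omega, fun _ _ _ _ _ _ => by omega⟩)
    · refine Or.inl ⟨y, by omega, by omega, fun _ _ _ _ _ _ => by omega⟩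

instance (x y z : ℕ) : Decidable (C3 x y z) := by unfold C3; infer_instance

/-- The finite part of the support: the two constant triples and the gadget. -/
def Zs (x y z : ℕ) : Prop := (x = 0 ∧ y = 0 ∧ z = 0) ∨ (x = 1 ∧ y = 1 ∧ z = 1) ∨
  (x = 2 ∧ y < 2 ∧ z = 2) ∨ (x = 0 ∧ y = 2 ∧ z = 2) ∨ (x = 1 ∧ y = 3 ∧ z = 2) ∨
  (x = 2 ∧ y = 2 ∧ z = 1) ∨ (x = 2 ∧ y = 3 ∧ z = 0) ∨ (x = 3 ∧ y = 3 ∧ z = 1) ∨
  (x = 3 ∧ y = 2 ∧ z = 0)

instance (x y z : ℕ) : Decidable (Zs x y z) := by unfold Zs; infer_instance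

/-- The levels. -/
def rk (x y z : ℕ) : ℕ :=
  if x = 2 then 3 else if (x = 1 ∧ y = 3 ∧ z = 0) ∨ (x = 0 ∧ y = 2 ∧ z = 1) then 2
    else if z = 2 then 1 else 0

set_option synthInstance.maxSize 100000 in
set_option maxRecDepth 100000 in
theorem small : ∀ x < 4, ∀ y < 4, ∀ z < 3, C3 x y z →
    (∃ t < 4, Zs t y z ∧ ∀ p < 4, ∀ q < 4, C3 x p q → Zs t p q →
      (p = y ∧ q = z) ∨ rk x y z < rk x p q) ∨
    (∃ t < 4, Zs x t z ∧ ∀ p < 4, ∀ q < 4, C3 p y q → Zs p t q →
      (p = x ∧ q = z) ∨ rk x y z < rk p y q) ∨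
    (∃ t < 3, Zs x y t ∧ ∀ p < 4, ∀ q < 4, C3 p q z → Zs p q t →
      (p = x ∧ q = y) ∨ rk x y z < rk p q z) := by decide

theorem Zs_lt {x y z : ℕ} (h : Zs x y z) : x < 4 ∧ y < 4 ∧ z < 4 := by
  rcases h with h | h | h | h | h | h | h | h | h <;> omega

theorem Zs_not_cov {x y z : ℕ} (h : Zs x y z) : ¬ C3 x y z := by
  rintro ⟨h0, h1⟩
  rcases h with h | h | h | h | h | h | h | h | h <;> omega

theorem Mt_not_cov {u v w α β γ x y z : ℕ} (hu : 2 ≤ u) (hv : 2 ≤ v) (hw : 2 ≤ w)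
    (h : Mt u v w α β γ x y z) : ¬ C3 x y z := by
  rintro ⟨h0, h1⟩
  rcases h with h | h | h <;> omega

theorem Mt_x {α β γ x t p q : ℕ} (ht : t < 4) (hC : C3 x p q) (h : Mt 4 4 3 α β γ t p q) :
    False := by
  obtain ⟨h0, h1⟩ := hC
  rcases h with h | h | h <;> omega

theorem Mt_y {α β γ y t p q : ℕ} (ht : t < 4) (hC : C3 p y q) (h : Mt 4 4 3 α β γ p t q) :
    False := by
  obtain ⟨h0, h1⟩ := hC
  rcases h with h | h | h <;> omega

theorem Mt_z {α β γ z t p q : ℕ} (ht : t < 3) (hC : C3 p q z) (h : Mt 4 4 3 α β γ p q t) :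
    False := by
  obtain ⟨h0, h1⟩ := hC
  rcases h with h | h | h <;> omega

theorem G3_odd (α β γ : ℕ) : G3 (α + β + 4) (α + γ + 4) (β + γ + 3) := by
  refine ⟨fun x y z => Zs x y z ∨ Mt 4 4 3 α β γ x y z, rk, ?_, ?_⟩
  · intro x y z hx hy hz hC
    refine ⟨?_, ?_⟩
    · rintro (h | h)
      · exact Zs_not_cov h hC
      · exact Mt_not_cov (by norm_num) (by norm_num) (by norm_num) h hC
    · unfold rk
      split_ifs <;> norm_num
  · intro x y z hx hy hz hC
    obtain ⟨hC0, hC1⟩ := id hC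
    by_cases hx4 : 4 ≤ x
    · by_cases hxa : x < 4 + α
      · refine Or.inr (Or.inl ⟨x, by omega, Or.inr (Or.inl (by omega)), ?_⟩)
        rintro x' z' - - ⟨hD0, hD1⟩ (h | h)
        · have := Zs_lt h; omega
        · rcases h with h | h | h <;> omega
      · refine Or.inr (Or.inr ⟨x - α - 1, by omega, Or.inr (Or.inr (Or.inl (by omega))), ?_⟩)
        rintro x' z' - - ⟨hD0, hD1⟩ (h | h)
        · exfalso
          rcases h with h | h | h | h | h | h | h | h | h <;> omega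
        · rcases h with h | h | h <;> omega
    by_cases hy4 : 4 ≤ y
    · by_cases hya : y < 4 + α
      · refine Or.inl ⟨y, by omega, Or.inr (Or.inl (by omega)), ?_⟩
        rintro x' z' - - ⟨hD0, hD1⟩ (h | h)
        · have := Zs_lt h; omega
        · rcases h with h | h | h <;> omega
      · refine Or.inr (Or.inr ⟨y - α + β - 1, by omega, Or.inr (Or.inr (Or.inr (by omega))), ?_⟩)
        rintro x' z' - - ⟨hD0, hD1⟩ (h | h)
        · exfalso
          rcases h with h | h | h | h | h | h | h | h | h <;> omega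
        · rcases h with h | h | h <;> omega
    by_cases hz3 : 3 ≤ z
    · by_cases hzb : z < 3 + β
      · refine Or.inl ⟨z + α + 1, by omega, Or.inr (Or.inr (Or.inl (by omega))), ?_⟩
        rintro x' z' - - ⟨hD0, hD1⟩ (h | h)
        · have := Zs_lt h; omega
        · rcases h with h | h | h <;> omega
      · refine Or.inr (Or.inl ⟨z - β + α + 1, by omega, Or.inr (Or.inr (Or.inr (by omega))), ?_⟩)
        rintro x' z' - - ⟨hD0, hD1⟩ (h | h)
        · have := Zs_lt h; omega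
        · rcases h with h | h | h <;> omega
    -- now `x, y ≤ 3` and `z ≤ 2`
    rcases small x (by omega) y (by omega) z (by omega) hC with
      ⟨t, ht, hZ, hh⟩ | ⟨t, ht, hZ, hh⟩ | ⟨t, ht, hZ, hh⟩
    · refine Or.inl ⟨t, by omega, Or.inl hZ, ?_⟩
      rintro p q - - hD (h | h)
      · have h5 := Zs_lt h
        exact hh p h5.2.1 q h5.2.2 hD h
      · exact (Mt_x ht hD h).elim
    · refine Or.inr (Or.inl ⟨t, by omega, Or.inl hZ, ?_⟩)
      rintro p q - - hD (h | h)
      · have h5 := Zs_lt h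
        exact hh p h5.1 q h5.2.2 hD h
      · exact (Mt_y ht hD h).elim
    · refine Or.inr (Or.inr ⟨t, by omega, Or.inl hZ, ?_⟩)
      rintro p q - - hD (h | h)
      · have h5 := Zs_lt h
        exact hh p h5.1 q h5.2.1 hD h
      · exact (Mt_z ht hD h).elim

end Pool.Agent.H63.SubV
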