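import Pool.Agent.H63.SubV.General
import Pool.Agent.H63.SubV.Five
import Pool.Agent.H63.SubV.Three

/-!
Codimension one in every mode: the exact value of the generic rank.
-/

namespace Pool.Agent.H63.SubV

open Finset

theorem one_fills_two {m : Fin 3 → ℕ} (hm : ∀ i, 4 ≤ m i)
    (ht : ∀ i, 2 * m i + 2 ≤ ∑ k, m k) : Fills m (fun i => m i - 1) 2 := by
  refine fills_of_G3 (fun i => by have := hm i; omega) ?_
  have h0 := hm 0
  have h1 := hm 1
  have h2 := hm 2
  have t0 := ht 0
  have t1 := ht 1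
  have t2 := ht 2
  rw [Fin.sum_univ_three] at t0 t1 t2
  generalize m 0 = a at *
  generalize m 1 = b at *
  generalize m 2 = c at *
  rcases Nat.even_or_odd (a + b + c) with ⟨k, hk⟩ | ⟨k, hk⟩
  · obtain ⟨α, hα⟩ : ∃ α, a + b = c + 2 + 2 * α := ⟨k - c - 1, by omega⟩
    obtain ⟨β, hβ⟩ : ∃ β, a + c = b + 2 + 2 * β := ⟨k - b - 1, by omega⟩
    obtain ⟨γ, hγ⟩ : ∃ γ, b + c = a + 2 + 2 * γ := ⟨k - a - 1, by omega⟩
    have e0 : a = α + β + 2 := by omega
    have e1 : b = α + γ + 2 := by omega
    have e2 : c = β + γ + 2 := by omega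
    rw [e0, e1, e2]
    exact G3_even α β γ
  · -- odd sum: the smallest mode plays the special role
    have key : ∀ a b c : ℕ, 4 ≤ a → 4 ≤ b → 4 ≤ c → c ≤ a → c ≤ b → a + b + c = 2 * k + 1 →
        2 * a + 2 ≤ a + b + c → 2 * b + 2 ≤ a + b + c → G3 a b c := by
      intro a b c h0 h1 h2 hca hcb hk t0 t1
      obtain ⟨α, hα⟩ : ∃ α, a + b = c + 5 + 2 * α := ⟨k - c - 2, by omega⟩
      obtain ⟨β, hβ⟩ : ∃ β, a + c = b + 3 + 2 * β := ⟨k - b - 1, by omega⟩
      obtain ⟨γ, hγ⟩ : ∃ γ, b + c = a + 3 + 2 * γ := ⟨k - a - 1, by omega⟩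
      have e0 : a = α + β + 4 := by omega
      have e1 : b = α + γ + 4 := by omega
      have e2 : c = β + γ + 3 := by omega
      rw [e0, e1, e2]
      exact G3_odd α β γ
    by_cases hc : c ≤ a ∧ c ≤ b
    · exact key a b c h0 h1 h2 hc.1 hc.2 hk t0 t1
    by_cases hb : b ≤ a ∧ b ≤ c
    · exact (key a c b h0 h2 h1 hb.1 hb.2 (by omega) (by omega) (by omega)).swap12
    · have ha : a ≤ b ∧ a ≤ c := by omega
      exact ((key b c a h1 h2 h0 ha.1 ha.2 (by omega) (by omega) (by omega)).swap12).swap01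

open Classical in
theorem one_not_fills_one {m : Fin 3 → ℕ} (hm : ∀ i, 4 ≤ m i)
    (ht : ∀ i, 2 * m i + 2 ≤ ∑ k, m k) : ¬ Fills m (fun i => m i - 1) 1 := by
  refine not_fills (c := fun _ => 1) (fun _ => le_rfl) (fun i => by have := hm i; omega)
    (fun i => by have := hm i; omega) ?_
  have hsub : (Fintype.piFinset fun i : Fin 3 =>
      univ.filter (fun a : Fin (m i) => i = 0 → (a : ℕ) = 0)) ⊆
      univ.filter (fun x : ∀ i, Fin (m i) => Cov (fun _ => 1) 1 x) := by
    intro x hx
    rw [Fintype.mem_piFinset] at hx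
    simp only [mem_filter, mem_univ, true_and]
    intro j hj
    have h1 := hx 0
    simp only [mem_filter, mem_univ, true_and] at h1
    refine ⟨0, ?_⟩
    have h2 : (x 0 : ℕ) = 0 := h1 trivial
    rw [Nat.div_one, h2]
    omega
  refine lt_of_lt_of_le ?_ (Finset.card_le_card hsub)
  rw [Fintype.card_piFinset, Fin.prod_univ_three, Fin.sum_univ_three]
  have c0 : (univ.filter (fun a : Fin (m 0) => (0 : Fin 3) = 0 → (a : ℕ) = 0)).card = 1 := by
    have h0 := hm 0
    rw [Finset.card_eq_one]
    refine ⟨⟨0, by omega⟩, ?_⟩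
    ext a
    simp only [mem_filter, mem_univ, true_and, mem_singleton]
    constructor
    · intro h; exact Fin.ext (h trivial)
    · rintro rfl _; rfl
  have c1 : (univ.filter (fun a : Fin (m 1) => (1 : Fin 3) = 0 → (a : ℕ) = 0)).card = m 1 := by
    rw [Finset.filter_true_of_mem (fun a _ h => absurd h (by decide)), Finset.card_univ,
      Fintype.card_fin]
  have c2 : (univ.filter (fun a : Fin (m 2) => (2 : Fin 3) = 0 → (a : ℕ) = 0)).card = m 2 := by
    rw [Finset.filter_true_of_mem (fun a _ h => absurd h (by decide)), Finset.card_univ,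
      Fintype.card_fin]
  rw [c0, c1, c2]
  simp only [one_mul]
  have h0 := hm 0
  have h1 := hm 1
  have h2 := hm 2
  have t0 := ht 0
  rw [Fin.sum_univ_three] at t0
  have h3 : 4 * m 2 ≤ m 1 * m 2 := Nat.mul_le_mul_right _ h1
  have h4 : m 1 * 4 ≤ m 1 * m 2 := Nat.mul_le_mul_left _ h2
  omega

theorem one_not_fills_two {m : Fin 3 → ℕ} (hm : ∀ i, 4 ≤ m i)
    (ht : ¬ ∀ i, 2 * m i + 2 ≤ ∑ k, m k) : ¬ Fills m (fun i => m i - 1) 2 := by
  intro hF
  push Not at ht
  obtain ⟨k, hk⟩ := ht
  have h := count_free_mode (c := fun _ => 1) (fun _ => le_rfl)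
    (fun i => by have := hm i; omega) (fun i => by have := hm i; omega) hF k
  simp only [Finset.prod_const_one, mul_one, one_mul] at h
  have h1 : ∑ i ∈ univ.erase k, (m i - 1) + 2 = ∑ i ∈ univ.erase k, m i := by
    have e1 : ∑ i ∈ univ.erase k, m i = ∑ i ∈ univ.erase k, ((m i - 1) + 1) :=
      Finset.sum_congr rfl fun i _ => by have := hm i; omega
    rw [e1, Finset.sum_add_distrib]
    simp
  have h2 : ∑ i, m i = m k + ∑ i ∈ univ.erase k, m i :=
    (Finset.add_sum_erase univ m (Finset.mem_univ k)).symm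
  have h3 : (3 - 1).factorial = 2 := rfl
  rw [h3] at h
  omega

theorem one_fills_three {m : Fin 3 → ℕ} (hm : ∀ i, 4 ≤ m i) :
    Fills m (fun i => m i - 1) 3 := by
  refine fills_n' (c := fun _ => 1) (by norm_num) (fun _ => le_rfl)
    (fun i => by have := hm i; omega) 0 ?_
  simp only [Finset.prod_const_one, Nat.div_one]
  have h0 := hm 0
  have h3 : (3 - 1).factorial = 2 := rfl
  rw [h3]
  omega

theorem one_fills_n {n : ℕ} (hn : 4 ≤ n) {m : Fin n → ℕ} (hm : ∀ i, n + 1 ≤ m i)
    (h : (n - 1).factorial ≤ ∑ i, (m i - 1)) : Fills m (fun i => m i - 1) n := by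
  by_cases h5 : n = 5
  · subst h5
    exact fills_five hm
  have hsum : ∑ i, (m i - 1) = ∑ i, (m i - n) + n * (n - 1) := by
    have e1 : ∑ i, (m i - 1) = ∑ i, ((m i - n) + (n - 1)) :=
      Finset.sum_congr rfl fun i _ => by have := hm i; omega
    rw [e1, Finset.sum_add_distrib]
    simp
  refine fills_n (c := fun _ => 1) (by omega) (fun _ => le_rfl)
    (fun i => by have := hm i; omega) ?_ ?_
  · simpa using h
  · simp only [Finset.prod_const_one, Nat.div_one, mul_one]
    rcases Nat.eq_or_lt_of_le hn with h4 | h4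
    · subst h4
      have h3 : (4 - 1).factorial = 6 := rfl
      rw [h3]
      have h0 := hm 0
      have h1 := hm 1
      have h2 := hm 2
      have h3 := hm 3
      rw [Fin.sum_univ_four]
      omega
    · have h6 : 6 ≤ n := by omega
      have hfac : 2 * (n * (n - 1)) ≤ (n - 1).factorial := by
        obtain ⟨k, rfl⟩ : ∃ k, n = k + 6 := ⟨n - 6, by omega⟩
        show 2 * ((k + 6) * (k + 5)) ≤ (k + 5).factorial
        have e1 : (k + 5).factorial = (k + 5) * ((k + 4) * (k + 3).factorial) := by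
          rw [Nat.factorial_succ, Nat.factorial_succ]
        have e2 : 6 ≤ (k + 3).factorial :=
          le_trans (by norm_num [Nat.factorial]) (Nat.factorial_le (show 3 ≤ k + 3 by omega))
        rw [e1]
        nlinarith [Nat.zero_le k, Nat.mul_le_mul_left ((k + 5) * (k + 4)) e2]
      rw [hsum] at h
      omega

/-- The exact generic rank in codimension one. -/
theorem corank_one {n : ℕ} (hn : 3 ≤ n) (m : Fin n → ℕ) (hm : ∀ i, n + 1 ≤ m i) :
    IsLeast {s | Fills m (fun i => m i - 1) s}
      (if n = 3 then (if ∀ i, 2 * m i + 2 ≤ ∑ k, m k then 2 else 3)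
        else (if (n - 1).factorial ≤ ∑ i, (m i - 1) then n else n + 1)) := by
  have hcm : ∀ i, 1 ≤ m i := fun i => by have := hm i; omega
  have hmono : ∀ {s t : ℕ}, s ≤ t → Fills m (fun i => m i - 1) s →
      Fills m (fun i => m i - 1) t := fun hst h =>
    fills_mono (c := fun _ => 1) (fun _ => le_rfl) hcm hst h
  by_cases h3 : n = 3
  · subst h3
    rw [if_pos rfl]
    by_cases ht : ∀ i, 2 * m i + 2 ≤ ∑ k, m k
    · rw [if_pos ht]
      refine ⟨one_fills_two hm ht, fun s hs => ?_⟩
      by_contra hlt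
      push Not at hlt
      exact one_not_fills_one hm ht (hmono (by omega) hs)
    · rw [if_neg ht]
      refine ⟨one_fills_three hm, fun s hs => ?_⟩
      by_contra hlt
      push Not at hlt
      exact one_not_fills_two hm ht (hmono (by omega) hs)
  · rw [if_neg h3]
    have hlow : ∀ s, Fills m (fun i => m i - 1) s → n ≤ s := by
      intro s hs
      by_contra h
      exact not_fills_lt (c := fun _ => 1) hn (fun _ => le_rfl)
        (fun i => by have := hm i; omega) (fun h => absurd h h3) (not_le.mp h) hs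
    by_cases ht : (n - 1).factorial ≤ ∑ i, (m i - 1)
    · rw [if_pos ht]
      exact ⟨one_fills_n (by omega) hm ht, hlow⟩
    · rw [if_neg ht]
      refine ⟨fills_succ (c := fun _ => 1) (fun _ => le_rfl)
        (fun i => by have := hm i; omega), fun s hs => ?_⟩
      rcases Nat.eq_or_lt_of_le (hlow s hs) with h | h
      · subst h
        refine absurd hs (not_fills_n (c := fun _ => 1) (by omega) (fun _ => le_rfl)
          (fun i => by have := hm i; omega) ?_)
        push Not at ht
        simpa using ht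
      · exact h

end Pool.Agent.H63.SubV
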