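import Pool.Agent.H63.SubV.Lower

/-!
Counting covering tuples.
-/

namespace Pool.Agent.H63.SubV

open Finset Equiv

variable {n : ℕ} {m : Fin n → ℕ}

open Classical in
theorem count_n {c : Fin n → ℕ} (hm : ∀ i, n * c i ≤ m i) :
    n.factorial * ∏ i, c i ≤ (univ.filter (fun x : ∀ i, Fin (m i) => Cov c n x)).card := by
  have hcard : Fintype.card (Perm (Fin n) × (∀ i, Fin (c i))) = n.factorial * ∏ i, c i := by
    rw [Fintype.card_prod, Fintype.card_perm, Fintype.card_fin, Fintype.card_pi]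
    simp
  rw [← hcard, ← Fintype.card_subtype]
  have hlt : ∀ (p : Perm (Fin n) × (∀ i, Fin (c i))) i,
      (p.1 i : ℕ) * c i + p.2 i < m i := by
    intro p i
    have h1 : ((p.1 i : ℕ) + 1) * c i ≤ n * c i := Nat.mul_le_mul_right _ (p.1 i).isLt
    have h2 := (p.2 i).isLt
    have h3 := hm i
    rw [add_mul, one_mul] at h1
    omega
  have hdiv : ∀ (p : Perm (Fin n) × (∀ i, Fin (c i))) i,
      ((p.1 i : ℕ) * c i + p.2 i) / c i = p.1 i := by
    intro p i
    have h2 := (p.2 i).isLt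
    rw [mul_comm, Nat.mul_add_div (by omega), Nat.div_eq_of_lt h2, add_zero]
  have hmod : ∀ (p : Perm (Fin n) × (∀ i, Fin (c i))) i,
      ((p.1 i : ℕ) * c i + p.2 i) % c i = p.2 i := by
    intro p i
    have h2 := (p.2 i).isLt
    rw [mul_comm, Nat.mul_add_mod, Nat.mod_eq_of_lt h2]
  refine Fintype.card_le_of_injective
    (fun p => ⟨fun i => ⟨(p.1 i : ℕ) * c i + p.2 i, hlt p i⟩, ?_⟩) ?_
  · intro j hj
    refine ⟨p.1.symm ⟨j, hj⟩, ?_⟩
    show ((p.1 (p.1.symm ⟨j, hj⟩) : ℕ) * c (p.1.symm ⟨j, hj⟩) + p.2 (p.1.symm ⟨j, hj⟩)) /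
      c (p.1.symm ⟨j, hj⟩) = j
    rw [hdiv, Equiv.apply_symm_apply]
  · intro p p' h
    have h1 : ∀ i, (p.1 i : ℕ) * c i + p.2 i = (p'.1 i : ℕ) * c i + p'.2 i := by
      intro i
      have := congrFun (congrArg Subtype.val h) i
      exact congrArg Fin.val this
    refine Prod.ext ?_ ?_
    · ext i
      rw [← hdiv p i, h1 i, hdiv p' i]
    · ext i
      rw [← hmod p i, h1 i, hmod p' i]

/-- The coordinates different from `k` cover the labels `0, …, n - 2`. -/
def OC (c : Fin n → ℕ) (k : Fin n) (x : ∀ i, Fin (m i)) : Prop :=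
  ∀ j < n - 1, ∃ i, i ≠ k ∧ (x i : ℕ) / c i = j

open Classical in
theorem count_OC {c : Fin n → ℕ} (hm : ∀ i, (n - 1) * c i ≤ m i) (k : Fin n)
    (W : Finset (Fin (m k))) :
    (n - 1).factorial * (∏ i ∈ univ.erase k, c i) * W.card ≤
      (univ.filter (fun x : ∀ i, Fin (m i) => OC c k x ∧ x k ∈ W)).card := by
  have hcn : Fintype.card {i : Fin n // i ≠ k} = n - 1 := by
    rw [Fintype.card_subtype_compl, Fintype.card_fin]
    simp
  have hcard : Fintype.card (({i : Fin n // i ≠ k} ≃ Fin (n - 1)) ×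
      (∀ i : {i : Fin n // i ≠ k}, Fin (c i)) × {w // w ∈ W}) =
      (n - 1).factorial * (∏ i ∈ univ.erase k, c i) * W.card := by
    rw [Fintype.card_prod, Fintype.card_prod, Fintype.card_equiv (Fintype.equivFinOfCardEq hcn),
      hcn, Fintype.card_pi, Fintype.card_coe, mul_assoc]
    simp only [Fintype.card_fin]
    congr 2
    exact (Finset.prod_subtype (univ.erase k) (by simp) c).symm
  rw [← hcard, ← Fintype.card_subtype]
  have hlt : ∀ (p : ({i : Fin n // i ≠ k} ≃ Fin (n - 1)) ×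
      (∀ i : {i : Fin n // i ≠ k}, Fin (c i)) × {w // w ∈ W}) (i : Fin n),
      (if h : i = k then (p.2.2.1 : ℕ) else (p.1 ⟨i, h⟩ : ℕ) * c i + p.2.1 ⟨i, h⟩) < m i := by
    intro p i
    split_ifs with h
    · subst h; exact p.2.2.1.isLt
    · have h1 : ((p.1 ⟨i, h⟩ : ℕ) + 1) * c i ≤ (n - 1) * c i :=
        Nat.mul_le_mul_right _ (p.1 ⟨i, h⟩).isLt
      have h2 := (p.2.1 ⟨i, h⟩).isLt
      have h3 := hm i
      rw [add_mul, one_mul] at h1
      show (p.1 ⟨i, h⟩ : ℕ) * c i + p.2.1 ⟨i, h⟩ < m i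
      have h4 : (p.2.1 ⟨i, h⟩ : ℕ) < c i := h2
      omega
  have hdiv : ∀ (p : ({i : Fin n // i ≠ k} ≃ Fin (n - 1)) ×
      (∀ i : {i : Fin n // i ≠ k}, Fin (c i)) × {w // w ∈ W}) (i : {i : Fin n // i ≠ k}),
      ((p.1 i : ℕ) * c i + p.2.1 i) / c i = p.1 i := by
    intro p i
    have h2 := (p.2.1 i).isLt
    rw [mul_comm, Nat.mul_add_div (by omega), Nat.div_eq_of_lt h2, add_zero]
  have hmod : ∀ (p : ({i : Fin n // i ≠ k} ≃ Fin (n - 1)) ×
      (∀ i : {i : Fin n // i ≠ k}, Fin (c i)) × {w // w ∈ W}) (i : {i : Fin n // i ≠ k}),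
      ((p.1 i : ℕ) * c i + p.2.1 i) % c i = p.2.1 i := by
    intro p i
    have h2 := (p.2.1 i).isLt
    rw [mul_comm, Nat.mul_add_mod, Nat.mod_eq_of_lt h2]
  refine Fintype.card_le_of_injective (fun p => ⟨fun i =>
    ⟨(if h : i = k then (p.2.2.1 : ℕ) else (p.1 ⟨i, h⟩ : ℕ) * c i + p.2.1 ⟨i, h⟩), hlt p i⟩,
      ?_, ?_⟩) ?_
  · intro j hj
    refine ⟨(p.1.symm ⟨j, hj⟩).1, (p.1.symm ⟨j, hj⟩).2, ?_⟩
    show (if h : (p.1.symm ⟨j, hj⟩).1 = k then (p.2.2.1 : ℕ) else
      (p.1 ⟨(p.1.symm ⟨j, hj⟩).1, h⟩ : ℕ) * c (p.1.symm ⟨j, hj⟩).1 +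
        p.2.1 ⟨(p.1.symm ⟨j, hj⟩).1, h⟩) / c (p.1.symm ⟨j, hj⟩).1 = j
    rw [dif_neg (p.1.symm ⟨j, hj⟩).2]
    have h1 := hdiv p (p.1.symm ⟨j, hj⟩)
    rw [Equiv.apply_symm_apply] at h1
    have h2 : (p.1 ⟨(p.1.symm ⟨j, hj⟩).1, (p.1.symm ⟨j, hj⟩).2⟩ : ℕ) = j := by
      show (p.1 (p.1.symm ⟨j, hj⟩) : ℕ) = j
      rw [Equiv.apply_symm_apply]
    rw [h2]
    exact h1
  · have : (⟨(if h : k = k then (p.2.2.1 : ℕ) else (p.1 ⟨k, h⟩ : ℕ) * c k + p.2.1 ⟨k, h⟩),
        hlt p k⟩ : Fin (m k)) = p.2.2.1 := by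
      apply Fin.ext
      show (if h : k = k then (p.2.2.1 : ℕ) else (p.1 ⟨k, h⟩ : ℕ) * c k + p.2.1 ⟨k, h⟩) = _
      rw [dif_pos rfl]
    show (⟨(if h : k = k then (p.2.2.1 : ℕ) else (p.1 ⟨k, h⟩ : ℕ) * c k + p.2.1 ⟨k, h⟩),
        hlt p k⟩ : Fin (m k)) ∈ W
    rw [this]
    exact p.2.2.2
  · intro p p' h
    have h0 : ∀ i : Fin n,
        (if h : i = k then (p.2.2.1 : ℕ) else (p.1 ⟨i, h⟩ : ℕ) * c i + p.2.1 ⟨i, h⟩) =
        (if h : i = k then (p'.2.2.1 : ℕ) else (p'.1 ⟨i, h⟩ : ℕ) * c i + p'.2.1 ⟨i, h⟩) := by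
      intro i
      have := congrFun (congrArg Subtype.val h) i
      exact congrArg Fin.val this
    have h1 : ∀ i : {i : Fin n // i ≠ k},
        (p.1 i : ℕ) * c i + p.2.1 i = (p'.1 i : ℕ) * c i + p'.2.1 i := by
      intro i
      have := h0 i.1
      rw [dif_neg i.2, dif_neg i.2] at this
      exact this
    refine Prod.ext ?_ (Prod.ext ?_ ?_)
    · ext i
      rw [← hdiv p i, h1 i, hdiv p' i]
    · ext i
      rw [← hmod p i, h1 i, hmod p' i]
    · have := h0 k
      rw [dif_pos rfl, dif_pos rfl] at this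
      exact Subtype.ext (Fin.ext this)

theorem card_free {M c t : ℕ} (hc : 1 ≤ c) :
    (univ.filter (fun a : Fin M => t ≤ (a : ℕ) / c)).card = M - t * c := by
  have : (univ.filter (fun a : Fin M => t ≤ (a : ℕ) / c)).map Fin.valEmbedding =
      Finset.Ico (t * c) M := by
    ext a
    simp only [mem_map, mem_filter, mem_univ, true_and, Fin.valEmbedding_apply, mem_Ico]
    constructor
    · rintro ⟨b, hb, rfl⟩
      rw [Nat.le_div_iff_mul_le (by omega)] at hb
      exact ⟨hb, b.isLt⟩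
    · rintro ⟨h1, h2⟩
      refine ⟨⟨a, h2⟩, ?_, rfl⟩
      show t ≤ a / c
      rw [Nat.le_div_iff_mul_le (by omega)]
      exact h1
  rw [← Finset.card_map Fin.valEmbedding, this, Nat.card_Ico]

theorem OC_inj {c : Fin n → ℕ} {k : Fin n} {x : ∀ i, Fin (m i)} (hx : OC c k x) :
    (∀ i, i ≠ k → (x i : ℕ) / c i < n - 1) ∧
      ∀ i l, i ≠ k → l ≠ k → (x i : ℕ) / c i = (x l : ℕ) / c l → i = l := by
  classical
  choose g hg1 hg2 using fun j : Fin (n - 1) => hx j j.isLt
  let G : Fin (n - 1) → {i : Fin n // i ≠ k} := fun j => ⟨g j, hg1 j⟩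
  have hinj : Function.Injective G := by
    intro j j' h
    have h1 : g j = g j' := congrArg Subtype.val h
    have h2 := hg2 j
    rw [h1, hg2 j'] at h2
    exact (Fin.ext h2).symm
  have hcn : Fintype.card {i : Fin n // i ≠ k} = n - 1 := by
    rw [Fintype.card_subtype_compl, Fintype.card_fin]
    simp
  have hbij : Function.Bijective G := by
    rw [Fintype.bijective_iff_injective_and_card]
    exact ⟨hinj, by rw [hcn, Fintype.card_fin]⟩
  have hex : ∀ i, i ≠ k → ∃ j : Fin (n - 1), g j = i := by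
    intro i hi
    obtain ⟨j, hj⟩ := hbij.2 ⟨i, hi⟩
    exact ⟨j, congrArg Subtype.val hj⟩
  refine ⟨fun i hi => ?_, fun i l hi hl h => ?_⟩
  · obtain ⟨j, rfl⟩ := hex i hi
    rw [hg2 j]; exact j.isLt
  · obtain ⟨j, rfl⟩ := hex i hi
    obtain ⟨j', rfl⟩ := hex l hl
    rw [hg2 j, hg2 j'] at h
    rw [Fin.ext h]

open Classical in
theorem count_pred {c : Fin n → ℕ} (hc : ∀ i, 1 ≤ c i)
    (hm : ∀ i, (n - 1) * c i ≤ m i) :
    ∑ k, ((n - 1).factorial * (∏ i ∈ univ.erase k, c i) * m k +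
      (n - 1).factorial * (∏ i ∈ univ.erase k, c i) * (m k - (n - 1) * c k)) ≤
      2 * (univ.filter (fun x : ∀ i, Fin (m i) => Cov c (n - 1) x)).card := by
  let K : (∀ i, Fin (m i)) → Finset (Fin n) := fun x => univ.filter (fun k => OC c k x)
  let Ku : (∀ i, Fin (m i)) → Finset (Fin n) := fun x =>
    univ.filter (fun k => OC c k x ∧ n - 1 ≤ (x k : ℕ) / c k)
  have h1 : ∀ k, (n - 1).factorial * (∏ i ∈ univ.erase k, c i) * m k ≤
      (univ.filter (fun x : ∀ i, Fin (m i) => OC c k x)).card := by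
    intro k
    have := count_OC hm k univ
    simpa using this
  have h2 : ∀ k, (n - 1).factorial * (∏ i ∈ univ.erase k, c i) * (m k - (n - 1) * c k) ≤
      (univ.filter (fun x : ∀ i, Fin (m i) => OC c k x ∧ n - 1 ≤ (x k : ℕ) / c k)).card := by
    intro k
    have := count_OC hm k (univ.filter (fun a : Fin (m k) => n - 1 ≤ (a : ℕ) / c k))
    rw [card_free (hc k)] at this
    simpa using this
  have h3 : ∑ k, ((univ.filter (fun x : ∀ i, Fin (m i) => OC c k x)).card +
      (univ.filter (fun x : ∀ i, Fin (m i) => OC c k x ∧ n - 1 ≤ (x k : ℕ) / c k)).card) =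
      ∑ x, ((K x).card + (Ku x).card) := by
    simp only [Finset.sum_add_distrib, K, Ku, Finset.card_filter]
    congr 1
    · exact Finset.sum_comm
    · exact Finset.sum_comm
  have h4 : ∀ x, (K x).card + (Ku x).card ≤ if Cov c (n - 1) x then 2 else 0 := by
    intro x
    have hsub : Ku x ⊆ K x := by
      intro k hk
      simp only [K, Ku, mem_filter, mem_univ, true_and] at hk ⊢
      exact hk.1
    -- members of `K` share labels
    have hshare : ∀ k ∈ K x, ∀ l ∈ K x, l ≠ k → (x l : ℕ) / c l = (x k : ℕ) / c k := by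
      intro k hk l hl hlk
      simp only [K, mem_filter, mem_univ, true_and] at hk hl
      obtain ⟨hk1, hk2⟩ := OC_inj hk
      obtain ⟨i, hi, hie⟩ := hl _ (hk1 l hlk)
      by_cases hik : i = k
      · rw [← hie, hik]
      · exact absurd (hk2 i l hik hlk hie) hi
    by_cases hcov : Cov c (n - 1) x
    · rw [if_pos hcov]
      by_cases hKu : (Ku x).Nonempty
      · obtain ⟨k, hk⟩ := hKu
        have hkK := hsub hk
        have hK1 : K x ⊆ {k} := by
          intro l hl
          rw [mem_singleton]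
          by_contra hlk
          have h5 := hshare k hkK l hl hlk
          simp only [K, Ku, mem_filter, mem_univ, true_and] at hk hkK
          have h6 := (OC_inj hkK).1 l hlk
          omega
        have h7 := Finset.card_le_card hK1
        have h8 := Finset.card_le_card hsub
        rw [card_singleton] at h7
        omega
      · rw [not_nonempty_iff_eq_empty] at hKu
        rw [hKu, card_empty, add_zero]
        by_contra h5
        push Not at h5
        obtain ⟨a, ha, b, hb, d, hd, hab, had, hbd⟩ := Finset.two_lt_card.mp h5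
        have h6 := hshare a ha b hb (Ne.symm hab)
        have h7 := hshare a ha d hd (Ne.symm had)
        have ha' := ha
        simp only [K, mem_filter, mem_univ, true_and] at ha'
        exact hbd ((OC_inj ha').2 b d (Ne.symm hab) (Ne.symm had) (by rw [h6, h7]))
    · rw [if_neg hcov]
      have hK : K x = ∅ := by
        rw [Finset.eq_empty_iff_forall_notMem]
        intro k hk
        simp only [K, mem_filter, mem_univ, true_and] at hk
        apply hcov
        intro j hj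
        obtain ⟨i, _, hi⟩ := hk j hj
        exact ⟨i, hi⟩
      have hKu : Ku x = ∅ := by
        rw [hK] at hsub
        exact Finset.subset_empty.mp hsub
      rw [hK, hKu]; simp
  calc _ ≤ ∑ k, ((univ.filter (fun x : ∀ i, Fin (m i) => OC c k x)).card +
      (univ.filter (fun x : ∀ i, Fin (m i) => OC c k x ∧ n - 1 ≤ (x k : ℕ) / c k)).card) :=
        Finset.sum_le_sum fun k _ => Nat.add_le_add (h1 k) (h2 k)
    _ = ∑ x, ((K x).card + (Ku x).card) := h3
    _ ≤ ∑ x : ∀ i, Fin (m i), (if Cov c (n - 1) x then 2 else 0) :=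
        Finset.sum_le_sum fun x _ => h4 x
    _ = 2 * (univ.filter (fun x : ∀ i, Fin (m i) => Cov c (n - 1) x)).card := by
        rw [Finset.card_filter, Finset.mul_sum]
        refine Finset.sum_congr rfl fun x _ => ?_
        split_ifs <;> rfl

end Pool.Agent.H63.SubV
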