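import Pool.Agent.H63.SubV.Assign
import Pool.Agent.H63.SubV.Pred

/-!
Assembly: the generic rank for subspace varieties of small codimension.
-/

namespace Pool.Agent.H63.SubV

open Finset

variable {n : ℕ} {m c : Fin n → ℕ}

theorem fills_succ (hc : ∀ i, 1 ≤ c i) (hm : ∀ i, (n + 1) * c i ≤ m i) :
    Fills m (fun i => m i - c i) (n + 1) := by
  intro F hF
  refine MvPolynomial.funext fun T => ?_
  rw [map_zero]
  exact hF T (mem_sums_succ hc hm T)

theorem not_fills_lt (hn : 3 ≤ n) (hc : ∀ i, 1 ≤ c i) (hm : ∀ i, n * c i ≤ m i)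
    (h3 : n = 3 → ∃ i, c i ≠ 1) {s : ℕ} (hs : s < n) : ¬ Fills m (fun i => m i - c i) s := by
  intro h
  have hcm : ∀ i, c i ≤ m i := fun i =>
    le_trans (Nat.le_mul_of_pos_left _ (by omega)) (hm i)
  exact not_fills_pred hn hc hm h3 (fills_mono hc hcm (by omega) h)

theorem not_fills_n (hn : 1 ≤ n) (hc : ∀ i, 1 ≤ c i) (hm : ∀ i, n * c i ≤ m i)
    (hcount : ∑ i, c i * (m i - c i) < (n - 1).factorial * ∏ i, c i) :
    ¬ Fills m (fun i => m i - c i) n := by
  classical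
  have hcm : ∀ i, c i ≤ m i := fun i =>
    le_trans (Nat.le_mul_of_pos_left _ hn) (hm i)
  refine not_fills hc hcm hm (lt_of_lt_of_le ?_ (count_n hm))
  obtain ⟨k, rfl⟩ : ∃ k, n = k + 1 := ⟨n - 1, by omega⟩
  rw [Nat.factorial_succ, mul_assoc]
  exact Nat.mul_lt_mul_of_pos_left hcount (Nat.succ_pos k)

end Pool.Agent.H63.SubV
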