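import Pool.Agent.H63.SubV.Basic

/-!
Lower bound: the secant variety does not fill the space when the number of equations exceeds
the number of parameters.
-/

namespace Pool.Agent.H63.SubV

open Finset Module MvPolynomial

variable {n : ℕ} {m : Fin n → ℕ}

/-- `x` covers the labels `0, …, s - 1`, general labellings. -/
def CovL (lab : ∀ i, Fin (m i) → ℕ) (s : ℕ) (x : ∀ i, Fin (m i)) : Prop :=
  ∀ j < s, ∃ i, lab i (x i) = j

/-- Index type of the parameters. -/
abbrev PIdx (lab : ∀ i, Fin (m i) → ℕ) (s : ℕ) : Type :=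
  (Σ i : Fin n, {p : Fin (m i) × Fin (m i) // lab i p.1 < s ∧ lab i p.2 ≠ lab i p.1}) ⊕
    {x : ∀ i, Fin (m i) // ¬ CovL lab s x}

/-- Matrices in normal form. -/
def NF {k : ℕ} (lab : Fin k → ℕ) (s : ℕ) (g : Matrix (Fin k) (Fin k) ℂ) : Prop :=
  ∀ a a' : Fin k, ¬ (lab a < s ∧ lab a' ≠ lab a) → g a a' = if a = a' then 1 else 0

open Classical in
/-- Generic normal form matrices. -/
noncomputable def genG (lab : ∀ i, Fin (m i) → ℕ) (s : ℕ) (i : Fin n) :
    Matrix (Fin (m i)) (Fin (m i)) (MvPolynomial (PIdx lab s) ℂ) := fun a a' =>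
  if h : lab i a < s ∧ lab i a' ≠ lab i a then X (Sum.inl ⟨i, ⟨(a, a'), h⟩⟩)
  else if a = a' then 1 else 0

open Classical in
/-- Generic array vanishing on covering tuples. -/
noncomputable def genT (lab : ∀ i, Fin (m i) → ℕ) (s : ℕ) :
    (∀ i, Fin (m i)) → MvPolynomial (PIdx lab s) ℂ := fun x =>
  if h : ¬ CovL lab s x then X (Sum.inr ⟨x, h⟩) else 0

open Classical in
theorem exists_poly (lab : ∀ i, Fin (m i) → ℕ) (s : ℕ)
    (hcard : Fintype.card (PIdx lab s) < Fintype.card (∀ i, Fin (m i))) :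
    ∃ F : MvPolynomial (∀ i, Fin (m i)) ℂ, F ≠ 0 ∧
      ∀ (g : ∀ i, Matrix (Fin (m i)) (Fin (m i)) ℂ) (T : (∀ i, Fin (m i)) → ℂ),
        (∀ i, NF (lab i) s (g i)) → (∀ x, CovL lab s x → T x = 0) →
        eval (act (fun i => (g i).adjugate) T) F = 0 := by
  set ψ : (∀ i, Fin (m i)) → MvPolynomial (PIdx lab s) ℂ :=
    act (fun i => (genG lab s i).adjugate) (genT lab s) with hψ
  have hdep : ¬ AlgebraicIndependent ℂ ψ := by
    intro h
    have h1 := h.lift_cardinalMk_le_trdeg
    rw [MvPolynomial.trdeg_of_isDomain] at h1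
    simp only [Cardinal.mk_fintype, Cardinal.lift_natCast, Nat.cast_le] at h1
    omega
  have h2 : ∃ F : MvPolynomial (∀ i, Fin (m i)) ℂ, aeval ψ F = 0 ∧ F ≠ 0 := by
    by_contra hno
    apply hdep
    rw [algebraicIndependent_iff]
    intro F hF
    by_contra hF0
    exact hno ⟨F, hF, hF0⟩
  obtain ⟨F, hF, hF0⟩ := h2
  refine ⟨F, hF0, fun g T hg hT => ?_⟩
  let p : PIdx lab s → ℂ := Sum.elim (fun q => g q.1 q.2.1.1 q.2.1.2) (fun x => T x.1)
  have hG : ∀ i, (genG lab s i).map (eval p) = g i := by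
    intro i
    ext a a'
    rw [Matrix.map_apply, genG]
    by_cases h : lab i a < s ∧ lab i a' ≠ lab i a
    · rw [dif_pos h, eval_X]; rfl
    · rw [dif_neg h, hg i a a' h]
      split_ifs <;> simp
  have hTT : ∀ x, eval p (genT lab s x) = T x := by
    intro x
    rw [genT]
    by_cases h : ¬ CovL lab s x
    · rw [dif_pos h, eval_X]; rfl
    · rw [dif_neg h, hT x (not_not.mp h), map_zero]
  have hadj : ∀ i, (genG lab s i).adjugate.map (eval p) = (g i).adjugate := by
    intro i
    rw [← hG i]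
    exact (eval p).map_adjugate (genG lab s i)
  have hψe : ∀ x, eval p (ψ x) = act (fun i => (g i).adjugate) T x := by
    intro x
    rw [hψ, act_apply, act_apply, map_sum]
    refine Finset.sum_congr rfl fun y _ => ?_
    rw [map_mul, map_prod, hTT]
    congr 1
    refine Finset.prod_congr rfl fun i _ => ?_
    rw [← hadj i]; rfl
  have h3 : eval p (aeval ψ F) = eval (fun x => eval p (ψ x)) F := by
    rw [aeval_def, eval₂_eq_eval_map]
    rw [← MvPolynomial.eval₂_eq_eval_map]
    have := MvPolynomial.hom_eval₂ F (algebraMap ℂ (MvPolynomial (PIdx lab s) ℂ)) (eval p) ψ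
    rw [this]
    rw [MvPolynomial.eval₂_eq_eval_map]
    congr 1
    have hc : (eval p).comp (algebraMap ℂ (MvPolynomial (PIdx lab s) ℂ)) = RingHom.id ℂ := by
      ext; simp
    rw [hc, MvPolynomial.map_id]
  rw [hF, map_zero] at h3
  have h4 : (fun x => eval p (ψ x)) = act (fun i => (g i).adjugate) T := funext hψe
  rw [h4] at h3
  exact h3.symm

/-- The coordinate subspace of vectors vanishing on a finite set. -/
def zeroSub {k : ℕ} (S : Finset (Fin k)) : Submodule ℂ (Fin k → ℂ) where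
  carrier := {v | ∀ a ∈ S, v a = 0}
  add_mem' := by
    intro u v hu hv a ha
    simp [hu a ha, hv a ha]
  zero_mem' := by intro a _; rfl
  smul_mem' := by
    intro t v hv a ha
    simp [hv a ha]

theorem mem_zeroSub {k : ℕ} {S : Finset (Fin k)} {v : Fin k → ℂ} :
    v ∈ zeroSub S ↔ ∀ a ∈ S, v a = 0 := Iff.rfl

theorem finrank_zeroSub {k : ℕ} (S : Finset (Fin k)) :
    finrank ℂ (zeroSub S) = k - S.card := by
  set f : (Fin k → ℂ) →ₗ[ℂ] ({a : Fin k // a ∈ S} → ℂ) :=
    LinearMap.funLeft ℂ ℂ Subtype.val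
  have hker : LinearMap.ker f = zeroSub S := by
    ext v
    rw [LinearMap.mem_ker, mem_zeroSub]
    constructor
    · intro h a ha
      exact congrFun h ⟨a, ha⟩
    · intro h
      ext ⟨a, ha⟩
      exact h a ha
  have hsurj : Function.Surjective f :=
    LinearMap.funLeft_surjective_of_injective ℂ ℂ _ Subtype.val_injective
  have h1 := LinearMap.finrank_range_add_finrank_ker f
  rw [LinearMap.range_eq_top.mpr hsurj, finrank_top, hker] at h1
  rw [Module.finrank_pi, Module.finrank_pi, Fintype.card_coe, Fintype.card_fin] at h1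
  omega

theorem exists_w {k c : ℕ} (hck : c ≤ k) (S : Finset (Fin k)) (hS : S.card ≤ c)
    (A : Submodule ℂ (Fin k → ℂ)) (hA : finrank ℂ A = k - c) :
    ∃ w wi : Matrix (Fin k) (Fin k) ℂ, wi * w = 1 ∧
      ∀ v ∈ A, ∀ a ∈ S, w.mulVec v a = 0 := by
  obtain ⟨S', hSS', hS'⟩ := Finset.exists_superset_card_eq hS (by rw [Fintype.card_fin]; exact hck)
  obtain ⟨B, hB⟩ := Submodule.exists_isCompl A
  obtain ⟨L, hL⟩ := Submodule.exists_isCompl (zeroSub S')
  have hK := finrank_zeroSub S'
  rw [hS'] at hK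
  have e1 : A ≃ₗ[ℂ] (zeroSub S') := LinearEquiv.ofFinrankEq _ _ (by rw [hA, hK])
  have e2 : B ≃ₗ[ℂ] L := by
    refine LinearEquiv.ofFinrankEq _ _ ?_
    have h1 := Submodule.finrank_add_eq_of_isCompl hB
    have h2 := Submodule.finrank_add_eq_of_isCompl hL
    omega
  let e : (Fin k → ℂ) ≃ₗ[ℂ] (Fin k → ℂ) :=
    ((Submodule.prodEquivOfIsCompl A B hB).symm.trans (e1.prodCongr e2)).trans
      (Submodule.prodEquivOfIsCompl (zeroSub S') L hL)
  refine ⟨LinearMap.toMatrix' e.toLinearMap, LinearMap.toMatrix' e.symm.toLinearMap, ?_, ?_⟩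
  · rw [← LinearMap.toMatrix'_comp]
    have : e.symm.toLinearMap ∘ₗ e.toLinearMap = LinearMap.id := by
      ext v; simp
    rw [this, LinearMap.toMatrix'_id]
  · intro v hv a ha
    rw [LinearMap.toMatrix'_mulVec]
    have h0 : e v ∈ zeroSub S' → e v a = 0 := fun h => h a (hSS' ha)
    refine h0 ?_
    have h1 : (Submodule.prodEquivOfIsCompl A B hB).symm v = (⟨v, hv⟩, 0) := by
      rw [LinearEquiv.symm_apply_eq]
      simp
    show (Submodule.prodEquivOfIsCompl (zeroSub S') L hL)
      ((e1.prodCongr e2) ((Submodule.prodEquivOfIsCompl A B hB).symm v)) ∈ _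
    rw [h1]
    simp

/-- The linear path from the identity to `M`. -/
def pth {k : ℕ} (M : Matrix (Fin k) (Fin k) ℂ) (ε : ℂ) : Matrix (Fin k) (Fin k) ℂ :=
  (1 - ε) • (1 : Matrix (Fin k) (Fin k) ℂ) + ε • M

theorem pth_apply {k : ℕ} (M : Matrix (Fin k) (Fin k) ℂ) (ε : ℂ) (a a' : Fin k) :
    pth M ε a a' = (1 - ε) * (if a = a' then 1 else 0) + ε * M a a' := by
  simp [pth, Matrix.one_apply]

theorem pth_one {k : ℕ} (M : Matrix (Fin k) (Fin k) ℂ) : pth M 1 = M := by
  simp [pth]

theorem continuous_pth {k : ℕ} (M : Matrix (Fin k) (Fin k) ℂ) : Continuous (pth M) := by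
  unfold pth
  fun_prop

theorem pth_det_finite {k : ℕ} (M : Matrix (Fin k) (Fin k) ℂ) :
    {ε : ℂ | (pth M ε).det = 0}.Finite := by
  let N : Matrix (Fin k) (Fin k) (Polynomial ℂ) :=
    (1 - Polynomial.X : Polynomial ℂ) • (1 : Matrix (Fin k) (Fin k) (Polynomial ℂ)) +
      (Polynomial.X : Polynomial ℂ) • M.map Polynomial.C
  have hN : ∀ ε : ℂ, N.det.eval ε = (pth M ε).det := by
    intro ε
    have h1 := (Polynomial.evalRingHom ε).map_det N
    rw [Polynomial.coe_evalRingHom] at h1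
    rw [h1]
    congr 1
    ext a a'
    simp only [N, RingHom.mapMatrix_apply, Matrix.map_apply, Matrix.add_apply, Matrix.smul_apply,
      smul_eq_mul, pth_apply, Matrix.one_apply, Polynomial.coe_evalRingHom, Polynomial.eval_add,
      Polynomial.eval_mul, Polynomial.eval_sub, Polynomial.eval_one, Polynomial.eval_X,
      Polynomial.eval_C]
    split_ifs <;> simp
  have h0 : N.det ≠ 0 := by
    intro h
    have := hN 0
    rw [h] at this
    simp [pth] at this
  refine (Polynomial.finite_setOfPred_isRoot h0).subset fun ε hε => ?_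
  show N.det.eval ε = 0
  rw [hN]; exact hε

theorem block_inv {k : ℕ} {lab : Fin k → ℕ} {B : Matrix (Fin k) (Fin k) ℂ} (hdet : B.det ≠ 0)
    (hB : ∀ a a' : Fin k, lab a ≠ lab a' → B a a' = 0) (a a' : Fin k)
    (h : lab a ≠ lab a') : B⁻¹ a a' = 0 := by
  have hu : IsUnit B.det := isUnit_iff_ne_zero.mpr hdet
  set L : Matrix (Fin k) (Fin k) ℂ := Matrix.diagonal (fun b : Fin k => ((lab b : ℕ) : ℂ))
    with hL
  have h1 : B * L = L * B := by
    ext b b'
    rw [hL, Matrix.mul_diagonal, Matrix.diagonal_mul]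
    by_cases hb : lab b = lab b'
    · rw [hb, mul_comm]
    · rw [hB b b' hb]; simp
  have h2 : B⁻¹ * L = L * B⁻¹ := by
    calc B⁻¹ * L = B⁻¹ * L * (B * B⁻¹) := by rw [Matrix.mul_nonsing_inv _ hu, mul_one]
      _ = B⁻¹ * (L * B) * B⁻¹ := by simp only [mul_assoc]
      _ = B⁻¹ * (B * L) * B⁻¹ := by rw [h1]
      _ = (B⁻¹ * B) * L * B⁻¹ := by simp only [mul_assoc]
      _ = L * B⁻¹ := by rw [Matrix.nonsing_inv_mul _ hu, one_mul]
  have h3 := congrFun (congrFun h2 a) a'
  rw [hL, Matrix.mul_diagonal, Matrix.diagonal_mul] at h3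
  have h4 : (((lab a' : ℕ) : ℂ) - ((lab a : ℕ) : ℂ)) * B⁻¹ a a' = 0 := by
    rw [sub_mul, ← h3]; ring
  rcases mul_eq_zero.mp h4 with h5 | h5
  · exfalso
    apply h
    have h6 : ((lab a' : ℕ) : ℂ) = ((lab a : ℕ) : ℂ) := sub_eq_zero.mp h5
    exact (Nat.cast_injective h6).symm
  · exact h5

/-- Truncation to the block diagonal. -/
def trunc {k : ℕ} (lab : Fin k → ℕ) (M : Matrix (Fin k) (Fin k) ℂ) :
    Matrix (Fin k) (Fin k) ℂ :=
  fun a a' => if lab a = lab a' then M a a' else 0

theorem trunc_pth {k : ℕ} (lab : Fin k → ℕ) (M : Matrix (Fin k) (Fin k) ℂ) (ε : ℂ) :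
    trunc lab (pth M ε) = pth (trunc lab M) ε := by
  ext a a'
  rw [pth_apply, trunc, trunc]
  split_ifs with h1 h2 h3
  · rw [pth_apply, if_pos h2]
  · rw [pth_apply, if_neg h2]
  · exact absurd (by rw [h3]) h1
  · simp

theorem nf_of {s k : ℕ} {lab : Fin k → ℕ} {Φ : Matrix (Fin k) (Fin k) ℂ}
    (hΦ : ∀ a a' : Fin k, s ≤ lab a → Φ a a' = if a = a' then 1 else 0)
    (hdet : (trunc lab Φ).det ≠ 0) : NF lab s ((trunc lab Φ)⁻¹ * Φ) := by
  intro a a' h
  set B := trunc lab Φ with hBdef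
  have hu : IsUnit B.det := isUnit_iff_ne_zero.mpr hdet
  have hB : ∀ a a' : Fin k, lab a ≠ lab a' → B a a' = 0 := by
    intro a a' h; rw [hBdef, trunc, if_neg h]
  by_cases h1 : lab a' = lab a
  · have h2 : (B⁻¹ * Φ) a a' = (B⁻¹ * B) a a' := by
      rw [Matrix.mul_apply, Matrix.mul_apply]
      refine Finset.sum_congr rfl fun b _ => ?_
      by_cases hb : lab a = lab b
      · congr 1
        rw [hBdef, trunc, if_pos (by rw [← hb, h1])]
      · rw [block_inv hdet hB a b hb, zero_mul, zero_mul]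
    rw [h2, Matrix.nonsing_inv_mul _ hu, Matrix.one_apply]
  · have h3 : s ≤ lab a := by
      by_contra h4
      exact h ⟨by omega, h1⟩
    have hrow : ∀ b, B⁻¹ a b = if a = b then 1 else 0 := by
      intro b
      have h5 : (B * B⁻¹) a b = B⁻¹ a b := by
        rw [Matrix.mul_apply, Finset.sum_eq_single a]
        · rw [hBdef, trunc, if_pos rfl, hΦ a a h3, if_pos rfl, one_mul]
        · intro b' _ hb'
          have : B a b' = 0 := by
            rw [hBdef, trunc]
            split_ifs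
            · rw [hΦ a b' h3, if_neg (Ne.symm hb')]
            · rfl
          rw [this, zero_mul]
        · intro hh; exact absurd (Finset.mem_univ a) hh
      rw [← h5, Matrix.mul_nonsing_inv _ hu, Matrix.one_apply]
    rw [Matrix.mul_apply, Finset.sum_eq_single a]
    · rw [hrow, if_pos rfl, one_mul, hΦ a a' h3]
    · intro b _ hb
      rw [hrow, if_neg (Ne.symm hb), zero_mul]
    · intro hh; exact absurd (Finset.mem_univ a) hh

/-- Action of block diagonal matrices preserves vanishing on covering tuples. -/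
theorem cov_block {lab : ∀ i, Fin (m i) → ℕ} {s : ℕ}
    {B : ∀ i, Matrix (Fin (m i)) (Fin (m i)) ℂ}
    (hB : ∀ i, ∀ a a' : Fin (m i), lab i a ≠ lab i a' → B i a a' = 0)
    {T : (∀ i, Fin (m i)) → ℂ} (hT : ∀ x, CovL lab s x → T x = 0) (x : ∀ i, Fin (m i))
    (hx : CovL lab s x) : act B T x = 0 := by
  rw [act_apply]
  refine Finset.sum_eq_zero fun y _ => ?_
  by_cases h : ∀ i, lab i (x i) = lab i (y i)
  · rw [hT y, mul_zero]
    intro j hj
    obtain ⟨i, hi⟩ := hx j hj
    exact ⟨i, by rw [← h i]; exact hi⟩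
  · push Not at h
    obtain ⟨i, hi⟩ := h
    rw [Finset.prod_eq_zero (Finset.mem_univ i) (hB i _ _ hi), zero_mul]

theorem cov_key {lab : ∀ i, Fin (m i) → ℕ} {s : ℕ} {Φ : ∀ i, Matrix (Fin (m i)) (Fin (m i)) ℂ}
    {w : Fin s → ∀ i, Matrix (Fin (m i)) (Fin (m i)) ℂ}
    (hΦ : ∀ (j : Fin s) i (a a' : Fin (m i)), lab i a = j → Φ i a a' = w j i a a')
    {G : Fin s → (∀ i, Fin (m i)) → ℂ}
    (hG : ∀ (j : Fin s) x, (∃ i, lab i (x i) = j) → G j x = 0)
    (x : ∀ i, Fin (m i)) (hx : CovL lab s x) :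
    act Φ (∑ j, act (fun i => (w j i).adjugate) (G j)) x = 0 := by
  rw [act_sum, Finset.sum_apply]
  refine Finset.sum_eq_zero fun j _ => ?_
  rw [act_act, act_apply]
  refine Finset.sum_eq_zero fun y _ => ?_
  obtain ⟨i, hi⟩ := hx j j.isLt
  have h1 : (Φ i * (w j i).adjugate) (x i) (y i) =
      (w j i).det * (if x i = y i then 1 else 0) := by
    have h2 : (Φ i * (w j i).adjugate) (x i) (y i) = (w j i * (w j i).adjugate) (x i) (y i) := by
      rw [Matrix.mul_apply, Matrix.mul_apply]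
      refine Finset.sum_congr rfl fun b _ => ?_
      rw [hΦ j i (x i) b hi]
    rw [h2, Matrix.mul_adjugate, Matrix.smul_apply, Matrix.one_apply, smul_eq_mul]
  by_cases h : x i = y i
  · rw [hG j y ⟨i, by rw [← h]; exact hi⟩, mul_zero]
  · rw [Finset.prod_eq_zero (Finset.mem_univ i), zero_mul]
    rw [h1, if_neg h, mul_zero]

theorem eval_zero_of_good {lab : ∀ i, Fin (m i) → ℕ} {s : ℕ} {F : MvPolynomial (∀ i, Fin (m i)) ℂ}
    (hF : ∀ (g : ∀ i, Matrix (Fin (m i)) (Fin (m i)) ℂ) (T : (∀ i, Fin (m i)) → ℂ),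
        (∀ i, NF (lab i) s (g i)) → (∀ x, CovL lab s x → T x = 0) →
        eval (act (fun i => (g i).adjugate) T) F = 0)
    {Φ : ∀ i, Matrix (Fin (m i)) (Fin (m i)) ℂ}
    (hΦ : ∀ i, ∀ a a' : Fin (m i), s ≤ lab i a → Φ i a a' = if a = a' then 1 else 0)
    (hdet : ∀ i, (Φ i).det ≠ 0) (hdet' : ∀ i, (trunc (lab i) (Φ i)).det ≠ 0)
    {T : (∀ i, Fin (m i)) → ℂ} (hT : ∀ x, CovL lab s x → act Φ T x = 0) : eval T F = 0 := by
  set B := fun i => (trunc (lab i) (Φ i))⁻¹ with hB
  set g := fun i => B i * Φ i with hg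
  have hgNF : ∀ i, NF (lab i) s (g i) := fun i => nf_of (hΦ i) (hdet' i)
  have hBdet : ∀ i, (B i).det ≠ 0 := by
    intro i
    have h1 : (B i * trunc (lab i) (Φ i)).det = 1 := by
      rw [hB, Matrix.nonsing_inv_mul _ (isUnit_iff_ne_zero.mpr (hdet' i)), Matrix.det_one]
    rw [Matrix.det_mul] at h1
    intro h0
    rw [h0, zero_mul] at h1
    exact zero_ne_one h1
  have hgdet : ∀ i, (g i).det ≠ 0 := by
    intro i
    rw [hg, Matrix.det_mul]
    exact mul_ne_zero (hBdet i) (hdet i)
  have h1 : ∀ x, CovL lab s x → act g T x = 0 := by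
    intro x hx
    have : act g T = act B (act Φ T) := by rw [act_act]
    rw [this]
    refine cov_block (fun i a a' h => ?_) hT x hx
    refine block_inv (hdet' i) (fun b b' hb => ?_) a a' h
    rw [trunc, if_neg hb]
  set d := ∏ i, (g i).det with hd
  have hd0 : d ≠ 0 := Finset.prod_ne_zero_iff.mpr fun i _ => hgdet i
  have h2 := hF g (d⁻¹ • act g T) hgNF (fun x hx => by
    rw [Pi.smul_apply, h1 x hx, smul_zero])
  have h3 : act (fun i => (g i).adjugate) (d⁻¹ • act g T) = T := by
    rw [act_smul, act_act]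
    have : (fun i => (g i).adjugate * g i) =
        fun i => (g i).det • (1 : Matrix (Fin (m i)) (Fin (m i)) ℂ) := by
      ext i : 1
      rw [Matrix.adjugate_mul]
    rw [this, act_smul_one, smul_smul, inv_mul_cancel₀ hd0, one_smul]
  rwa [h3] at h2

theorem eval_zero_of_sums {c : Fin n → ℕ} (hcm : ∀ i, c i ≤ m i) {s : ℕ}
    {lab : ∀ i, Fin (m i) → ℕ}
    (hlab : ∀ i, ∀ j < s, (univ.filter (fun a : Fin (m i) => lab i a = j)).card ≤ c i) {F : MvPolynomial (∀ i, Fin (m i)) ℂ}
    (hF : ∀ (g : ∀ i, Matrix (Fin (m i)) (Fin (m i)) ℂ) (T : (∀ i, Fin (m i)) → ℂ),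
        (∀ i, NF (lab i) s (g i)) → (∀ x, CovL lab s x → T x = 0) →
        eval (act (fun i => (g i).adjugate) T) F = 0)
    {T : (∀ i, Fin (m i)) → ℂ} (hT : T ∈ Sums m (fun i => m i - c i) s) : eval T F = 0 := by
  obtain ⟨S, hS, rfl⟩ := hT
  have h1 : ∀ j : Fin s, ∃ w wi : ∀ i, Matrix (Fin (m i)) (Fin (m i)) ℂ,
      (∀ i, wi i * w i = 1) ∧ ∀ x, (∃ i, lab i (x i) = j) → act w (S j) x = 0 := by
    intro j
    obtain ⟨A, hA, hSA⟩ := hS j
    choose w wi hw1 hw2 using fun i => exists_w (hcm i)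
      (univ.filter (fun a : Fin (m i) => lab i a = j)) (hlab i j j.isLt) (A i) (hA i)
    refine ⟨w, wi, hw1, ?_⟩
    rintro x ⟨i, hi⟩
    generalize S j = U at hSA
    induction hSA using Submodule.span_induction with
    | mem S hS =>
      obtain ⟨v, hv, rfl⟩ := hS
      rw [act_rankOne, rankOne]
      exact Finset.prod_eq_zero (Finset.mem_univ i) (hw2 i (v i) (hv i) (x i)
        (Finset.mem_filter.mpr ⟨Finset.mem_univ _, hi⟩))
    | zero => rw [act, Matrix.mulVec_zero]; rfl
    | add S T _ _ hS hT =>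
      rw [act, Matrix.mulVec_add]
      show act w S x + act w T x = 0
      rw [hS, hT, add_zero]
    | smul a S _ hS => rw [act_smul, Pi.smul_apply, hS, smul_zero]
  choose w wi hw1 hw2 using h1
  have hwdet : ∀ j i, (w j i).det ≠ 0 := by
    intro j i h0
    have := congrArg Matrix.det (hw1 j i)
    rw [Matrix.det_mul, h0, mul_zero, Matrix.det_one] at this
    exact zero_ne_one this
  let D : Fin s → ℂ := fun j => ∏ i, (w j i).det
  have hD : ∀ j, D j ≠ 0 := fun j => Finset.prod_ne_zero_iff.mpr fun i _ => hwdet j i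
  let G : Fin s → (∀ i, Fin (m i)) → ℂ := fun j => (D j)⁻¹ • act (w j) (S j)
  have hG : ∀ (j : Fin s) x, (∃ i, lab i (x i) = j) → G j x = 0 := by
    intro j x hx
    show (D j)⁻¹ • (act (w j) (S j) x) = 0
    rw [hw2 j x hx, smul_zero]
  let Te : ℂ → (∀ i, Fin (m i)) → ℂ := fun ε =>
    ∑ j, act (fun i => (pth (w j i) ε).adjugate) (G j)
  have hTe1 : Te 1 = ∑ j, S j := by
    refine Finset.sum_congr rfl fun j _ => ?_
    simp only [pth_one]
    show act (fun i => (w j i).adjugate) ((D j)⁻¹ • act (w j) (S j)) = S j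
    rw [act_smul, act_act]
    have : (fun i => (w j i).adjugate * w j i) =
        fun i => (w j i).det • (1 : Matrix (Fin (m i)) (Fin (m i)) ℂ) := by
      ext i : 1
      rw [Matrix.adjugate_mul]
    rw [this, act_smul_one, smul_smul, inv_mul_cancel₀ (hD j), one_smul]
  have hcont : Continuous Te := by
    refine continuous_finsetSum _ fun j _ => ?_
    refine continuous_pi fun x => ?_
    simp only [act_apply]
    refine continuous_finsetSum _ fun y _ => Continuous.mul ?_ continuous_const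
    refine continuous_finsetProd _ fun i _ => ?_
    exact (continuous_pth (w j i)).matrix_adjugate.matrix_elem (x i) (y i)
  have hFc : Continuous fun ε => eval (Te ε) F :=
    (MvPolynomial.continuous_eval F).comp hcont
  -- the row-selected matrices
  let M : ∀ i, Matrix (Fin (m i)) (Fin (m i)) ℂ := fun i a a' =>
    if h : lab i a < s then w ⟨lab i a, h⟩ i a a' else if a = a' then 1 else 0
  have hfin : (⋃ i, {ε : ℂ | (pth (M i) ε).det = 0} ∪
      {ε : ℂ | (pth (trunc (lab i) (M i)) ε).det = 0}).Finite :=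
    Set.finite_iUnion fun i => (pth_det_finite _).union (pth_det_finite _)
  have hdense := Set.Countable.dense_compl ℂ hfin.countable
  have hgood : ∀ ε ∈ (⋃ i, {ε : ℂ | (pth (M i) ε).det = 0} ∪
      {ε : ℂ | (pth (trunc (lab i) (M i)) ε).det = 0})ᶜ, eval (Te ε) F = 0 := by
    intro ε hε
    simp only [Set.mem_compl_iff, Set.mem_iUnion, Set.mem_union, Set.mem_ofPred_eq,
      not_exists, not_or] at hε
    refine eval_zero_of_good hF (Φ := fun i => pth (M i) ε) ?_ (fun i => (hε i).1)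
      (fun i => ?_) (fun x hx => ?_)
    · intro i a a' ha
      rw [pth_apply]
      have : M i a a' = if a = a' then 1 else 0 := dif_neg (by omega)
      rw [this]
      ring
    · rw [trunc_pth]; exact (hε i).2
    · refine cov_key (w := fun j i => pth (w j i) ε) ?_ hG x hx
      intro j i a a' ha
      simp only [pth_apply]
      have : M i a a' = w j i a a' := by
        have h1 : lab i a < s := by rw [ha]; exact j.isLt
        have h2 : (⟨lab i a, h1⟩ : Fin s) = j := Fin.ext ha
        show (if h : lab i a < s then w ⟨lab i a, h⟩ i a a' else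
          if a = a' then 1 else 0) = _
        rw [dif_pos h1, h2]
      rw [this]
  have hall : ∀ ε : ℂ, eval (Te ε) F = 0 := by
    have hcl : IsClosed {ε : ℂ | eval (Te ε) F = 0} := isClosed_eq hFc continuous_const
    intro ε
    have h5 := hcl.closure_subset_iff.mpr (fun ε hε => hgood ε hε)
    rw [hdense.closure_eq] at h5
    exact h5 (Set.mem_univ ε)
  have := hall 1
  rwa [hTe1] at this

open Classical in
theorem card_pairs_le {k b s : ℕ} {lab : Fin k → ℕ}
    (hb : ∀ j < s, (univ.filter (fun a : Fin k => lab a = j)).card = b) :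
    Fintype.card {p : Fin k × Fin k // lab p.1 < s ∧ lab p.2 ≠ lab p.1} ≤
      s * (b * (k - b)) := by
  rw [Fintype.card_subtype]
  have h1 : (univ.filter (fun p : Fin k × Fin k =>
      lab p.1 < s ∧ lab p.2 ≠ lab p.1)).card ≤
      ∑ j ∈ Finset.range s, ((univ.filter (fun a : Fin k => lab a = j)) ×ˢ
        (univ.filter (fun a : Fin k => lab a = j))ᶜ).card := by
    refine le_trans (Finset.card_le_card ?_) Finset.card_biUnion_le
    intro p hp
    simp only [mem_filter, mem_univ, true_and] at hp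
    simp only [mem_biUnion, mem_range, mem_product, mem_compl, mem_filter, mem_univ, true_and]
    exact ⟨_, hp.1, rfl, hp.2⟩
  refine h1.trans ?_
  have h2 : ∀ j ∈ Finset.range s, ((univ.filter (fun a : Fin k => lab a = j)) ×ˢ
        (univ.filter (fun a : Fin k => lab a = j))ᶜ).card = b * (k - b) := by
    intro j hj
    rw [Finset.card_product, Finset.card_compl, hb j (Finset.mem_range.mp hj), Fintype.card_fin]
  rw [Finset.sum_congr rfl h2]
  simp

open Classical in
/-- The secant variety does not fill when there are more equations than parameters. -/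
theorem not_fills_lab {c : Fin n → ℕ} (hcm : ∀ i, c i ≤ m i) {s : ℕ}
    (lab : ∀ i, Fin (m i) → ℕ) (b : Fin n → ℕ) (hbc : ∀ i, b i ≤ c i)
    (hb : ∀ i, ∀ j < s, (univ.filter (fun a : Fin (m i) => lab i a = j)).card = b i)
    (hcount : s * ∑ i, b i * (m i - b i) < (univ.filter (fun x : ∀ i, Fin (m i) =>
      CovL lab s x)).card) : ¬ Fills m (fun i => m i - c i) s := by
  intro hfill
  have hcard : Fintype.card (PIdx lab s) < Fintype.card (∀ i, Fin (m i)) := by
    rw [Fintype.card_sum, Fintype.card_sigma]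
    have h1 : Fintype.card {x : ∀ i, Fin (m i) // ¬ CovL lab s x} =
        Fintype.card (∀ i, Fin (m i)) - (univ.filter (fun x : ∀ i, Fin (m i) =>
      CovL lab s x)).card := by
      rw [Fintype.card_subtype_compl, Fintype.card_subtype]
    have h2 : (univ.filter (fun x : ∀ i, Fin (m i) => CovL lab s x)).card ≤
        Fintype.card (∀ i, Fin (m i)) := Finset.card_le_univ _
    have h3 : ∑ i, Fintype.card {p : Fin (m i) × Fin (m i) //
        lab i p.1 < s ∧ lab i p.2 ≠ lab i p.1} ≤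
        s * ∑ i, b i * (m i - b i) := by
      rw [Finset.mul_sum]
      exact Finset.sum_le_sum fun i _ => card_pairs_le (hb i)
    rw [h1]
    omega
  obtain ⟨F, hF0, hF⟩ := exists_poly lab s hcard
  exact hF0 (hfill F fun T hT => eval_zero_of_sums hcm
    (fun i j hj => by rw [hb i j hj]; exact hbc i) hF hT)

open Classical in
theorem not_fills {c : Fin n → ℕ} (hc : ∀ i, 1 ≤ c i) (hcm : ∀ i, c i ≤ m i) {s : ℕ}
    (hs : ∀ i, s * c i ≤ m i)
    (hcount : s * ∑ i, c i * (m i - c i) < (univ.filter (fun x : ∀ i, Fin (m i) =>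
      Cov c s x)).card) : ¬ Fills m (fun i => m i - c i) s :=
  not_fills_lab hcm (fun i a => (a : ℕ) / c i) c (fun _ => le_rfl)
    (fun i j hj => card_block (hc i) (le_trans (Nat.mul_le_mul_right _ hj) (hs i))) hcount

end Pool.Agent.H63.SubV
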