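import Mathlib

/-!
A simple sufficient condition for the slot conditions.
-/

namespace Pool.Agent.H63.SubV

open Finset

theorem floor_gt {a b : ℕ} (hb : 1 ≤ b) : (a : ℝ) / b - 1 < ((a / b : ℕ) : ℝ) := by
  have h1 : a < b * (a / b) + b := by
    have h2 := Nat.div_add_mod a b
    have h3 := Nat.mod_lt a (show b > 0 by omega)
    omega
  have h4 : (a : ℝ) < b * ((a / b : ℕ) : ℝ) + b := by exact_mod_cast h1
  have hb' : (0 : ℝ) < b := by exact_mod_cast hb
  rw [sub_lt_iff_lt_add, div_lt_iff₀ hb']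
  linarith

theorem slack {n : ℕ} (hn : 6 ≤ n) {m c : Fin n → ℕ} (hc : ∀ i, 1 ≤ c i)
    (hm : ∀ i, n * c i ≤ m i)
    (h : ((n - 1).factorial + 2 * n) * ∏ i, c i ≤ ∑ i, c i * (m i - c i)) :
    ((n - 1).factorial ≤ ∑ i, (m i - c i) / (∏ k ∈ univ.erase i, c k) ∧
        (n - 1).factorial ≤ 2 * ∑ i, (m i - n * c i) / (∏ k ∈ univ.erase i, c k)) ∨
      (∃ j, (n - 1).factorial ≤ (m j - c j) / (∏ k ∈ univ.erase j, c k) +
        ∑ i ∈ univ.erase j, (m i - n * c i) / (∏ k ∈ univ.erase i, c k)) := by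
  classical
  let D : Fin n → ℕ := fun k => ∏ i ∈ univ.erase k, c i
  have hDpos : ∀ k, 1 ≤ D k := fun k =>
    Nat.succ_le_of_lt (Finset.prod_pos (s := univ.erase k) fun i _ => hc i)
  have hDc : ∀ k, c k * D k = ∏ i, c i := fun k =>
    Finset.mul_prod_erase univ c (Finset.mem_univ k)
  have hcm : ∀ i, c i ≤ m i := fun i =>
    le_trans (Nat.le_mul_of_pos_left _ (by omega)) (hm i)
  have hP : (0 : ℝ) < ∏ i, (c i : ℝ) := Finset.prod_pos fun i _ => by exact_mod_cast hc i
  have hDr : ∀ k, (0 : ℝ) < D k := fun k => by exact_mod_cast hDpos k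
  have hcr : ∀ k, (1 : ℝ) ≤ c k := fun k => by exact_mod_cast hc k
  have hDcr : ∀ k, (c k : ℝ) * D k = ∏ i, (c i : ℝ) := fun k => by exact_mod_cast hDc k
  let x : Fin n → ℝ := fun i => ((m i - c i : ℕ) : ℝ) / D i
  let ρ : Fin n → ℝ := fun i => (c i : ℝ) / D i
  have hρ : ∀ i, 0 < ρ i := fun i => div_pos (by have := hcr i; linarith) (hDr i)
  have hx : ((n - 1).factorial : ℝ) + 2 * n ≤ ∑ i, x i := by
    have h1 : (((n - 1).factorial : ℝ) + 2 * n) * ∏ i, (c i : ℝ) ≤
        ∑ i, (c i : ℝ) * ((m i - c i : ℕ) : ℝ) := by exact_mod_cast h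
    have h2 : ∑ i, (c i : ℝ) * ((m i - c i : ℕ) : ℝ) = (∑ i, x i) * ∏ i, (c i : ℝ) := by
      rw [Finset.sum_mul]
      refine Finset.sum_congr rfl fun i _ => ?_
      show (c i : ℝ) * ((m i - c i : ℕ) : ℝ) = ((m i - c i : ℕ) : ℝ) / D i * ∏ i, (c i : ℝ)
      rw [← hDcr i]
      have := (hDr i).ne'
      field_simp
    rw [h2] at h1
    exact le_of_mul_le_mul_right h1 hP
  have hu : ∀ i, x i - 1 < (((m i - c i) / D i : ℕ) : ℝ) := fun i => floor_gt (hDpos i)
  have hv : ∀ i, x i - (n - 1) * ρ i - 1 < (((m i - n * c i) / D i : ℕ) : ℝ) := by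
    intro i
    have h1 := floor_gt (a := m i - n * c i) (hDpos i)
    have h2 : x i - (n - 1) * ρ i = ((m i - n * c i : ℕ) : ℝ) / D i := by
      show ((m i - c i : ℕ) : ℝ) / D i - (n - 1) * ((c i : ℝ) / D i) = _
      rw [Nat.cast_sub (hcm i), Nat.cast_sub (hm i)]
      push_cast
      ring
    rw [h2]; exact h1
  have hn' : (6 : ℝ) ≤ n := by exact_mod_cast hn
  have hne : (univ : Finset (Fin n)).Nonempty := ⟨⟨0, by omega⟩, Finset.mem_univ _⟩
  have hfac : 2 * n * (n - 2) ≤ (n - 1).factorial := by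
    obtain ⟨k, rfl⟩ : ∃ k, n = k + 6 := ⟨n - 6, by omega⟩
    show 2 * (k + 6) * (k + 4) ≤ (k + 5).factorial
    have e1 : (k + 5).factorial = (k + 5) * ((k + 4) * (k + 3).factorial) := by
      rw [Nat.factorial_succ, Nat.factorial_succ]
    have e2 : 3 ≤ (k + 3).factorial :=
      le_trans (by norm_num [Nat.factorial]) (Nat.factorial_le (show 3 ≤ k + 3 by omega))
    rw [e1]
    nlinarith [Nat.zero_le k, Nat.mul_le_mul_left ((k + 5) * (k + 4)) e2]
  by_cases hS : ∑ i, ρ i ≤ n
  · left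
    constructor
    · have h1 : ∑ i, (x i - 1) < ∑ i, (((m i - c i) / D i : ℕ) : ℝ) :=
        Finset.sum_lt_sum_of_nonempty hne fun i _ => hu i
      rw [Finset.sum_sub_distrib, Finset.sum_const, Finset.card_univ, Fintype.card_fin,
        nsmul_eq_mul, mul_one] at h1
      have h2 : ((n - 1).factorial : ℝ) < ((∑ i, (m i - c i) / D i : ℕ) : ℝ) := by
        push_cast
        linarith
      exact (Nat.cast_lt.mp h2).le
    · have h1 : ∑ i, (x i - (n - 1) * ρ i - 1) < ∑ i, (((m i - n * c i) / D i : ℕ) : ℝ) :=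
        Finset.sum_lt_sum_of_nonempty hne fun i _ => hv i
      rw [Finset.sum_sub_distrib, Finset.sum_sub_distrib, ← Finset.mul_sum, Finset.sum_const,
        Finset.card_univ, Fintype.card_fin, nsmul_eq_mul, mul_one] at h1
      have h3 : (2 : ℝ) * n * (n - 2) ≤ (n - 1).factorial := by
        have : ((2 * n * (n - 2) : ℕ) : ℝ) ≤ ((n - 1).factorial : ℝ) := Nat.cast_le.mpr hfac
        rw [Nat.cast_mul, Nat.cast_sub (by omega)] at this
        push_cast at this
        exact this
      have h4 : ((n : ℝ) - 1) * ∑ i, ρ i ≤ (n - 1) * n :=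
        mul_le_mul_of_nonneg_left hS (by linarith)
      have h2 : ((n - 1).factorial : ℝ) < ((2 * ∑ i, (m i - n * c i) / D i : ℕ) : ℝ) := by
        push_cast
        nlinarith
      exact (Nat.cast_lt.mp h2).le
  · right
    push Not at hS
    obtain ⟨k, _, hk⟩ := Finset.exists_max_image univ ρ hne
    have hprod : ∀ j, j ≠ k → ρ j * ρ k ≤ 1 := by
      intro j hj
      have e1 : (c k : ℝ) ≤ D j := by
        have h1 : c k ∣ D j :=
          Finset.dvd_prod_of_mem c (Finset.mem_erase.mpr ⟨Ne.symm hj, Finset.mem_univ k⟩)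
        exact_mod_cast Nat.le_of_dvd (hDpos j) h1
      have e2 : (c j : ℝ) ≤ D k := by
        have h1 : c j ∣ D k :=
          Finset.dvd_prod_of_mem c (Finset.mem_erase.mpr ⟨hj, Finset.mem_univ j⟩)
        exact_mod_cast Nat.le_of_dvd (hDpos k) h1
      show (c j : ℝ) / D j * ((c k : ℝ) / D k) ≤ 1
      rw [div_mul_div_comm, div_le_one (mul_pos (hDr j) (hDr k))]
      have := hcr j
      have := hcr k
      nlinarith
    have hρk : 1 < ρ k := by
      by_contra hle
      push Not at hle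
      have : ∑ i, ρ i ≤ ∑ i : Fin n, (1 : ℝ) :=
        Finset.sum_le_sum fun i _ => (hk i (Finset.mem_univ i)).trans hle
      simp at this
      linarith
    have hsum : ∑ i ∈ univ.erase k, ρ i * ρ k ≤ (n : ℝ) - 1 := by
      have h1 : ∑ i ∈ univ.erase k, ρ i * ρ k ≤ ∑ i ∈ univ.erase k, (1 : ℝ) :=
        Finset.sum_le_sum fun i hi => hprod i (Finset.ne_of_mem_erase hi)
      rw [Finset.sum_const, Finset.card_erase_of_mem (Finset.mem_univ k), Finset.card_univ,
        Fintype.card_fin, nsmul_eq_mul, mul_one, Nat.cast_sub (by omega)] at h1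
      simpa using h1
    rw [← Finset.sum_mul] at hsum
    set R := ∑ i ∈ univ.erase k, ρ i with hR
    have hSR : ∑ i, ρ i = ρ k + R := (Finset.add_sum_erase univ ρ (Finset.mem_univ k)).symm
    have hk1 : (n : ℝ) - 1 < ρ k := by
      by_contra hle
      push Not at hle
      rw [hSR] at hS
      nlinarith
    have hR1 : (n - 1 : ℝ) * R ≤ n - 1 := by
      by_contra hlt
      push Not at hlt
      have hR0 : 1 < R := by
        by_contra hle
        push Not at hle
        nlinarith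
      nlinarith
    refine ⟨k, ?_⟩
    have h1 : ∑ i ∈ univ.erase k, (x i - (n - 1) * ρ i - 1) ≤
        ∑ i ∈ univ.erase k, (((m i - n * c i) / D i : ℕ) : ℝ) :=
      Finset.sum_le_sum fun i _ => (hv i).le
    rw [Finset.sum_sub_distrib, Finset.sum_sub_distrib, ← Finset.mul_sum, Finset.sum_const,
      Finset.card_erase_of_mem (Finset.mem_univ k), Finset.card_univ, Fintype.card_fin,
      nsmul_eq_mul, mul_one, Nat.cast_sub (by omega)] at h1
    have h2 := hu k
    have hxs : ∑ i, x i = x k + ∑ i ∈ univ.erase k, x i :=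
      (Finset.add_sum_erase univ x (Finset.mem_univ k)).symm
    have h5 : ((n - 1).factorial : ℝ) < (((m k - c k) / D k +
        ∑ i ∈ univ.erase k, (m i - n * c i) / D i : ℕ) : ℝ) := by
      push_cast
      push_cast at h1
      linarith
    exact (Nat.cast_lt.mp h5).le

end Pool.Agent.H63.SubV
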