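import Pool.Agent.H63.SubV.Basic

/-!
Upper bound through surjectivity of the differential.
-/

namespace Pool.Agent.H63.SubV

open Finset Module Topology

variable {n : ℕ} {m : Fin n → ℕ}

/-- The parameter space. -/
abbrev Par (m : Fin n → ℕ) : Type :=
  (∀ i, Fin (m i) → Fin (m i) → ℂ) × ((∀ i, Fin (m i)) → ℂ)

open Classical in
/-- Parametrisation. -/
noncomputable def Th (m c : Fin n → ℕ) (s : ℕ) (p : Par m) : (∀ i, Fin (m i)) → ℂ :=
  fun x => ∑ y, (∏ i, p.1 i (x i) (y i)) * (if Cov c s y then 0 else p.2 y)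

theorem contDiff_Th (m c : Fin n → ℕ) (s : ℕ) : ContDiff ℂ 1 (Th m c s) := by
  classical
  refine contDiff_pi.mpr fun x => ?_
  refine ContDiff.sum fun y _ => ContDiff.mul ?_ ?_
  · refine contDiff_prod fun i _ => ?_
    have h0 : ContDiff ℂ 1 (fun p : Par m => p.1) := contDiff_fst
    exact contDiff_pi.mp (contDiff_pi.mp (contDiff_pi.mp h0 i) (x i)) (y i)
  · split_ifs
    · exact contDiff_const
    · fun_prop

theorem fderiv_apply_of_affine {E F : Type*} [NormedAddCommGroup E] [NormedSpace ℂ E]
    [NormedAddCommGroup F] [NormedSpace ℂ F] {f : E → F} {f' : E →L[ℂ] F} {p v : E} {L : F}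
    (hf : HasFDerivAt f f' p) (h : ∀ ε : ℂ, f (p + ε • v) = f p + ε • L) : f' v = L := by
  have h1 : HasDerivAt (fun ε : ℂ => p + ε • v) v 0 := by
    simpa using ((hasDerivAt_id (0 : ℂ)).smul_const v).const_add p
  have h2 : HasDerivAt (fun ε : ℂ => f (p + ε • v)) (f' v) 0 := by
    have hf' : HasFDerivAt f f' (p + (0 : ℂ) • v) := by simpa using hf
    exact hf'.comp_hasDerivAt 0 h1
  have h3 : HasDerivAt (fun ε : ℂ => f p + ε • L) L 0 := by
    simpa using ((hasDerivAt_id (0 : ℂ)).smul_const L).const_add (f p)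
  have h4 : (fun ε : ℂ => f (p + ε • v)) = fun ε : ℂ => f p + ε • L := funext h
  rw [h4] at h2
  exact h2.unique h3

open Classical in
/-- The base point. -/
noncomputable def base (T0 : (∀ i, Fin (m i)) → ℂ) : Par m :=
  (fun _ a a' => if a = a' then 1 else 0, T0)

theorem Th_line_tensor (c : Fin n → ℕ) (s : ℕ) (T0 R : (∀ i, Fin (m i)) → ℂ) (ε : ℂ)
    (hR : ∀ x, Cov c s x → R x = 0) :
    Th m c s (base T0 + ε • ((0, R) : Par m)) = Th m c s (base T0) + ε • R := by
  classical
  have hprod : ∀ x y : ∀ i, Fin (m i),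
      (∏ i, (if x i = y i then (1 : ℂ) else 0)) = if x = y then 1 else 0 := by
    intro x y
    by_cases h : x = y
    · subst h; simp
    · obtain ⟨i, hi⟩ : ∃ i, x i ≠ y i := Function.ne_iff.mp h
      rw [if_neg h]
      exact Finset.prod_eq_zero (Finset.mem_univ i) (if_neg hi)
  have hval : ∀ (W : (∀ i, Fin (m i)) → ℂ) (x : ∀ i, Fin (m i)),
      (∑ y, (∏ i, (if x i = y i then (1 : ℂ) else 0)) * (if Cov c s y then 0 else W y)) =
        if Cov c s x then 0 else W x := by
    intro W x
    simp_rw [hprod]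
    rw [Finset.sum_eq_single x]
    · rw [if_pos rfl, one_mul]
    · intro y _ hy; rw [if_neg (Ne.symm hy), zero_mul]
    · intro h; exact absurd (Finset.mem_univ x) h
  ext x
  have e1 : Th m c s (base T0 + ε • ((0, R) : Par m)) x =
      if Cov c s x then 0 else (T0 + ε • R) x := by
    rw [← hval]
    simp only [Th, base, Prod.fst_add, Prod.smul_fst, smul_zero, add_zero, Prod.snd_add,
      Prod.smul_snd]
  have e2 : Th m c s (base T0) x = if Cov c s x then 0 else T0 x := by
    rw [← hval]
    rfl
  rw [Pi.add_apply, e1, e2, Pi.smul_apply]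
  split_ifs with h
  · rw [hR x h]; simp
  · rfl

theorem Th_base (c : Fin n → ℕ) (s : ℕ) (T0 : (∀ i, Fin (m i)) → ℂ)
    (h0 : ∀ x, Cov c s x → T0 x = 0) : Th m c s (base T0) = T0 := by
  have h := Th_line_tensor c s (0 : (∀ i, Fin (m i)) → ℂ) T0 1 h0
  have h1 : base (0 : (∀ i, Fin (m i)) → ℂ) + (1 : ℂ) • ((0, T0) : Par m) = base T0 := by
    simp [base]
  rw [h1] at h
  rw [h]
  have h2 : Th m c s (base (0 : (∀ i, Fin (m i)) → ℂ)) = 0 := by
    ext x
    simp only [Th, base, Pi.zero_apply]
    refine Finset.sum_eq_zero fun y _ => ?_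
    split_ifs <;> simp
  rw [h2]
  simp

open Classical in
theorem Th_line_mat (c : Fin n → ℕ) (s : ℕ) (T0 : (∀ i, Fin (m i)) → ℂ)
    (h0 : ∀ x, Cov c s x → T0 x = 0) (i : Fin n) (b a : Fin (m i)) (ε : ℂ) :
    Th m c s (base T0 + ε • ((Pi.single i (Pi.single b (Pi.single a 1)), 0) : Par m)) =
      Th m c s (base T0) +
        ε • (fun y : ∀ i, Fin (m i) => if y i = b then T0 (Function.update y i a) else 0) := by
  rw [Th_base c s T0 h0]
  ext x
  have hW : ∀ y, (if Cov c s y then 0 else T0 y) = T0 y := by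
    intro y
    split_ifs with h
    · exact (h0 y h).symm
    · rfl
  have e1 : Th m c s (base T0 + ε • ((Pi.single i (Pi.single b (Pi.single a 1)), 0) : Par m)) x =
      ∑ y, (∏ k, ((if x k = y k then (1 : ℂ) else 0) +
        ε * (Pi.single (M := fun i => Fin (m i) → Fin (m i) → ℂ) i
          (Pi.single b (Pi.single a 1)) k (x k) (y k)))) * T0 y := by
    simp only [Th, base, Prod.fst_add, Prod.smul_fst, smul_zero, Prod.snd_add,
      Prod.smul_snd, Pi.add_apply, Pi.smul_apply, smul_eq_mul, Pi.zero_apply, add_zero, hW]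
  rw [e1]
  have e2 : ∀ y : ∀ i, Fin (m i), (∏ k, ((if x k = y k then (1 : ℂ) else 0) +
        ε * (Pi.single (M := fun i => Fin (m i) → Fin (m i) → ℂ) i
          (Pi.single b (Pi.single a 1)) k (x k) (y k)))) =
      (∏ k, (if x k = y k then (1 : ℂ) else 0)) +
        ε * (if x i = b ∧ y i = a then 1 else 0) *
          ∏ k ∈ univ.erase i, (if x k = y k then (1 : ℂ) else 0) := by
    intro y
    rw [← Finset.mul_prod_erase univ _ (Finset.mem_univ i),
      ← Finset.mul_prod_erase univ (fun k => if x k = y k then (1 : ℂ) else 0)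
        (Finset.mem_univ i)]
    have e3 : ∏ k ∈ univ.erase i, ((if x k = y k then (1 : ℂ) else 0) +
        ε * (Pi.single (M := fun i => Fin (m i) → Fin (m i) → ℂ) i
          (Pi.single b (Pi.single a 1)) k (x k) (y k))) =
        ∏ k ∈ univ.erase i, (if x k = y k then (1 : ℂ) else 0) := by
      refine Finset.prod_congr rfl fun k hk => ?_
      rw [Pi.single_eq_of_ne (Finset.ne_of_mem_erase hk)]
      simp
    rw [e3, Pi.single_eq_same]
    have e4 : (Pi.single b (Pi.single a (1 : ℂ)) : Fin (m i) → Fin (m i) → ℂ) (x i) (y i) =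
        if x i = b ∧ y i = a then 1 else 0 := by
      by_cases h1 : x i = b
      · rw [h1, Pi.single_eq_same, Pi.single_apply]
        by_cases h2 : y i = a
        · simp [h2]
        · simp [h2]
      · rw [Pi.single_eq_of_ne h1, if_neg (fun h => h1 h.1)]
        rfl
    rw [e4]
    ring
  simp_rw [e2, add_mul, Finset.sum_add_distrib]
  have hprod : ∀ y : ∀ i, Fin (m i),
      (∏ i, (if x i = y i then (1 : ℂ) else 0)) = if x = y then 1 else 0 := by
    intro y
    by_cases h : x = y
    · subst h; simp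
    · obtain ⟨i, hi⟩ : ∃ i, x i ≠ y i := Function.ne_iff.mp h
      rw [if_neg h]
      exact Finset.prod_eq_zero (Finset.mem_univ i) (if_neg hi)
  have e5 : ∑ y : ∀ i, Fin (m i), (∏ k, (if x k = y k then (1 : ℂ) else 0)) * T0 y = T0 x := by
    simp_rw [hprod]
    rw [Finset.sum_eq_single x]
    · rw [if_pos rfl, one_mul]
    · intro y _ hy; rw [if_neg (Ne.symm hy), zero_mul]
    · intro h; exact absurd (Finset.mem_univ x) h
  have e6 : ∑ y : ∀ i, Fin (m i), ε * (if x i = b ∧ y i = a then 1 else 0) *
          (∏ k ∈ univ.erase i, (if x k = y k then (1 : ℂ) else 0)) * T0 y =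
      ε * (if x i = b then T0 (Function.update x i a) else 0) := by
    rw [Finset.sum_eq_single (Function.update x i a)]
    · rw [Function.update_self]
      have : ∏ k ∈ univ.erase i, (if x k = Function.update x i a k then (1 : ℂ) else 0) = 1 := by
        refine Finset.prod_eq_one fun k hk => ?_
        rw [Function.update_of_ne (Finset.ne_of_mem_erase hk), if_pos rfl]
      rw [this]
      by_cases h : x i = b
      · simp [h]
      · simp [h]
    · intro y _ hy
      by_cases h1 : y i = a
      · have : ∃ k, k ≠ i ∧ x k ≠ y k := by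
          by_contra hno
          push Not at hno
          apply hy
          ext k : 1
          by_cases hk : k = i
          · subst hk; rw [Function.update_self, h1]
          · rw [Function.update_of_ne hk, hno k hk]
        obtain ⟨k, hk, hxy⟩ := this
        rw [Finset.prod_eq_zero (Finset.mem_erase.mpr ⟨hk, Finset.mem_univ k⟩) (if_neg hxy)]
        ring
      · rw [if_neg (fun h => h1 h.2)]
        ring
    · intro h; exact absurd (Finset.mem_univ _) h
  rw [e5, e6]
  rfl

open Classical in
theorem fills_of_span {c : Fin n → ℕ} (hc : ∀ i, 1 ≤ c i) {s : ℕ} (hs : ∀ i, s * c i ≤ m i)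
    (T0 : (∀ i, Fin (m i)) → ℂ) (h0 : ∀ x, Cov c s x → T0 x = 0)
    (hspan : ∀ x, Cov c s x → (Pi.single x 1 : (∀ i, Fin (m i)) → ℂ) ∈ Submodule.span ℂ
      ({R | ∃ (i : Fin n) (b a : Fin (m i)), R = fun y : ∀ i, Fin (m i) =>
          if y i = b then T0 (Function.update y i a) else 0} ∪
        {R | ∃ y, ¬ Cov c s y ∧ R = Pi.single y 1})) :
    Fills m (fun i => m i - c i) s := by
  intro F hF
  have hstrict : HasStrictFDerivAt (Th m c s) (fderiv ℂ (Th m c s) (base T0)) (base T0) :=
    (contDiff_Th m c s).contDiffAt.hasStrictFDerivAt one_ne_zero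
  have hd := hstrict.hasFDerivAt
  have hrange : (fderiv ℂ (Th m c s) (base T0)).range = ⊤ := by
    rw [eq_top_iff]
    have h1 : ∀ x : ∀ i, Fin (m i), ¬ Cov c s x → (Pi.single x 1 : (∀ i, Fin (m i)) → ℂ) ∈
        (fderiv ℂ (Th m c s) (base T0)).range := by
      intro x hx
      refine ⟨(0, Pi.single x 1), ?_⟩
      refine fderiv_apply_of_affine hd fun ε => Th_line_tensor c s T0 _ ε ?_
      intro y hy
      rw [Pi.single_apply, if_neg]
      rintro rfl
      exact hx hy
    have h2 : ∀ (i : Fin n) (b a : Fin (m i)),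
        (fun y : ∀ i, Fin (m i) => if y i = b then T0 (Function.update y i a) else 0) ∈
        (fderiv ℂ (Th m c s) (base T0)).range := by
      intro i b a
      refine ⟨(Pi.single i (Pi.single b (Pi.single a 1)), 0), ?_⟩
      exact fderiv_apply_of_affine hd fun ε => Th_line_mat c s T0 h0 i b a ε
    have h3 : ∀ x : ∀ i, Fin (m i), (Pi.single x 1 : (∀ i, Fin (m i)) → ℂ) ∈
        (fderiv ℂ (Th m c s) (base T0)).range := by
      intro x
      by_cases hx : Cov c s x
      · refine (Submodule.span_le.mpr ?_) (hspan x hx)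
        rintro R (⟨i, b, a, rfl⟩ | ⟨y, hy, rfl⟩)
        · exact h2 i b a
        · exact h1 y hy
      · exact h1 x hx
    intro R _
    have hR : R = ∑ x, R x • (Pi.single x 1 : (∀ i, Fin (m i)) → ℂ) := by
      ext y
      rw [Finset.sum_apply, Finset.sum_eq_single y]
      · simp
      · intro x _ hxy
        rw [Pi.smul_apply, Pi.single_apply, if_neg (Ne.symm hxy), smul_zero]
      · intro h; exact absurd (Finset.mem_univ y) h
    rw [hR]
    exact Submodule.sum_mem _ fun x _ => Submodule.smul_mem _ _ (h3 x)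
  have hmap := hstrict.map_nhds_eq_of_surj hrange
  rw [Th_base c s T0 h0] at hmap
  have hU : ∀ᶠ p in 𝓝 (base T0), ∀ i, (Matrix.of (p.1 i)).det ≠ 0 := by
    rw [Filter.eventually_all]
    intro i
    have hcont : Continuous fun p : Par m => (Matrix.of (p.1 i)).det := by
      refine Continuous.matrix_det ?_
      refine continuous_matrix fun a b => ?_
      simp only [Matrix.of_apply]
      fun_prop
    refine hcont.continuousAt.eventually_ne ?_
    have : Matrix.of ((base T0).1 i) = (1 : Matrix (Fin (m i)) (Fin (m i)) ℂ) := by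
      ext a b
      simp only [base, Matrix.of_apply, Matrix.one_apply]
    rw [this, Matrix.det_one]
    exact one_ne_zero
  have hzero : ∀ᶠ T in 𝓝 T0, MvPolynomial.eval T F = 0 := by
    rw [← hmap, Filter.eventually_map]
    filter_upwards [hU] with p hp
    apply hF
    have h4 : Th m c s p = act (fun i => Matrix.of (p.1 i))
        (fun y => if Cov c s y then 0 else p.2 y) := by
      ext x
      rw [act_apply]
      rfl
    rw [h4]
    refine act_mem_sums (h := fun i => (Matrix.of (p.1 i))⁻¹) (fun i => ?_) ?_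
    · exact Matrix.nonsing_inv_mul _ (isUnit_iff_ne_zero.mpr (hp i))
    · exact mem_sums_of_cov hc hs fun x hx => if_pos hx
  obtain ⟨δ, hδ, hball⟩ := Metric.eventually_nhds_iff_ball.mp hzero
  have h5 : F = 0 := by
    refine MvPolynomial.funext_set (fun x => Metric.ball (T0 x) δ) (fun x => ?_) fun T hT => ?_
    · exact infinite_of_mem_nhds (T0 x) (Metric.ball_mem_nhds _ hδ)
    · rw [map_zero]
      apply hball
      rw [ball_pi _ hδ]
      exact hT
  exact h5

open Classical in
/-- Slot assignment criterion. -/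
theorem fills_of_assignment {c : Fin n → ℕ} (hc : ∀ i, 1 ≤ c i) {s : ℕ}
    (hs : ∀ i, s * c i ≤ m i)
    (I : (∀ i, Fin (m i)) → Fin n) (A : (∀ i, Fin (m i)) → ℕ) (ρ : (∀ i, Fin (m i)) → ℕ) (N : ℕ)
    (hρ : ∀ x, Cov c s x → ρ x < N)
    (hA : ∀ x, Cov c s x → A x < m (I x))
    (h1 : ∀ z w : ∀ i, Fin (m i), Cov c s w → (∀ k, k ≠ I w → z k = w k) →
      (z (I w) : ℕ) = A w → ¬ Cov c s z)
    (h2 : ∀ x y w z : ∀ i, Fin (m i), Cov c s x → Cov c s y → Cov c s w →
      y (I x) = x (I x) → (∀ k, k ≠ I x → z k = y k) → (z (I x) : ℕ) = A x →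
      (∀ k, k ≠ I w → z k = w k) → (z (I w) : ℕ) = A w → y = x ∨ ρ x < ρ y) :
    Fills m (fun i => m i - c i) s := by
  let Z : (∀ i, Fin (m i)) → Prop := fun z => ∃ w, Cov c s w ∧ (∀ k, k ≠ I w → z k = w k) ∧
    (z (I w) : ℕ) = A w
  let T0 : (∀ i, Fin (m i)) → ℂ := fun z => if Z z then 1 else 0
  have h0 : ∀ x, Cov c s x → T0 x = 0 := by
    intro x hx
    refine if_neg ?_
    rintro ⟨w, hw, hk, hz⟩
    exact h1 x w hw hk hz hx
  refine fills_of_span hc hs T0 h0 ?_
  set V := Submodule.span ℂ
      ({R | ∃ (i : Fin n) (b a : Fin (m i)), R = fun y : ∀ i, Fin (m i) =>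
          if y i = b then T0 (Function.update y i a) else 0} ∪
        {R : (∀ i, Fin (m i)) → ℂ | ∃ y, ¬ Cov c s y ∧ R = Pi.single y 1}) with hV
  have hmain : ∀ k : ℕ, ∀ x, Cov c s x → N ≤ ρ x + k →
      (Pi.single x 1 : (∀ i, Fin (m i)) → ℂ) ∈ V := by
    intro k
    induction k with
    | zero =>
      intro x hx hN
      have := hρ x hx
      omega
    | succ k ih =>
      intro x hx hN
      let L : (∀ i, Fin (m i)) → ℂ := fun y => if y (I x) = x (I x) then
        T0 (Function.update y (I x) ⟨A x, hA x hx⟩) else 0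
      have hL : L ∈ V := Submodule.subset_span (Or.inl ⟨I x, x (I x), ⟨A x, hA x hx⟩, rfl⟩)
      have hLx : L x = 1 := by
        show (if x (I x) = x (I x) then T0 (Function.update x (I x) ⟨A x, hA x hx⟩) else 0) = 1
        rw [if_pos rfl]
        refine if_pos ⟨x, hx, fun k hk => ?_, ?_⟩
        · rw [Function.update_of_ne hk]
        · rw [Function.update_self]
      have hLy : ∀ y, y ≠ x → L y • (Pi.single y 1 : (∀ i, Fin (m i)) → ℂ) ∈ V := by
        intro y hyx
        by_cases hy : Cov c s y
        · by_cases hLy0 : L y = 0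
          · rw [hLy0, zero_smul]; exact Submodule.zero_mem _
          · have h3 : y (I x) = x (I x) := by
              by_contra h4
              exact hLy0 (if_neg h4)
            have h4 : L y = T0 (Function.update y (I x) ⟨A x, hA x hx⟩) := if_pos h3
            have h5 : Z (Function.update y (I x) ⟨A x, hA x hx⟩) := by
              by_contra h6
              exact hLy0 (by rw [h4]; exact if_neg h6)
            obtain ⟨w, hw, hwk, hwz⟩ := h5
            have h6 := h2 x y w (Function.update y (I x) ⟨A x, hA x hx⟩) hx hy hw h3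
              (fun k hk => by rw [Function.update_of_ne hk]) (by rw [Function.update_self])
              hwk hwz
            rcases h6 with h7 | h7
            · exact absurd h7 hyx
            · exact Submodule.smul_mem _ _ (ih y hy (by omega))
        · exact Submodule.smul_mem _ _ (Submodule.subset_span (Or.inr ⟨y, hy, rfl⟩))
      have hdecomp : (Pi.single x 1 : (∀ i, Fin (m i)) → ℂ) =
          L - ∑ y ∈ univ.erase x, L y • (Pi.single y 1 : (∀ i, Fin (m i)) → ℂ) := by
        have hLsum : L = ∑ y, L y • (Pi.single y 1 : (∀ i, Fin (m i)) → ℂ) := by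
          ext y
          rw [Finset.sum_apply, Finset.sum_eq_single y]
          · simp
          · intro x _ hxy
            rw [Pi.smul_apply, Pi.single_apply, if_neg (Ne.symm hxy), smul_zero]
          · intro h; exact absurd (Finset.mem_univ y) h
        rw [← Finset.add_sum_erase univ _ (Finset.mem_univ x), hLx, one_smul] at hLsum
        rw [eq_sub_iff_add_eq]
        exact hLsum.symm
      rw [hdecomp]
      refine Submodule.sub_mem _ hL (Submodule.sum_mem _ fun y hy => ?_)
      exact hLy y (Finset.ne_of_mem_erase hy)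
  intro x hx
  exact hmain N x hx (by omega)

end Pool.Agent.H63.SubV
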